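import Pool.Agent.HSG.Nf

/-!
# HSG/Fig: the figure eight group acts transitively on the cusps of the Eisenstein integers

The group generated by the translation by one and the lower triangular matrix with entry `-w` contains the
translation by `2 + 4 w`; for every Eisenstein integer it has an element with lower left entry of norm one whose
inverse has this value at infinity, and the Euclidean algorithm gives the transitivity.
-/

set_option autoImplicit false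

noncomputable section

namespace Pool.Agent.HSG

open Pool.Agent.HSK Matrix
open scoped MatrixGroups commutatorElement

variable {w : ℂ}

/-- `z ↦ z / (s z + 1)` -/
def Lo (s : ℂ) : SL(2, ℂ) := ⟨!![1, 0; s, 1], by simp [Matrix.det_fin_two]⟩

/-- the figure eight group -/
def F8 (w : ℂ) : Subgroup PSL(2, ℂ) := Subgroup.closure {t 1, cls (Lo (-w))}

private theorem Fig_lo (s : ℂ) : (Lo s).1 = !![1, 0; s, 1] := rfl

private theorem Fig_a (w : ℂ) : cls (T 1) ∈ F8 w := Subgroup.subset_closure (Or.inl rfl)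

private theorem Fig_b (w : ℂ) : cls (Lo (-w)) ∈ F8 w := Subgroup.subset_closure (Or.inr rfl)

private theorem Fig_mul {w : ℂ} {A B : SL(2, ℂ)} (hA : cls A ∈ F8 w) (hB : cls B ∈ F8 w) : cls (A * B) ∈ F8 w := by
  rw [cls_mul]
  exact (F8 w).mul_mem hA hB

private theorem Fig_inv {w : ℂ} {A : SL(2, ℂ)} (hA : cls A ∈ F8 w) : cls A⁻¹ ∈ F8 w := by
  rw [cls_inv]
  exact (F8 w).inv_mem hA

private theorem Fig_ext {a b c d a' b' c' d' : ℂ} (h1 : a = a') (h2 : b = b') (h3 : c = c') (h4 : d = d') :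
    (!![a, b; c, d] : Matrix (Fin 2) (Fin 2) ℂ) = !![a', b'; c', d'] := by rw [h1, h2, h3, h4]

private theorem Fig_prod {A B : SL(2, ℂ)} {a b c d a' b' c' d' : ℂ} (hA : A.1 = !![a, b; c, d])
    (hB : B.1 = !![a', b'; c', d']) :
    (A * B).1 = !![a * a' + b * c', a * b' + b * d'; c * a' + d * c', c * b' + d * d'] := by
  rw [Matrix.SpecialLinearGroup.coe_mul, hA, hB, Matrix.mul_fin_two]

private theorem Fig_tinv (β : ℂ) : ((T β)⁻¹).1 = !![1, -β; 0, 1] := by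
  rw [← T_neg, T_coe]

private theorem Fig_linv (s : ℂ) : ((Lo s)⁻¹).1 = !![1, 0; -s, 1] := by
  rw [inv_coe, Fig_lo]
  simp

/-- the word `b A` -/
private theorem Fig_w3 (w : ℂ) : (Lo (-w) * (T 1)⁻¹).1 = !![1, -1; -w, 1 + w] := by
  rw [Fig_prod (Fig_lo _) (Fig_tinv _)]
  exact Fig_ext (by ring) (by ring) (by ring) (by ring)

/-- the word `B a` -/
private theorem Fig_w1 (w : ℂ) : ((Lo (-w))⁻¹ * T 1).1 = !![1, 1; w, 1 + w] := by
  rw [Fig_prod (Fig_linv _) (T_coe _)]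
  exact Fig_ext (by ring) (by ring) (by ring) (by ring)

/-- the word `b A B a` -/
private theorem Fig_w0 (hw : w ^ 2 + w + 1 = 0) :
    (Lo (-w) * (T 1)⁻¹ * ((Lo (-w))⁻¹ * T 1)).1 = !![1 - w, -w; -1 - w, 0] := by
  rw [Fig_prod (Fig_w3 w) (Fig_w1 w)]
  exact Fig_ext (by ring) (by ring) (by linear_combination hw) (by linear_combination hw)

/-- the word `b a B a` -/
private theorem Fig_w2 (hw : w ^ 2 + w + 1 = 0) :
    (Lo (-w) * T 1 * ((Lo (-w))⁻¹ * T 1)).1 = !![1 + w, 2 + w; 1 + w, 2] := by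
  have h : (Lo (-w) * T 1).1 = !![1, 1; -w, 1 - w] := by
    rw [Fig_prod (Fig_lo _) (T_coe _)]
    exact Fig_ext (by ring) (by ring) (by ring) (by ring)
  rw [Fig_prod h (Fig_w1 w)]
  exact Fig_ext (by ring) (by ring) (by linear_combination -hw) (by linear_combination -hw)

/-- the word `a B A b` -/
private theorem Fig_w4 (hw : w ^ 2 + w + 1 = 0) :
    (T 1 * (Lo (-w))⁻¹ * ((T 1)⁻¹ * Lo (-w))).1 = !![0, -w; -1 - w, 1 - w] := by
  have h : (T 1 * (Lo (-w))⁻¹).1 = !![1 + w, 1; w, 1] := by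
    rw [Fig_prod (T_coe _) (Fig_linv _)]
    exact Fig_ext (by ring) (by ring) (by ring) (by ring)
  have h' : ((T 1)⁻¹ * Lo (-w)).1 = !![1 + w, -1; -w, 1] := by
    rw [Fig_prod (Fig_tinv _) (Fig_lo _)]
    exact Fig_ext (by ring) (by ring) (by ring) (by ring)
  rw [Fig_prod h h']
  exact Fig_ext (by linear_combination hw) (by ring) (by linear_combination hw) (by ring)

private theorem Fig_t24 (hw : w ^ 2 + w + 1 = 0) : t (2 + 4 * w) ∈ F8 w := by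
  have h : cls (Lo (-w) * (T 1)⁻¹ * ((Lo (-w))⁻¹ * T 1) * (T 1 * (Lo (-w))⁻¹ * ((T 1)⁻¹ * Lo (-w)))) =
      t (2 + 4 * w) := by
    refine cls_eq.2 (Or.inr ?_)
    rw [Fig_prod (Fig_w0 hw) (Fig_w4 hw), T_coe]
    have hn : (-(!![1, 2 + 4 * w; 0, 1] : Matrix (Fin 2) (Fin 2) ℂ)) = !![-1, -(2 + 4 * w); 0, -1] := by
      ext i j
      fin_cases i <;> fin_cases j <;> simp
    rw [hn]
    refine Fig_ext ?_ ?_ ?_ ?_
    · linear_combination hw
    · linear_combination 2 * hw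
    · ring
    · linear_combination hw
  rw [← h]
  exact Fig_mul (Fig_mul (Fig_mul (Fig_b w) (Fig_inv (Fig_a w))) (Fig_mul (Fig_inv (Fig_b w)) (Fig_a w)))
    (Fig_mul (Fig_mul (Fig_a w) (Fig_inv (Fig_b w))) (Fig_mul (Fig_inv (Fig_a w)) (Fig_b w)))

theorem F8.t_mem (hw : w ^ 2 + w + 1 = 0) (m n : ℤ) : t (m + n * (4 * w)) ∈ F8 w := by
  have h1 : t 1 ∈ F8 w := Fig_a w
  have h2 := Fig_t24 hw
  have e : ((m : ℂ) + n * (4 * w)) = ((m - 2 * n : ℤ) : ℂ) * 1 + (n : ℂ) * (2 + 4 * w) := by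
    push_cast
    ring
  rw [e, t_add, t_int, t_int]
  exact (F8 w).mul_mem ((F8 w).zpow_mem h1 _) ((F8 w).zpow_mem h2 _)

private theorem Fig_fin {P : ℂ → Prop} {A : SL(2, ℂ)} {a b c d : ℂ} (h : A.1 = !![a, b; c, d]) (ha : P a) (hb : P b)
    (hc : P c) (hd : P d) : ∀ i j, P (A.1 i j) := by
  intro i j
  rw [h]
  fin_cases i <;> fin_cases j
  · exact ha
  · exact hb
  · exact hc
  · exact hd

private theorem Fig_intmul (hw : w ^ 2 + w + 1 = 0) {A B : SL(2, ℂ)} (hA : ∀ i j, A.1 i j ∈ Oz w)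
    (hB : ∀ i j, B.1 i j ∈ Oz w) : ∀ i j, (A * B).1 i j ∈ Oz w := by
  intro i j
  rw [Matrix.SpecialLinearGroup.coe_mul, Matrix.mul_apply, Fin.sum_univ_two]
  exact oz_add (oz_mul hw (hA _ _) (hB _ _)) (oz_mul hw (hA _ _) (hB _ _))

theorem F8.int (hw : w ^ 2 + w + 1 = 0) {x : PSL(2, ℂ)} (hx : x ∈ F8 w) : ∃ A : SL(2, ℂ), cls A = x ∧ ∀ i j, A.1 i j ∈ Oz w := by
  refine Subgroup.closure_induction (p := fun x _ => ∃ A : SL(2, ℂ), cls A = x ∧ ∀ i j, A.1 i j ∈ Oz w)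
    ?_ ?_ ?_ ?_ hx
  · rintro x (rfl | rfl)
    · exact ⟨T 1, rfl, Fig_fin (T_coe 1) oz_one oz_one oz_zero oz_one⟩
    · exact ⟨Lo (-w), rfl, Fig_fin (Fig_lo (-w)) oz_one oz_zero (oz_neg oz_w) oz_one⟩
  · refine ⟨T 0, by rw [T_zero, cls_one], Fig_fin (T_coe 0) oz_one oz_zero oz_zero oz_one⟩
  · rintro x y - - ⟨A, rfl, hA⟩ ⟨B, rfl, hB⟩
    exact ⟨A * B, cls_mul A B, Fig_intmul hw hA hB⟩
  · rintro x - ⟨A, rfl, hA⟩
    exact ⟨A⁻¹, cls_inv A, Fig_fin (inv_coe A) (hA _ _) (oz_neg (hA _ _)) (oz_neg (hA _ _)) (hA _ _)⟩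

private theorem Fig_base (hw : w ^ 2 + w + 1 = 0) (y : ℤ) : ∃ (n r : ℤ) (D : SL(2, ℂ)), y = 4 * n + r ∧ cls D ∈ F8 w ∧
    (∀ i j, D.1 i j ∈ Oz w) ∧ Complex.normSq (D.1 1 0) = 1 ∧ pt D⁻¹ = r * w := by
  have h3 := w_pow hw
  have hw0 : w ≠ 0 := by
    rintro rfl
    norm_num at hw
  have hn : Complex.normSq w = 1 := root_norm (by linear_combination (w ^ 3 + 1) * h3)
  have h1w : 1 + w = -w ^ 2 := by linear_combination hw
  have hn1 : Complex.normSq (1 + w) = 1 := by rw [h1w, Complex.normSq_neg, map_pow, hn, one_pow]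
  have h1w0 : 1 + w ≠ 0 := by
    rw [h1w]
    exact neg_ne_zero.2 (pow_ne_zero 2 hw0)
  have o1w : 1 + w ∈ Oz w := oz_add oz_one oz_w
  have hy : y % 4 = 0 ∨ y % 4 = 1 ∨ y % 4 = 2 ∨ y % 4 = 3 := by omega
  rcases hy with hy | hy | hy | hy
  · refine ⟨y / 4, 0, Lo (-w) * (T 1)⁻¹ * ((Lo (-w))⁻¹ * T 1), by omega, ?_, ?_, ?_, ?_⟩
    · exact Fig_mul (Fig_mul (Fig_b w) (Fig_inv (Fig_a w))) (Fig_mul (Fig_inv (Fig_b w)) (Fig_a w))
    · exact Fig_fin (Fig_w0 hw) (oz_sub oz_one oz_w) (oz_neg oz_w) (oz_sub (oz_neg oz_one) oz_w) oz_zero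
    · rw [Fig_w0 hw]
      show Complex.normSq (-1 - w) = 1
      rw [show -1 - w = -(1 + w) by ring, Complex.normSq_neg, hn1]
    · rw [pt_inv, Fig_w0 hw]
      show -0 / (-1 - w) = ((0 : ℤ) : ℂ) * w
      simp
  · refine ⟨y / 4, 1, (Lo (-w))⁻¹ * T 1, by omega, ?_, ?_, ?_, ?_⟩
    · exact Fig_mul (Fig_inv (Fig_b w)) (Fig_a w)
    · exact Fig_fin (Fig_w1 w) oz_one oz_one oz_w o1w
    · rw [Fig_w1 w]
      exact hn
    · rw [pt_inv, Fig_w1 w]
      show -(1 + w) / w = ((1 : ℤ) : ℂ) * w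
      rw [div_eq_iff hw0]
      push_cast
      linear_combination -hw
  · refine ⟨y / 4, 2, Lo (-w) * T 1 * ((Lo (-w))⁻¹ * T 1), by omega, ?_, ?_, ?_, ?_⟩
    · exact Fig_mul (Fig_mul (Fig_b w) (Fig_a w)) (Fig_mul (Fig_inv (Fig_b w)) (Fig_a w))
    · exact Fig_fin (Fig_w2 hw) o1w (oz_add (oz_add oz_one oz_one) oz_w |> fun h => by norm_num at h; exact h) o1w
        (oz_add oz_one oz_one |> fun h => by norm_num at h; exact h)
    · rw [Fig_w2 hw]
      exact hn1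
    · rw [pt_inv, Fig_w2 hw]
      show -2 / (1 + w) = ((2 : ℤ) : ℂ) * w
      rw [div_eq_iff h1w0]
      push_cast
      linear_combination -2 * hw
  · refine ⟨y / 4 + 1, -1, Lo (-w) * (T 1)⁻¹, by omega, ?_, ?_, ?_, ?_⟩
    · exact Fig_mul (Fig_b w) (Fig_inv (Fig_a w))
    · exact Fig_fin (Fig_w3 w) oz_one (oz_neg oz_one) (oz_neg oz_w) o1w
    · rw [Fig_w3 w]
      show Complex.normSq (-w) = 1
      rw [Complex.normSq_neg, hn]
    · rw [pt_inv, Fig_w3 w]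
      show -(1 + w) / (-w) = ((-1 : ℤ) : ℂ) * w
      rw [div_eq_iff (neg_ne_zero.2 hw0)]
      push_cast
      linear_combination -hw

theorem F8.red (hw : w ^ 2 + w + 1 = 0) {β : ℂ} (hβ : β ∈ Oz w) :
    ∃ D : SL(2, ℂ), cls D ∈ F8 w ∧ (∀ i j, D.1 i j ∈ Oz w) ∧ Complex.normSq (D.1 1 0) = 1 ∧ pt D⁻¹ = β := by
  obtain ⟨x, y, rfl⟩ := hβ
  obtain ⟨n, r, D, hy, hD, hDi, hDn, hDp⟩ := Fig_base hw y
  have hm : cls (T (((-x : ℤ) : ℂ) + ((-n : ℤ) : ℂ) * (4 * w))) ∈ F8 w := F8.t_mem hw (-x) (-n)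
  have hc : (D * T (((-x : ℤ) : ℂ) + ((-n : ℤ) : ℂ) * (4 * w))).1 1 0 = D.1 1 0 := by
    rw [mul_T_coe]
    rfl
  have hD0 : D.1 1 0 ≠ 0 := by
    intro h0
    rw [h0, Complex.normSq_zero] at hDn
    exact zero_ne_one hDn
  refine ⟨D * T (((-x : ℤ) : ℂ) + ((-n : ℤ) : ℂ) * (4 * w)), Fig_mul hD hm, ?_, ?_, ?_⟩
  · refine Fig_intmul hw hDi (Fig_fin (T_coe _) oz_one ⟨-x, -n * 4, ?_⟩ oz_zero oz_one)
    push_cast
    ring
  · rw [hc, hDn]
  · have h0 : (D⁻¹).1 1 0 ≠ 0 := by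
      rw [inv_coe]
      exact neg_ne_zero.2 hD0
    rw [_root_.mul_inv_rev, ← T_neg, pt_T _ h0, hDp, hy]
    push_cast
    ring

theorem F8.trans (hw : w ^ 2 + w + 1 = 0) (A : SL(2, ℂ)) (hA : ∀ i j, A.1 i j ∈ Oz w) :
    ∃ D : SL(2, ℂ), cls D ∈ F8 w ∧ (D * A).1 1 0 = 0 := by
  have key : ∀ (k : ℕ) (A : SL(2, ℂ)), (∀ i j, A.1 i j ∈ Oz w) → Complex.normSq (A.1 1 0) = k →
      ∃ D : SL(2, ℂ), cls D ∈ F8 w ∧ (D * A).1 1 0 = 0 := by
    intro k
    induction k using Nat.strong_induction_on with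
    | _ k ih =>
      intro A hA hk
      by_cases h0 : A.1 1 0 = 0
      · exact ⟨1, by rw [cls_one]; exact (F8 w).one_mem, by rw [one_mul]; exact h0⟩
      obtain ⟨β, hβ, hβn⟩ := oz_near hw (pt A)
      obtain ⟨D, hD, hDi, hDn, hDp⟩ := F8.red hw hβ
      have hD0 : D.1 1 0 ≠ 0 := by
        intro h1
        rw [h1, Complex.normSq_zero] at hDn
        exact zero_ne_one hDn
      have hc := c_mul (A := D) (B := A) hD0 h0
      have hi := Fig_intmul hw hDi hA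
      have hpos : 0 < Complex.normSq (A.1 1 0) := Complex.normSq_pos.2 h0
      have hlt : Complex.normSq ((D * A).1 1 0) < Complex.normSq (A.1 1 0) := by
        rw [hc, hDp, map_mul, map_mul, hDn, one_mul]
        nlinarith
      obtain ⟨x, y, hxy⟩ := hi 1 0
      have hn := oz_norm hw x y
      rw [← hxy] at hn
      have hz : 0 ≤ x ^ 2 - x * y + y ^ 2 := by
        have := Complex.normSq_nonneg ((D * A).1 1 0)
        rw [hn] at this
        exact_mod_cast this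
      obtain ⟨l, hl⟩ := Int.eq_ofNat_of_zero_le hz
      have hl' : Complex.normSq ((D * A).1 1 0) = l := by
        rw [hn, hl]
        simp
      rw [hl', hk] at hlt
      obtain ⟨E, hE, hE0⟩ := ih l (by exact_mod_cast hlt) (D * A) hi hl'
      exact ⟨E * D, Fig_mul hE hD, by rw [mul_assoc]; exact hE0⟩
  obtain ⟨x, y, hxy⟩ := hA 1 0
  have hn := oz_norm hw x y
  rw [← hxy] at hn
  have hz : 0 ≤ x ^ 2 - x * y + y ^ 2 := by
    have := Complex.normSq_nonneg (A.1 1 0)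
    rw [hn] at this
    exact_mod_cast this
  obtain ⟨l, hl⟩ := Int.eq_ofNat_of_zero_le hz
  refine key l A hA ?_
  rw [hn, hl]
  simp

end Pool.Agent.HSG
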