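import Mathlib

/-!
# HSG/Inq: real inequalities

Seven inequalities for solutions of `X ^ 2 + Y ^ 2 + Z ^ 2 = -σ X Y Z` and for the real numbers built from them.
-/

set_option autoImplicit false

noncomputable section

namespace Pool.Agent.HSG

open Complex

private theorem inqAux_core {s x y z : ℝ} (hx : 0 < x) (hy : 0 < y) (hz : 0 < z) (hxy : x ≤ y) (hyz : y ≤ z)
    (hz2 : z * z ≤ x * x + y * y) (h : s * x * y * z ≤ x * x + y * y + z * z) : s * x ≤ 3 ∧ z < 2 * y := by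
  have hz3 : z < 2 * y := by
    by_contra hc
    push Not at hc
    nlinarith [mul_pos hy hy, mul_self_nonneg (z - 2 * y)]
  refine ⟨?_, hz3⟩
  have h3 : x * x + y * y + z * z ≤ 3 * (y * z) := by
    nlinarith [mul_nonneg (sub_nonneg.2 hyz) (sub_nonneg.2 hz3.le), mul_nonneg (sub_nonneg.2 hxy) (add_pos hx hy).le]
  have h4 : s * x * (y * z) ≤ 3 * (y * z) := by
    calc s * x * (y * z) = s * x * y * z := by ring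
      _ ≤ _ := le_trans h h3
  exact le_of_mul_le_mul_right h4 (mul_pos hy hz)

private theorem inqAux_le {A B : ℂ} (h : normSq A ≤ normSq B) : ‖A‖ ≤ ‖B‖ := by
  rw [Complex.normSq_eq_norm_sq, Complex.normSq_eq_norm_sq] at h
  exact le_of_sq_le_sq h (norm_nonneg _) 

private theorem inqAux_norm {σ X Y Z Z' : ℂ} (hX : X ≠ 0) (hY : Y ≠ 0) (hZ : Z ≠ 0) (h1 : X ^ 2 + Y ^ 2 + Z ^ 2 = -σ * X * Y * Z)
    (h3 : Z * Z' = X ^ 2 + Y ^ 2)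
    (a1 : normSq X ≤ normSq Y) (a2 : normSq Y ≤ normSq Z) (a3 : normSq Z ≤ normSq Z') :
    ‖σ‖ * ‖X‖ ≤ 3 ∧ ‖Z‖ < 2 * ‖Y‖ := by
  have b1 := inqAux_le a1
  have b2 := inqAux_le a2
  have b3 := inqAux_le a3
  have hx : 0 < ‖X‖ := norm_pos_iff.2 hX
  have hy : 0 < ‖Y‖ := norm_pos_iff.2 hY
  have hz : 0 < ‖Z‖ := norm_pos_iff.2 hZ
  have e1 : ‖Z‖ * ‖Z‖ ≤ ‖X‖ * ‖X‖ + ‖Y‖ * ‖Y‖ := by
    calc ‖Z‖ * ‖Z‖ ≤ ‖Z‖ * ‖Z'‖ := mul_le_mul_of_nonneg_left b3 hz.le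
      _ = ‖Z * Z'‖ := (norm_mul _ _).symm
      _ = ‖X ^ 2 + Y ^ 2‖ := by rw [h3]
      _ ≤ ‖X ^ 2‖ + ‖Y ^ 2‖ := norm_add_le _ _
      _ = _ := by rw [norm_pow, norm_pow]; ring
  have e2 : ‖σ‖ * ‖X‖ * ‖Y‖ * ‖Z‖ ≤ ‖X‖ * ‖X‖ + ‖Y‖ * ‖Y‖ + ‖Z‖ * ‖Z‖ := by
    calc ‖σ‖ * ‖X‖ * ‖Y‖ * ‖Z‖ = ‖-σ * X * Y * Z‖ := by
          rw [norm_mul, norm_mul, norm_mul, norm_neg]
      _ = ‖X ^ 2 + Y ^ 2 + Z ^ 2‖ := by rw [h1]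
      _ ≤ ‖X ^ 2 + Y ^ 2‖ + ‖Z ^ 2‖ := norm_add_le _ _
      _ ≤ ‖X ^ 2‖ + ‖Y ^ 2‖ + ‖Z ^ 2‖ := by
          have := norm_add_le (X ^ 2) (Y ^ 2)
          linarith
      _ = _ := by rw [norm_pow, norm_pow, norm_pow]; ring
  exact inqAux_core hx hy hz b1 b2 e1 e2

theorem inq1 {σ X Y Z Z' : ℂ} (hX : X ≠ 0) (hY : Y ≠ 0) (hZ : Z ≠ 0) (h1 : X ^ 2 + Y ^ 2 + Z ^ 2 = -σ * X * Y * Z) (h3 : Z * Z' = X ^ 2 + Y ^ 2)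
    (a1 : normSq X ≤ normSq Y) (a2 : normSq Y ≤ normSq Z) (a3 : normSq Z ≤ normSq Z') (hσ : 3 ≤ normSq σ) : normSq X ≤ 3 := by
  obtain ⟨hs, -⟩ := inqAux_norm hX hY hZ h1 h3 a1 a2 a3
  rw [Complex.normSq_eq_norm_sq] at hσ ⊢
  have h9 : (‖σ‖ * ‖X‖) ^ 2 ≤ 3 ^ 2 := pow_le_pow_left₀ (mul_nonneg (norm_nonneg _) (norm_nonneg _)) hs 2
  rw [mul_pow] at h9
  nlinarith [sq_nonneg ‖X‖, mul_le_mul_of_nonneg_right hσ (sq_nonneg ‖X‖)]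

private theorem inqAux_eq {A B C : ℂ} (hA : normSq A = 9) (hB : normSq B = 9) (hC : normSq C = 9)
    (h : normSq (A + B + C) = 81) : B = A ∧ C = A := by
  have h0 : normSq (B - A) + normSq (C - A) + normSq (B - C) = 0 := by
    rw [Complex.normSq_apply] at hA hB hC h ⊢
    simp only [Complex.normSq_apply, Complex.sub_re, Complex.sub_im, Complex.add_re, Complex.add_im] at h ⊢
    nlinarith
  have p1 := Complex.normSq_nonneg (B - A)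
  have p2 := Complex.normSq_nonneg (C - A)
  have p3 := Complex.normSq_nonneg (B - C)
  have q1 : normSq (B - A) = 0 := by linarith
  have q2 : normSq (C - A) = 0 := by linarith
  exact ⟨sub_eq_zero.1 (Complex.normSq_eq_zero.1 q1), sub_eq_zero.1 (Complex.normSq_eq_zero.1 q2)⟩

theorem inq2 {σ X Y Z Z' : ℂ} (hX : X ≠ 0) (hY : Y ≠ 0) (hZ : Z ≠ 0) (h1 : X ^ 2 + Y ^ 2 + Z ^ 2 = -σ * X * Y * Z) (h3 : Z * Z' = X ^ 2 + Y ^ 2)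
    (a1 : normSq X ≤ normSq Y) (a2 : normSq Y ≤ normSq Z) (a3 : normSq Z ≤ normSq Z') (hσ : 3 ≤ normSq σ) (hX3 : 3 ≤ normSq X) :
    normSq σ = 3 ∧ normSq X = 3 ∧ normSq Y = 3 ∧ normSq Z = 3 ∧ Y ^ 2 = X ^ 2 ∧ Z ^ 2 = X ^ 2 := by
  obtain ⟨hs, hz2⟩ := inqAux_norm hX hY hZ h1 h3 a1 a2 a3
  have b1 := inqAux_le a1
  have b2 := inqAux_le a2
  have hx : 0 < ‖X‖ := norm_pos_iff.2 hX
  have hy : 0 < ‖Y‖ := norm_pos_iff.2 hY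
  have hz : 0 < ‖Z‖ := norm_pos_iff.2 hZ
  have h9 : (‖σ‖ * ‖X‖) ^ 2 ≤ 3 ^ 2 := pow_le_pow_left₀ (mul_nonneg (norm_nonneg _) (norm_nonneg _)) hs 2
  rw [mul_pow] at h9
  have eX : normSq X = 3 := le_antisymm (inq1 hX hY hZ h1 h3 a1 a2 a3 hσ) hX3
  have eX' : ‖X‖ ^ 2 = 3 := by rw [← Complex.normSq_eq_norm_sq]; exact eX
  have eσ' : ‖σ‖ ^ 2 = 3 := by
    rw [eX'] at h9
    rw [Complex.normSq_eq_norm_sq] at hσ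
    linarith
  have eσ : normSq σ = 3 := by rw [Complex.normSq_eq_norm_sq]; exact eσ'
  have hsx : ‖σ‖ * ‖X‖ = 3 := by
    have h0 : (‖σ‖ * ‖X‖) ^ 2 = 3 ^ 2 := by rw [mul_pow, eX', eσ']; norm_num
    exact (sq_eq_sq₀ (mul_nonneg (norm_nonneg _) (norm_nonneg _)) (by norm_num)).1 h0
  have e2 : 3 * (‖Y‖ * ‖Z‖) ≤ ‖X‖ * ‖X‖ + ‖Y‖ * ‖Y‖ + ‖Z‖ * ‖Z‖ := by
    calc 3 * (‖Y‖ * ‖Z‖) = ‖σ‖ * ‖X‖ * ‖Y‖ * ‖Z‖ := by rw [hsx]; ring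
      _ = ‖-σ * X * Y * Z‖ := by
          rw [norm_mul, norm_mul, norm_mul, norm_neg]
      _ = ‖X ^ 2 + Y ^ 2 + Z ^ 2‖ := by rw [h1]
      _ ≤ ‖X ^ 2 + Y ^ 2‖ + ‖Z ^ 2‖ := norm_add_le _ _
      _ ≤ ‖X ^ 2‖ + ‖Y ^ 2‖ + ‖Z ^ 2‖ := by
          have := norm_add_le (X ^ 2) (Y ^ 2)
          linarith
      _ = _ := by rw [norm_pow, norm_pow, norm_pow]; ring
  have k1 : 0 ≤ (‖Z‖ - ‖Y‖) * (2 * ‖Y‖ - ‖Z‖) := mul_nonneg (by linarith) (by linarith)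
  have k2 : 0 ≤ (‖Y‖ - ‖X‖) * (‖Y‖ + ‖X‖) := mul_nonneg (by linarith) (by linarith)
  have k3 : (‖Z‖ - ‖Y‖) * (2 * ‖Y‖ - ‖Z‖) + (‖Y‖ - ‖X‖) * (‖Y‖ + ‖X‖) ≤ 0 := by nlinarith
  have k4 : (‖Z‖ - ‖Y‖) * (2 * ‖Y‖ - ‖Z‖) = 0 := by linarith
  have k5 : (‖Y‖ - ‖X‖) * (‖Y‖ + ‖X‖) = 0 := by linarith
  have eY : ‖Y‖ = ‖X‖ := by
    rcases mul_eq_zero.1 k5 with h | h
    · linarith
    · linarith
  have eZ : ‖Z‖ = ‖X‖ := by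
    rcases mul_eq_zero.1 k4 with h | h
    · linarith
    · linarith
  have nY : normSq Y = 3 := by rw [Complex.normSq_eq_norm_sq, eY]; exact eX'
  have nZ : normSq Z = 3 := by rw [Complex.normSq_eq_norm_sq, eZ]; exact eX'
  have s1 : normSq (X ^ 2) = 9 := by rw [map_pow, eX]; norm_num
  have s2 : normSq (Y ^ 2) = 9 := by rw [map_pow, nY]; norm_num
  have s3 : normSq (Z ^ 2) = 9 := by rw [map_pow, nZ]; norm_num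
  have s4 : normSq (X ^ 2 + Y ^ 2 + Z ^ 2) = 81 := by
    rw [h1, map_mul, map_mul, map_mul, Complex.normSq_neg, eσ, eX, nY, nZ]
    norm_num
  obtain ⟨t1, t2⟩ := inqAux_eq s1 s2 s3 s4
  exact ⟨eσ, eX, nY, nZ, t1, t2⟩

theorem inq3 {σ X Y Z Z' : ℂ} (hX : X ≠ 0) (hY : Y ≠ 0) (h2 : Z + Z' = -σ * X * Y) (h3 : Z * Z' = X ^ 2 + Y ^ 2)
    (a2 : normSq Y ≤ normSq Z) (a3 : normSq Z ≤ normSq Z') : normSq σ * normSq X ≤ (2 + normSq X / normSq Y) ^ 2 := by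
  have b2 := inqAux_le a2
  have b3 := inqAux_le a3
  have hx : 0 < ‖X‖ := norm_pos_iff.2 hX
  have hy : 0 < ‖Y‖ := norm_pos_iff.2 hY
  have hz : 0 < ‖Z‖ := lt_of_lt_of_le hy b2
  have e1 : ‖Z‖ * ‖Z'‖ ≤ ‖X‖ ^ 2 + ‖Y‖ ^ 2 := by
    calc ‖Z‖ * ‖Z'‖ = ‖Z * Z'‖ := (norm_mul _ _).symm
      _ = ‖X ^ 2 + Y ^ 2‖ := by rw [h3]
      _ ≤ ‖X ^ 2‖ + ‖Y ^ 2‖ := norm_add_le _ _
      _ = _ := by rw [norm_pow, norm_pow]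
  have e2 : ‖σ‖ * ‖X‖ * ‖Y‖ ≤ ‖Z‖ + ‖Z'‖ := by
    calc ‖σ‖ * ‖X‖ * ‖Y‖ = ‖-σ * X * Y‖ := by rw [norm_mul, norm_mul, norm_neg]
      _ = ‖Z + Z'‖ := by rw [h2]
      _ ≤ _ := norm_add_le _ _
  have e3 : ‖Z‖ * ‖Y‖ ≤ ‖X‖ ^ 2 + ‖Y‖ ^ 2 :=
    le_trans (mul_le_mul_of_nonneg_left (le_trans b2 b3) hz.le) e1
  have e4 : ‖Z‖ * (‖Z‖ + ‖Z'‖) * ‖Y‖ ≤ ‖Z‖ * (2 * ‖Y‖ ^ 2 + ‖X‖ ^ 2) := by
    nlinarith [mul_nonneg (sub_nonneg.2 b2) (sub_nonneg.2 e3), mul_le_mul_of_nonneg_right e1 hy.le]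
  have e5 : (‖Z‖ + ‖Z'‖) * ‖Y‖ ≤ 2 * ‖Y‖ ^ 2 + ‖X‖ ^ 2 := by
    have : ‖Z‖ * ((‖Z‖ + ‖Z'‖) * ‖Y‖) ≤ ‖Z‖ * (2 * ‖Y‖ ^ 2 + ‖X‖ ^ 2) := by
      calc ‖Z‖ * ((‖Z‖ + ‖Z'‖) * ‖Y‖) = ‖Z‖ * (‖Z‖ + ‖Z'‖) * ‖Y‖ := by ring
        _ ≤ _ := e4
    exact le_of_mul_le_mul_left this hz
  have e6 : ‖σ‖ * ‖X‖ ≤ 2 + ‖X‖ ^ 2 / ‖Y‖ ^ 2 := by
    have hy2 : 0 < ‖Y‖ ^ 2 := pow_pos hy 2
    have e7 : ‖σ‖ * ‖X‖ * ‖Y‖ ^ 2 ≤ 2 * ‖Y‖ ^ 2 + ‖X‖ ^ 2 := by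
      calc ‖σ‖ * ‖X‖ * ‖Y‖ ^ 2 = ‖σ‖ * ‖X‖ * ‖Y‖ * ‖Y‖ := by ring
        _ ≤ (‖Z‖ + ‖Z'‖) * ‖Y‖ := mul_le_mul_of_nonneg_right e2 hy.le
        _ ≤ _ := e5
    have e8 : 2 + ‖X‖ ^ 2 / ‖Y‖ ^ 2 = (2 * ‖Y‖ ^ 2 + ‖X‖ ^ 2) / ‖Y‖ ^ 2 := by
      rw [add_div, mul_div_assoc, div_self hy2.ne', mul_one]
    rw [e8, le_div_iff₀ hy2]
    exact e7
  have e9 := pow_le_pow_left₀ (mul_nonneg (norm_nonneg σ) (norm_nonneg X)) e6 2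
  rw [mul_pow] at e9
  simp only [Complex.normSq_eq_norm_sq]
  exact e9

theorem inq4 {S r y2 : ℝ} (hr : 2.1 < r) (hr3 : r < 3) (hy : 3 ≤ y2) (hS : 4 ≤ S) (h : S * r ≤ (2 + r / y2) ^ 2) : False := by
  have hr0 : 0 < r := by linarith
  have h1 : r / y2 ≤ r / 3 := div_le_div_of_nonneg_left hr0.le (by norm_num) hy
  have h0 : 0 ≤ r / y2 := div_nonneg hr0.le (by linarith)
  have h2 : (2 + r / y2) ^ 2 ≤ (2 + r / 3) ^ 2 := pow_le_pow_left₀ (by linarith) (by linarith) 2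
  have h3 : 4 * r ≤ S * r := mul_le_mul_of_nonneg_right hS hr0.le
  nlinarith

theorem inq5 {r y2 : ℝ} (hr : 2.1 < r) (hr3 : r < 3) (hy : 3 ≤ y2) (h : 3 * r ≤ (2 + r / y2) ^ 2) : r * (1 / 3) * y2 < 3 := by
  have hr0 : 0 < r := by linarith
  have hy0 : 0 < y2 := by linarith
  have h0 : 0 < r / y2 := div_pos hr0 hy0
  obtain ⟨s, hs0, hs⟩ : ∃ s : ℝ, 0 ≤ s ∧ s ^ 2 = 3 * r :=
    ⟨Real.sqrt (3 * r), Real.sqrt_nonneg _, Real.sq_sqrt (by linarith)⟩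
  have s1 : 2.5 < s := by
    by_contra hc
    push Not at hc
    have := pow_le_pow_left₀ hs0 hc 2
    norm_num at this hr
    linarith
  have s2 : s < 3 := by
    by_contra hc
    push Not at hc
    have := pow_le_pow_left₀ (by norm_num) hc 2
    norm_num at this
    linarith
  have k1 : s ≤ 2 + r / y2 := by
    rw [← hs] at h
    exact le_of_sq_le_sq h (by linarith)
  have k2 : r ^ 2 < 9 * (r / y2) := by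
    have k3 : s ^ 4 < 81 * (s - 2) := by
      have : 0 < (3 - s) * (s ^ 3 + 3 * s ^ 2 + 9 * s - 54) := by
        refine mul_pos (by linarith) ?_
        have q2 : 2.5 ^ 2 < s ^ 2 := pow_lt_pow_left₀ s1 (by norm_num) (by norm_num)
        have q3 : 2.5 ^ 3 < s ^ 3 := pow_lt_pow_left₀ s1 (by norm_num) (by norm_num)
        norm_num at q2 q3 s1
        linarith
      nlinarith
    have k4 : s ^ 4 = 9 * r ^ 2 := by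
      calc s ^ 4 = (s ^ 2) ^ 2 := by ring
        _ = _ := by rw [hs]; ring
    linarith
  have k5 : r ^ 2 * y2 < 9 * r := by
    calc r ^ 2 * y2 < 9 * (r / y2) * y2 := mul_lt_mul_of_pos_right k2 hy0
      _ = 9 * r := by rw [mul_assoc, div_mul_cancel₀ _ hy0.ne']
  have k6 : r * (r * y2) < r * 9 := by nlinarith
  have k7 : r * y2 < 9 := lt_of_mul_lt_mul_left k6 hr0.le
  linarith

theorem inq6 {r y2 : ℝ} (hr : 2.1 < r) (hy : r ^ 2 ≤ y2) (h : 3 * r ≤ (2 + r / y2) ^ 2) : False := by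
  have hr0 : 0 < r := by linarith
  have hr2 : 0 < r ^ 2 := pow_pos hr0 2
  have hy0 : 0 < y2 := lt_of_lt_of_le hr2 hy
  have h0 : 0 ≤ r / y2 := (div_pos hr0 hy0).le
  have h1 : r / y2 ≤ 1 / 2 - 1 / 50 := by
    rw [div_le_iff₀ hy0]
    norm_num at hr
    nlinarith
  have h2 : (2 + r / y2) ^ 2 ≤ (2 + (1 / 2 - 1 / 50)) ^ 2 := pow_le_pow_left₀ (by linarith) (by linarith) 2
  norm_num at h2 hr
  linarith

theorem inq7 {r u v s : ℝ} (hr : 1 ≤ r) (hr2 : r ≤ 2.1) (huv : u ^ 2 + v ^ 2 = r ^ 2) (hu : 0 ≤ u) (hu2 : 3 * r ^ 2 ≤ 4 * u ^ 2)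
    (h : 3 ≤ r * ((u - 1) ^ 2 + v ^ 2)) (hs : s ^ 2 = 3) (hsv : 0 ≤ s * v) :
    1.98 < r ∧ r * ((u - 3 / 2) ^ 2 + (v - s / 2) ^ 2) < 1 := by
  have hr0 : 0 < r := by linarith
  have hw : 2 * u * r ≤ r ^ 3 + r - 3 := by
    have e : r * ((u - 1) ^ 2 + v ^ 2) = r * (u ^ 2 + v ^ 2) - 2 * u * r + r := by ring
    rw [e, huv] at h
    nlinarith
  have hu1 : 1.732 * r ≤ 2 * u := by
    by_contra hc
    push Not at hc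
    have h1 : (2 * u) ^ 2 < (1.732 * r) ^ 2 := pow_lt_pow_left₀ hc (by linarith) (by norm_num)
    have h2 : 0 < r ^ 2 := pow_pos hr0 2
    nlinarith
  have hw1 : 1.732 * r ^ 2 ≤ 2 * u * r := by nlinarith
  have hr1 : 1.98 < r := by
    by_contra hc
    push Not at hc
    have h1 : 0 ≤ (1.98 - r) * (r ^ 2 + 0.248 * r + 1.49104) := by
      refine mul_nonneg (by linarith) ?_
      have := pow_pos hr0 2
      nlinarith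
    nlinarith
  refine ⟨hr1, ?_⟩
  by_contra hc
  push Not at hc
  have e1 : r * ((u - 3 / 2) ^ 2 + (v - s / 2) ^ 2) = r * (u ^ 2 + v ^ 2) - 3 * u * r + 9 / 4 * r - r * (s * v) + r * s ^ 2 / 4 := by ring
  rw [e1, huv, hs] at hc
  have e2 : r * (s * v) ≤ r ^ 3 + 3 * r - 1 - 3 / 2 * (2 * u * r) := by nlinarith
  have e3 : 0 ≤ r * (s * v) := mul_nonneg hr0.le hsv
  have e4 := pow_le_pow_left₀ e3 e2 2
  have e5 : (r * (s * v)) ^ 2 = 3 * r ^ 4 - 3 / 4 * (2 * u * r) ^ 2 := by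
    have : (r * (s * v)) ^ 2 = r ^ 2 * s ^ 2 * v ^ 2 := by ring
    rw [this, hs]
    have hv : v ^ 2 = r ^ 2 - u ^ 2 := by linarith
    rw [hv]
    ring
  rw [e5] at e4
  generalize 2 * u * r = w at hw hw1 e4
  have g1 : 0 ≤ (r ^ 3 + r - 3 - w) * (w - 2 * r - 2) := by
    refine mul_nonneg (by linarith) ?_
    have : 0 ≤ (r - 1.98) * (1.732 * r + 1.42936) := mul_nonneg (by linarith) (by linarith)
    nlinarith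
  have g2 : r ^ 6 - 3 * r ^ 4 - 8 * r ^ 3 + 3 * r ^ 2 + 6 * r + 19 < 0 := by
    have q2 : 1.98 ^ 2 < r ^ 2 := pow_lt_pow_left₀ hr1 (by norm_num) (by norm_num)
    have q3 : 1.98 ^ 3 < r ^ 3 := pow_lt_pow_left₀ hr1 (by norm_num) (by norm_num)
    have q4 : 1.98 ^ 4 < r ^ 4 := pow_lt_pow_left₀ hr1 (by norm_num) (by norm_num)
    have q5 : 1.98 ^ 5 < r ^ 5 := pow_lt_pow_left₀ hr1 (by norm_num) (by norm_num)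
    have p2 : r ^ 2 ≤ 2.1 ^ 2 := pow_le_pow_left₀ hr0.le hr2 2
    have hQ : 0 ≤ (2.1 - r) * (r ^ 5 + 2.1 * r ^ 4 + 1.41 * r ^ 3 - 5.039 * r ^ 2 - 7.5819 * r - 9.92199) := by
      refine mul_nonneg (by linarith) ?_
      norm_num at q2 q3 q4 q5 p2 hr2
      linarith
    nlinarith
  nlinarith

end Pool.Agent.HSG
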