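import Mathlib

/-!
# HSG/Eis: the Eisenstein integers in `ℂ`

PROOF PLAN.  `w.re = -1/2`, `w.im ^ 2 = 3/4`, so `normSq (x + y * w) = x ^ 2 - x * y + y ^ 2` for real `x, y`.
`oz_three`: `x ^ 2 - x * y + y ^ 2 = 2` is impossible modulo four (cases on parities).  `oz_unit`: `x ^ 2 - x * y + y ^ 2 = 1` has six solutions.  `oz_sixth`: `u ^ 6 - 1` factors.
`oz_norm` by real and imaginary parts.
-/

set_option autoImplicit false

noncomputable section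

namespace Pool.Agent.HSG

open Complex

/-- the Eisenstein integers (for `w ^ 2 + w + 1 = 0`) -/
def Oz (w : ℂ) : Set ℂ := {β | ∃ x y : ℤ, β = x + y * w}

variable {w : ℂ}

theorem w_re (hw : w ^ 2 + w + 1 = 0) : w.re = -(1 / 2) ∧ w.im ^ 2 = 3 / 4 := by
  have h1 : w.re * w.re - w.im * w.im + w.re + 1 = 0 := by
    have := congrArg Complex.re hw
    simpa [pow_two] using this
  have h2 : w.re * w.im + w.im * w.re + w.im = 0 := by
    have := congrArg Complex.im hw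
    simpa [pow_two] using this
  have h3 : w.im * (2 * w.re + 1) = 0 := by linear_combination h2
  rcases mul_eq_zero.1 h3 with h | h
  · rw [h] at h1
    nlinarith [sq_nonneg (2 * w.re + 1)]
  · have h4 : w.re = -(1 / 2) := by linarith
    refine ⟨h4, ?_⟩
    rw [h4] at h1
    linear_combination -h1

theorem w_pow (hw : w ^ 2 + w + 1 = 0) : w ^ 3 = 1 := by
  linear_combination (w - 1) * hw

theorem oz_int (n : ℤ) : (n : ℂ) ∈ Oz w := ⟨n, 0, by simp⟩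

theorem oz_zero : (0 : ℂ) ∈ Oz w := ⟨0, 0, by simp⟩

theorem oz_one : (1 : ℂ) ∈ Oz w := ⟨1, 0, by simp⟩

theorem oz_w : w ∈ Oz w := ⟨0, 1, by simp⟩

theorem oz_add {α β : ℂ} (hα : α ∈ Oz w) (hβ : β ∈ Oz w) : α + β ∈ Oz w := by
  obtain ⟨x, y, rfl⟩ := hα
  obtain ⟨z, t, rfl⟩ := hβ
  exact ⟨x + z, y + t, by push_cast; ring⟩

theorem oz_neg {α : ℂ} (hα : α ∈ Oz w) : -α ∈ Oz w := by
  obtain ⟨x, y, rfl⟩ := hα
  exact ⟨-x, -y, by push_cast; ring⟩

theorem oz_sub {α β : ℂ} (hα : α ∈ Oz w) (hβ : β ∈ Oz w) : α - β ∈ Oz w := by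
  obtain ⟨x, y, rfl⟩ := hα
  obtain ⟨z, t, rfl⟩ := hβ
  exact ⟨x - z, y - t, by push_cast; ring⟩

theorem oz_mul (hw : w ^ 2 + w + 1 = 0) {α β : ℂ} (hα : α ∈ Oz w) (hβ : β ∈ Oz w) : α * β ∈ Oz w := by
  obtain ⟨x, y, rfl⟩ := hα
  obtain ⟨z, t, rfl⟩ := hβ
  refine ⟨x * z - y * t, x * t + y * z - y * t, ?_⟩
  push_cast
  linear_combination (y * t : ℂ) * hw

theorem oz_pow (hw : w ^ 2 + w + 1 = 0) {α : ℂ} (hα : α ∈ Oz w) (n : ℕ) : α ^ n ∈ Oz w := by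
  induction n with
  | zero => simpa using oz_one
  | succ n ih => rw [pow_succ]; exact oz_mul hw ih hα

theorem oz_norm (hw : w ^ 2 + w + 1 = 0) (x y : ℤ) : normSq ((x : ℂ) + y * w) = ((x ^ 2 - x * y + y ^ 2 : ℤ) : ℝ) := by
  obtain ⟨h1, h2⟩ := w_re hw
  rw [normSq_apply]
  simp only [add_re, add_im, mul_re, mul_im, intCast_re, intCast_im, h1]
  push_cast
  linear_combination (y : ℝ) ^ 2 * h2

theorem oz_one_le (hw : w ^ 2 + w + 1 = 0) {β : ℂ} (hβ : β ∈ Oz w) (h0 : β ≠ 0) : 1 ≤ normSq β := by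
  obtain ⟨x, y, rfl⟩ := hβ
  have h1 : 0 < normSq ((x : ℂ) + y * w) := normSq_pos.2 h0
  rw [oz_norm hw] at h1 ⊢
  exact_mod_cast Int.add_one_le_iff.2 (by exact_mod_cast h1 : (0 : ℤ) < x ^ 2 - x * y + y ^ 2)

theorem form_ne_two (x y : ℤ) : x ^ 2 - x * y + y ^ 2 ≠ 2 := by
  intro h
  have h1 : (x ^ 2 - x * y + y ^ 2) % 4 = 2 := by rw [h]; rfl
  have hx : x % 4 = 0 ∨ x % 4 = 1 ∨ x % 4 = 2 ∨ x % 4 = 3 := by omega
  have hy : y % 4 = 0 ∨ y % 4 = 1 ∨ y % 4 = 2 ∨ y % 4 = 3 := by omega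
  rcases hx with hx | hx | hx | hx <;> rcases hy with hy | hy | hy | hy <;>
    simp [pow_two, Int.add_emod, Int.sub_emod, Int.mul_emod, hx, hy] at h1

theorem oz_three (hw : w ^ 2 + w + 1 = 0) {β : ℂ} (hβ : β ∈ Oz w) (h : 1 < normSq β) : 3 ≤ normSq β := by
  obtain ⟨x, y, rfl⟩ := hβ
  rw [oz_norm hw] at h ⊢
  have h1 : (1 : ℤ) < x ^ 2 - x * y + y ^ 2 := by exact_mod_cast h
  have h2 := form_ne_two x y
  have h3 : (3 : ℤ) ≤ x ^ 2 - x * y + y ^ 2 := by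
    generalize x ^ 2 - x * y + y ^ 2 = n at h1 h2
    omega
  exact_mod_cast h3

theorem oz_four (hw : w ^ 2 + w + 1 = 0) {β : ℂ} (hβ : β ∈ Oz w) (h : 3 < normSq β) : 4 ≤ normSq β := by
  obtain ⟨x, y, rfl⟩ := hβ
  rw [oz_norm hw] at h ⊢
  have h1 : (3 : ℤ) < x ^ 2 - x * y + y ^ 2 := by exact_mod_cast h
  have h3 : (4 : ℤ) ≤ x ^ 2 - x * y + y ^ 2 := by
    generalize x ^ 2 - x * y + y ^ 2 = n at h1
    omega
  exact_mod_cast h3

/-- the elements of norm one are the sixth roots of one -/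
theorem oz_unit (hw : w ^ 2 + w + 1 = 0) {β : ℂ} (hβ : β ∈ Oz w) (h : normSq β = 1) : β ^ 6 = 1 := by
  obtain ⟨x, y, rfl⟩ := hβ
  rw [oz_norm hw] at h
  have h1 : x ^ 2 - x * y + y ^ 2 = 1 := by exact_mod_cast h
  have hw3 := w_pow hw
  have hw6 : w ^ 6 = 1 := by linear_combination (w ^ 3 + 1) * hw3
  have hy : y ^ 2 ≤ 1 := by nlinarith [sq_nonneg (2 * x - y)]
  have hx : x ^ 2 ≤ 1 := by nlinarith [sq_nonneg (2 * y - x)]
  have hy1 : y ≤ 1 := by nlinarith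
  have hy2 : -1 ≤ y := by nlinarith
  have hx1 : x ≤ 1 := by nlinarith
  have hx2 : -1 ≤ x := by nlinarith
  have h1w : 1 + w = -w ^ 2 := by linear_combination hw
  have hx3 : x = -1 ∨ x = 0 ∨ x = 1 := by omega
  have hy3 : y = -1 ∨ y = 0 ∨ y = 1 := by omega
  rcases hx3 with rfl | rfl | rfl <;> rcases hy3 with rfl | rfl | rfl
  · have e : (((-1 : ℤ) : ℂ) + ((-1 : ℤ) : ℂ) * w) = w ^ 2 := by push_cast; linear_combination -hw
    rw [e]
    linear_combination (w ^ 6 + 1) * hw6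
  · norm_num
  · exact absurd h1 (by norm_num)
  · have e : (((0 : ℤ) : ℂ) + ((-1 : ℤ) : ℂ) * w) = -w := by push_cast; ring
    rw [e]
    linear_combination hw6
  · exact absurd h1 (by norm_num)
  · have e : (((0 : ℤ) : ℂ) + ((1 : ℤ) : ℂ) * w) = w := by push_cast; ring
    rw [e]
    exact hw6
  · exact absurd h1 (by norm_num)
  · norm_num
  · have e : (((1 : ℤ) : ℂ) + ((1 : ℤ) : ℂ) * w) = -w ^ 2 := by push_cast; linear_combination hw
    rw [e]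
    linear_combination (w ^ 6 + 1) * hw6

theorem oz_sixth (hw : w ^ 2 + w + 1 = 0) {u : ℂ} (hu : u ^ 6 = 1) :
    u = 1 ∨ u = -1 ∨ u = w ∨ u = -w ∨ u = w ^ 2 ∨ u = -w ^ 2 := by
  have h : (u - 1) * ((u + 1) * ((u - w) * ((u + w) * ((u - w ^ 2) * (u + w ^ 2))))) = 0 := by
    have e : (u - 1) * ((u + 1) * ((u - w) * ((u + w) * ((u - w ^ 2) * (u + w ^ 2)))))
        = (u ^ 2 - 1) * (u ^ 2 - w ^ 2) * (u ^ 2 - w ^ 4) := by ring
    rw [e]
    have hw3 := w_pow hw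
    have h4 : w ^ 4 = w := by linear_combination w * hw3
    have h2 : w ^ 2 = -1 - w := by linear_combination hw
    rw [h4, h2]
    have : (u ^ 2 - 1) * (u ^ 2 - (-1 - w)) * (u ^ 2 - w) = u ^ 6 - 1 - (u ^ 2 - 1) * (w ^ 2 + w + 1) := by ring
    rw [this, hw, hu]
    ring
  rcases mul_eq_zero.1 h with h | h
  · exact Or.inl (sub_eq_zero.1 h)
  rcases mul_eq_zero.1 h with h | h
  · exact Or.inr (Or.inl (eq_neg_of_add_eq_zero_left h))
  rcases mul_eq_zero.1 h with h | h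
  · exact Or.inr (Or.inr (Or.inl (sub_eq_zero.1 h)))
  rcases mul_eq_zero.1 h with h | h
  · exact Or.inr (Or.inr (Or.inr (Or.inl (eq_neg_of_add_eq_zero_left h))))
  rcases mul_eq_zero.1 h with h | h
  · exact Or.inr (Or.inr (Or.inr (Or.inr (Or.inl (sub_eq_zero.1 h)))))
  · exact Or.inr (Or.inr (Or.inr (Or.inr (Or.inr (eq_neg_of_add_eq_zero_left h)))))

theorem oz_root (hw : w ^ 2 + w + 1 = 0) {u : ℂ} (hu : u ^ 6 = 1) : u ∈ Oz w := by
  rcases oz_sixth hw hu with h | h | h | h | h | h <;> rw [h]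
  · exact oz_one
  · exact oz_neg oz_one
  · exact oz_w
  · exact oz_neg oz_w
  · exact oz_pow hw oz_w 2
  · exact oz_neg (oz_pow hw oz_w 2)

theorem root_norm {u : ℂ} (hu : u ^ 6 = 1) : normSq u = 1 := by
  have h : (normSq u) ^ 6 = 1 := by rw [← map_pow, hu, map_one]
  exact (pow_eq_one_iff_of_nonneg (normSq_nonneg u) (by norm_num)).1 h

end Pool.Agent.HSG
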