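import Pool.Agent.HSG.Nf

/-!
# HSG/Dsc: discreteness

PROOF PLAN.  `bdd_fin`: as in `disc_of` (HSK/Conj) take an open `U ⊆ PSL(2, ℂ)` with `x ∈ U ∧ x ∈ Δ ↔ x = 1`; `A ↦ p * cls A * p⁻¹` is continuous on `SL(2, ℂ)` (`continuous_quotient_mk'`), so there is `ε > 0` (`ε < 1`) such that `cls A ∈ cj p Δ` and
`‖A.1 i j - (1 : Matrix) i j‖ < ε` for all `i j` imply `cls A = 1`, so `A = 1` (`A = -1` is far).  If the set were infinite, the entries lie in a compact set (`ℂ ^ 4`, closed balls), so there are `A ≠ B` in it with all entries of `A - B` less than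
`ε / (4 M + 1)`; the entries of `A⁻¹ * B - 1 = A⁻¹ * (B - A)` are less than `ε`, so `A = B`.  (E.g. `Set.Infinite` + `IsCompact` gives an accumulation point, or `Metric.totallyBounded` / `exists_ne_map_eq_of_infinite` for a finite cover by small balls.)
`bdd_shim` (Shimizu): if `0 < ‖c‖ < 1`, let `A₀ = A`, `A_{k+1} = A_k * T 1 * A_k⁻¹`, entries `(1 - a c, a ^ 2; -c ^ 2, 1 + a c)`.  `‖c_k‖` is strictly decreasing, `‖a_{k+1}‖ ≤ 1 + ‖a_k‖ ‖c_k‖ ≤ 1 + θ ‖a_k‖`, `θ = ‖c_0‖ < 1`, so all entries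
are bounded by a constant (induction with `M = max ‖a_0‖ (1 / (1 - θ))`), and the `A_k` are pairwise different: contradiction to finiteness.
`val_fin`: for `A` with `c ≠ 0`, `‖c‖ ^ 2 ≤ R`, multiply on both sides by `T β`, `β ∈ Oz w`: `‖a / c‖, ‖d / c‖ ≤ 1` (`oz_near`), the lower left entry does not change, `‖a‖, ‖d‖ ≤ ‖c‖`, `‖b‖ = ‖a d - 1‖ / ‖c‖ ≤ (R + 1)` as `‖c‖ ≥ 1` (`bdd_shim`):
the values are in the image of a finite set, together with `0`.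
-/

set_option autoImplicit false

noncomputable section

namespace Pool.Agent.HSG

open Pool.Agent.HSK Matrix
open scoped MatrixGroups commutatorElement

variable {Δ S : Subgroup PSL(2, ℂ)} {w : ℂ}

/-- the entries -/
private def Dsc_f (A : SL(2, ℂ)) : Fin 2 → Fin 2 → ℂ := fun i j => A.1 i j

private theorem Dsc_near (hd : DiscreteTopology Δ) (p : PSL(2, ℂ)) :
    ∃ ε : ℝ, 0 < ε ∧ ∀ A : SL(2, ℂ), cls A ∈ cj p Δ → (∀ i j, ‖A.1 i j - (1 : Matrix (Fin 2) (Fin 2) ℂ) i j‖ < ε) → A = 1 := by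
  obtain ⟨U, hU, hU2⟩ : ∃ U : Set PSL(2, ℂ), IsOpen U ∧ (∀ x, x ∈ U ∧ x ∈ Δ ↔ x = 1) := by
    have h1 : IsOpen ({1} : Set Δ) := isOpen_discrete _
    obtain ⟨U, hU, hU2⟩ := isOpen_induced_iff.1 h1
    refine ⟨U, hU, fun x => ⟨fun hx => ?_, fun hx => ?_⟩⟩
    · have h2 : (⟨x, hx.2⟩ : Δ) ∈ ({1} : Set Δ) := by
        rw [← hU2]
        exact hx.1
      exact congrArg Subtype.val h2
    · subst hx
      refine ⟨?_, Δ.one_mem⟩
      have h2 : (1 : Δ) ∈ ((↑) : Δ → PSL(2, ℂ)) ⁻¹' U := by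
        rw [hU2]
        exact Set.mem_singleton _
      exact h2
  have hcls : Continuous (fun A : SL(2, ℂ) => cls A) := continuous_quotient_mk'
  have hcont : Continuous (fun A : SL(2, ℂ) => p * cls A * p⁻¹) := (continuous_const.mul hcls).mul continuous_const
  have hopen := hU.preimage hcont
  obtain ⟨W, hW, hW2⟩ := isOpen_induced_iff.1 hopen
  have h0 : (1 : SL(2, ℂ)) ∈ (fun A : SL(2, ℂ) => p * cls A * p⁻¹) ⁻¹' U := by
    show p * cls 1 * p⁻¹ ∈ U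
    rw [cls_one, mul_one, mul_inv_cancel]
    exact ((hU2 1).2 rfl).1
  rw [← hW2] at h0
  have h0' : (1 : Matrix (Fin 2) (Fin 2) ℂ) ∈ W := h0
  obtain ⟨W', hWW⟩ : ∃ W' : Set (Fin 2 → Fin 2 → ℂ), W' = W := ⟨W, rfl⟩
  have hW3 : IsOpen W' := by
    rw [hWW]
    exact hW
  have h0'' : (fun i j => (1 : Matrix (Fin 2) (Fin 2) ℂ) i j) ∈ W' := by
    rw [hWW]
    exact h0'
  obtain ⟨ε, hε, hball⟩ := Metric.isOpen_iff.1 hW3 _ h0''
  refine ⟨min ε 1, lt_min hε one_pos, fun A hA hn => ?_⟩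
  have h1 : Dsc_f A ∈ Metric.ball (fun i j => (1 : Matrix (Fin 2) (Fin 2) ℂ) i j) ε := by
    rw [Metric.mem_ball, dist_pi_lt_iff hε]
    intro i
    rw [dist_pi_lt_iff hε]
    intro j
    rw [dist_eq_norm]
    exact lt_of_lt_of_le (hn i j) (min_le_left _ _)
  have h2 : A ∈ (fun A : SL(2, ℂ) => p * cls A * p⁻¹) ⁻¹' U := by
    rw [← hW2]
    have h9 := hball h1
    rw [hWW] at h9
    exact h9
  have h3 : p * cls A * p⁻¹ = 1 := (hU2 _).1 ⟨h2, hA⟩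
  have h4 : cls A = cls 1 := by
    have h5 : cls A = p⁻¹ * (p * cls A * p⁻¹) * p := by group
    rw [h5, h3, cls_one]
    group
  rcases cls_eq.1 h4 with h5 | h5
  · exact Subtype.ext h5
  · exfalso
    have h6 := hn 0 0
    rw [h5] at h6
    have h7 : (-(1 : SL(2, ℂ)).1) 0 0 - (1 : Matrix (Fin 2) (Fin 2) ℂ) 0 0 = -2 := by
      show (-(1 : Matrix (Fin 2) (Fin 2) ℂ)) 0 0 - (1 : Matrix (Fin 2) (Fin 2) ℂ) 0 0 = -2
      rw [Matrix.neg_apply, Matrix.one_apply_eq]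
      norm_num
    rw [h7, norm_neg] at h6
    have h8 := lt_of_lt_of_le h6 (min_le_right _ _)
    norm_num at h8

private theorem Dsc_ent {a b u v : ℂ} {M δ : ℝ} (ha : ‖a‖ ≤ M) (hb : ‖b‖ ≤ M) (hu : ‖u‖ ≤ δ) (hv : ‖v‖ ≤ δ) :
    ‖a * u - b * v‖ ≤ 2 * M * δ := by
  have hM : 0 ≤ M := (norm_nonneg a).trans ha
  have h1 : ‖a * u‖ ≤ M * δ := by
    rw [norm_mul]
    exact mul_le_mul ha hu (norm_nonneg _) hM
  have h2 : ‖b * v‖ ≤ M * δ := by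
    rw [norm_mul]
    exact mul_le_mul hb hv (norm_nonneg _) hM
  have h3 := norm_sub_le (a * u) (b * v)
  linarith

theorem bdd_fin (hd : DiscreteTopology Δ) (p : PSL(2, ℂ)) (M : ℝ) :
    {A : SL(2, ℂ) | cls A ∈ cj p Δ ∧ ∀ i j, ‖A.1 i j‖ ≤ M}.Finite := by
  obtain ⟨ε, hε, hE⟩ := Dsc_near hd p
  by_contra hinf
  have hinf' : {A : SL(2, ℂ) | cls A ∈ cj p Δ ∧ ∀ i j, ‖A.1 i j‖ ≤ M}.Infinite := hinf
  obtain ⟨A0, hA0⟩ := hinf'.nonempty
  have hM : 0 ≤ M := (norm_nonneg _).trans (hA0.2 0 0)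
  set δ : ℝ := ε / (4 * M + 1) / 2 with hδdef
  have hM1 : 0 < 4 * M + 1 := by linarith
  have hδ : 0 < δ := by
    rw [hδdef]
    positivity
  have hcomp : IsCompact (Set.pi Set.univ fun _ : Fin 2 => Set.pi Set.univ fun _ : Fin 2 => Metric.closedBall (0 : ℂ) M) :=
    isCompact_univ_pi fun _ => isCompact_univ_pi fun _ => isCompact_closedBall _ _
  obtain ⟨t, ht, hcov⟩ := Metric.totallyBounded_iff.1 hcomp.totallyBounded δ hδ
  have hsel : ∀ A : SL(2, ℂ), ∃ y : Fin 2 → Fin 2 → ℂ, (A ∈ {A : SL(2, ℂ) | cls A ∈ cj p Δ ∧ ∀ i j, ‖A.1 i j‖ ≤ M} →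
      y ∈ t ∧ dist (Dsc_f A) y < δ) := by
    intro A
    by_cases hA : A ∈ {A : SL(2, ℂ) | cls A ∈ cj p Δ ∧ ∀ i j, ‖A.1 i j‖ ≤ M}
    · have h1 : Dsc_f A ∈ Set.pi Set.univ fun _ : Fin 2 => Set.pi Set.univ fun _ : Fin 2 =>
          Metric.closedBall (0 : ℂ) M := by
        intro i _ j _
        rw [mem_closedBall_zero_iff]
        exact hA.2 i j
      have h2 := hcov h1
      simp only [Set.mem_iUnion] at h2
      obtain ⟨y, hy, h3⟩ := h2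
      exact ⟨y, fun _ => ⟨hy, h3⟩⟩
    · exact ⟨0, fun h => absurd h hA⟩
  choose g hg using hsel
  obtain ⟨A, hA, B, hB, hne, hgg⟩ := hinf'.exists_ne_map_eq_of_mapsTo (f := g) (fun A hA => (hg A hA).1) ht
  have hdist : dist (Dsc_f A) (Dsc_f B) < 2 * δ := by
    have h1 := (hg A hA).2
    have h2 := (hg B hB).2
    rw [← hgg] at h2
    have h3 := dist_triangle_right (Dsc_f A) (Dsc_f B) (g A)
    linarith
  have hent : ∀ i j, ‖B.1 i j - A.1 i j‖ ≤ 2 * δ := by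
    intro i j
    rw [← dist_eq_norm, dist_comm]
    exact ((dist_le_pi_dist (Dsc_f A i) (Dsc_f B i) j).trans (dist_le_pi_dist (Dsc_f A) (Dsc_f B) i)).trans hdist.le
  have hsmall : 2 * M * (2 * δ) < ε := by
    have h1 : (4 * M + 1) * (2 * δ) = ε := by
      rw [hδdef]
      field_simp
    nlinarith
  have hmem : cls (A⁻¹ * B) ∈ cj p Δ := by
    rw [cls_mul, cls_inv]
    exact (cj p Δ).mul_mem ((cj p Δ).inv_mem hA.1) hB.1
  have hone : A⁻¹ * B = 1 := by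
    refine hE _ hmem ?_
    have hdet := det_eq A
    have hm : (A⁻¹ * B).1 = (A⁻¹).1 * B.1 := rfl
    rw [hm, inv_coe]
    intro i j
    refine lt_of_le_of_lt ?_ hsmall
    fin_cases i <;> fin_cases j
    · have e : (!![A.1 1 1, -A.1 0 1; -A.1 1 0, A.1 0 0] * B.1) 0 0 - (1 : Matrix (Fin 2) (Fin 2) ℂ) 0 0 =
          A.1 1 1 * (B.1 0 0 - A.1 0 0) - A.1 0 1 * (B.1 1 0 - A.1 1 0) := by
        rw [Matrix.mul_apply, Fin.sum_univ_two, Matrix.one_apply_eq]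
        simp only [Matrix.of_apply, Matrix.cons_val_zero, Matrix.cons_val_one, Matrix.cons_val', Matrix.cons_val_fin_one]
        linear_combination hdet
      show ‖(!![A.1 1 1, -A.1 0 1; -A.1 1 0, A.1 0 0] * B.1) 0 0 - (1 : Matrix (Fin 2) (Fin 2) ℂ) 0 0‖ ≤ _
      rw [e]
      exact Dsc_ent (hA.2 1 1) (hA.2 0 1) (hent 0 0) (hent 1 0)
    · have e : (!![A.1 1 1, -A.1 0 1; -A.1 1 0, A.1 0 0] * B.1) 0 1 - (1 : Matrix (Fin 2) (Fin 2) ℂ) 0 1 =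
          A.1 1 1 * (B.1 0 1 - A.1 0 1) - A.1 0 1 * (B.1 1 1 - A.1 1 1) := by
        rw [Matrix.mul_apply, Fin.sum_univ_two, Matrix.one_apply_ne (by decide)]
        simp only [Matrix.of_apply, Matrix.cons_val_zero, Matrix.cons_val_one, Matrix.cons_val', Matrix.cons_val_fin_one]
        ring
      show ‖(!![A.1 1 1, -A.1 0 1; -A.1 1 0, A.1 0 0] * B.1) 0 1 - (1 : Matrix (Fin 2) (Fin 2) ℂ) 0 1‖ ≤ _
      rw [e]
      exact Dsc_ent (hA.2 1 1) (hA.2 0 1) (hent 0 1) (hent 1 1)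
    · have e : (!![A.1 1 1, -A.1 0 1; -A.1 1 0, A.1 0 0] * B.1) 1 0 - (1 : Matrix (Fin 2) (Fin 2) ℂ) 1 0 =
          A.1 0 0 * (B.1 1 0 - A.1 1 0) - A.1 1 0 * (B.1 0 0 - A.1 0 0) := by
        rw [Matrix.mul_apply, Fin.sum_univ_two, Matrix.one_apply_ne (by decide)]
        simp only [Matrix.of_apply, Matrix.cons_val_zero, Matrix.cons_val_one, Matrix.cons_val', Matrix.cons_val_fin_one]
        ring
      show ‖(!![A.1 1 1, -A.1 0 1; -A.1 1 0, A.1 0 0] * B.1) 1 0 - (1 : Matrix (Fin 2) (Fin 2) ℂ) 1 0‖ ≤ _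
      rw [e]
      exact Dsc_ent (hA.2 0 0) (hA.2 1 0) (hent 1 0) (hent 0 0)
    · have e : (!![A.1 1 1, -A.1 0 1; -A.1 1 0, A.1 0 0] * B.1) 1 1 - (1 : Matrix (Fin 2) (Fin 2) ℂ) 1 1 =
          A.1 0 0 * (B.1 1 1 - A.1 1 1) - A.1 1 0 * (B.1 0 1 - A.1 0 1) := by
        rw [Matrix.mul_apply, Fin.sum_univ_two, Matrix.one_apply_eq]
        simp only [Matrix.of_apply, Matrix.cons_val_zero, Matrix.cons_val_one, Matrix.cons_val', Matrix.cons_val_fin_one]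
        linear_combination hdet
      show ‖(!![A.1 1 1, -A.1 0 1; -A.1 1 0, A.1 0 0] * B.1) 1 1 - (1 : Matrix (Fin 2) (Fin 2) ℂ) 1 1‖ ≤ _
      rw [e]
      exact Dsc_ent (hA.2 0 0) (hA.2 1 0) (hent 1 1) (hent 0 1)
  apply hne
  have h1 : A * (A⁻¹ * B) = A * 1 := by rw [hone]
  rw [mul_inv_cancel_left, mul_one] at h1
  exact h1.symm

/-- the sequence of Shimizu -/
private def Dsc_sq (A : SL(2, ℂ)) : ℕ → SL(2, ℂ)
  | 0 => A
  | k + 1 => Dsc_sq A k * T 1 * (Dsc_sq A k)⁻¹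

private theorem Dsc_step (A : SL(2, ℂ)) : (A * T 1 * A⁻¹).1 =
    !![1 - A.1 0 0 * A.1 1 0, A.1 0 0 ^ 2; -A.1 1 0 ^ 2, 1 + A.1 0 0 * A.1 1 0] := by
  have hdet := det_eq A
  have hm : (A * T 1 * A⁻¹).1 = (A * T 1).1 * (A⁻¹).1 := rfl
  rw [hm, mul_T_coe, inv_coe, Matrix.mul_fin_two]
  ext i j
  fin_cases i <;> fin_cases j
  · simp only [Fin.zero_eta, Matrix.of_apply, Matrix.cons_val_zero, Matrix.cons_val_one, Matrix.cons_val', Matrix.cons_val_fin_one]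
    linear_combination hdet
  · simp only [Fin.zero_eta, Fin.mk_one, Matrix.of_apply, Matrix.cons_val_zero, Matrix.cons_val_one, Matrix.cons_val',
      Matrix.cons_val_fin_one]
    ring
  · simp only [Fin.zero_eta, Fin.mk_one, Matrix.of_apply, Matrix.cons_val_zero, Matrix.cons_val_one, Matrix.cons_val',
      Matrix.cons_val_fin_one]
    ring
  · simp only [Fin.mk_one, Matrix.of_apply, Matrix.cons_val_zero, Matrix.cons_val_one, Matrix.cons_val', Matrix.cons_val_fin_one]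
    linear_combination hdet

theorem bdd_shim (hS : ∀ M : ℝ, {A : SL(2, ℂ) | cls A ∈ S ∧ ∀ i j, ‖A.1 i j‖ ≤ M}.Finite) (h1 : t 1 ∈ S) {A : SL(2, ℂ)} (hA : cls A ∈ S)
    (h0 : A.1 1 0 ≠ 0) : 1 ≤ Complex.normSq (A.1 1 0) := by
  by_contra hlt
  push Not at hlt
  have hθ1 : ‖A.1 1 0‖ < 1 := by
    rw [Complex.normSq_eq_norm_sq] at hlt
    have := norm_nonneg (A.1 1 0)
    nlinarith
  set θ : ℝ := ‖A.1 1 0‖ with hθ
  have hθ0 : 0 < θ := norm_pos_iff.2 h0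
  set K : ℝ := max ‖A.1 0 0‖ (1 / (1 - θ)) with hK
  have hK1 : 1 ≤ K * (1 - θ) := by
    have h2 : 1 / (1 - θ) ≤ K := le_max_right _ _
    rwa [div_le_iff₀ (by linarith)] at h2
  have hK0 : 0 ≤ K := (norm_nonneg _).trans (le_max_left _ _)
  have hmem : ∀ k, cls (Dsc_sq A k) ∈ S := by
    intro k
    induction k with
    | zero => exact hA
    | succ k ih =>
      show cls (Dsc_sq A k * T 1 * (Dsc_sq A k)⁻¹) ∈ S
      rw [cls_mul, cls_mul, cls_inv]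
      exact S.mul_mem (S.mul_mem ih h1) (S.inv_mem ih)
  have hc : ∀ k, (Dsc_sq A (k + 1)).1 1 0 = -(Dsc_sq A k).1 1 0 ^ 2 := by
    intro k
    show (Dsc_sq A k * T 1 * (Dsc_sq A k)⁻¹).1 1 0 = _
    rw [Dsc_step]
    simp
  have ha : ∀ k, (Dsc_sq A (k + 1)).1 0 0 = 1 - (Dsc_sq A k).1 0 0 * (Dsc_sq A k).1 1 0 := by
    intro k
    show (Dsc_sq A k * T 1 * (Dsc_sq A k)⁻¹).1 0 0 = _
    rw [Dsc_step]
    simp
  have hb : ∀ k, (Dsc_sq A (k + 1)).1 0 1 = (Dsc_sq A k).1 0 0 ^ 2 := by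
    intro k
    show (Dsc_sq A k * T 1 * (Dsc_sq A k)⁻¹).1 0 1 = _
    rw [Dsc_step]
    simp
  have hd : ∀ k, (Dsc_sq A (k + 1)).1 1 1 = 1 + (Dsc_sq A k).1 0 0 * (Dsc_sq A k).1 1 0 := by
    intro k
    show (Dsc_sq A k * T 1 * (Dsc_sq A k)⁻¹).1 1 1 = _
    rw [Dsc_step]
    simp
  have hinv : ∀ k, 0 < ‖(Dsc_sq A k).1 1 0‖ ∧ ‖(Dsc_sq A k).1 1 0‖ ≤ θ ∧ ‖(Dsc_sq A k).1 0 0‖ ≤ K := by
    intro k
    induction k with
    | zero => exact ⟨hθ0, le_rfl, le_max_left _ _⟩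
    | succ k ih =>
      obtain ⟨i1, i2, i3⟩ := ih
      have e1 : ‖(Dsc_sq A (k + 1)).1 1 0‖ = ‖(Dsc_sq A k).1 1 0‖ ^ 2 := by
        rw [hc, norm_neg, norm_pow]
      refine ⟨by rw [e1]; positivity, ?_, ?_⟩
      · rw [e1]
        nlinarith
      · rw [ha]
        have e2 := norm_sub_le (1 : ℂ) ((Dsc_sq A k).1 0 0 * (Dsc_sq A k).1 1 0)
        rw [norm_one, norm_mul] at e2
        have e3 : ‖(Dsc_sq A k).1 0 0‖ * ‖(Dsc_sq A k).1 1 0‖ ≤ K * θ :=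
          mul_le_mul i3 i2 (norm_nonneg _) hK0
        linarith
  have hanti : StrictAnti fun k => ‖(Dsc_sq A k).1 1 0‖ := by
    refine strictAnti_nat_of_succ_lt fun k => ?_
    obtain ⟨i1, i2, -⟩ := hinv k
    show ‖(Dsc_sq A (k + 1)).1 1 0‖ < ‖(Dsc_sq A k).1 1 0‖
    rw [hc, norm_neg, norm_pow]
    nlinarith
  have hinj : Function.Injective fun k => Dsc_sq A (k + 1) := by
    intro k l hkl
    have h2 : ‖(Dsc_sq A (k + 1)).1 1 0‖ = ‖(Dsc_sq A (l + 1)).1 1 0‖ := by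
      have h3 : Dsc_sq A (k + 1) = Dsc_sq A (l + 1) := hkl
      rw [h3]
    have h4 := hanti.injective h2
    omega
  refine Set.infinite_of_injective_forall_mem hinj (s := {A : SL(2, ℂ) | cls A ∈ S ∧ ∀ i j, ‖A.1 i j‖ ≤ K ^ 2 + K + 1}) ?_
    (hS (K ^ 2 + K + 1))
  intro k
  obtain ⟨i1, i2, i3⟩ := hinv k
  obtain ⟨j1, j2, j3⟩ := hinv (k + 1)
  refine ⟨hmem (k + 1), ?_⟩
  intro i j
  have hKK : 0 ≤ K ^ 2 := sq_nonneg K
  have e3 : ‖(Dsc_sq A k).1 0 0 * (Dsc_sq A k).1 1 0‖ ≤ K := by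
    rw [norm_mul]
    have : ‖(Dsc_sq A k).1 0 0‖ * ‖(Dsc_sq A k).1 1 0‖ ≤ K * 1 :=
      mul_le_mul i3 (i2.trans hθ1.le) (norm_nonneg _) hK0
    linarith
  fin_cases i <;> fin_cases j
  · show ‖(Dsc_sq A (k + 1)).1 0 0‖ ≤ _
    linarith
  · show ‖(Dsc_sq A (k + 1)).1 0 1‖ ≤ _
    rw [hb, norm_pow]
    have : ‖(Dsc_sq A k).1 0 0‖ ^ 2 ≤ K ^ 2 := pow_le_pow_left₀ (norm_nonneg _) i3 2
    linarith
  · show ‖(Dsc_sq A (k + 1)).1 1 0‖ ≤ _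
    linarith
  · show ‖(Dsc_sq A (k + 1)).1 1 1‖ ≤ _
    rw [hd]
    have e4 := norm_add_le (1 : ℂ) ((Dsc_sq A k).1 0 0 * (Dsc_sq A k).1 1 0)
    rw [norm_one] at e4
    linarith

private theorem Dsc_le {z : ℂ} (h : Complex.normSq z ≤ 1 / 3) : ‖z‖ ≤ 1 := by
  rw [Complex.normSq_eq_norm_sq] at h
  have := norm_nonneg z
  nlinarith

theorem val_fin (hS : ∀ M : ℝ, {A : SL(2, ℂ) | cls A ∈ S ∧ ∀ i j, ‖A.1 i j‖ ≤ M}.Finite) (hw : w ^ 2 + w + 1 = 0)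
    (hlat : ∀ β ∈ Oz w, t β ∈ S) (R : ℝ) :
    {x : ℝ | x ≤ R ∧ ∃ A : SL(2, ℂ), cls A ∈ S ∧ Complex.normSq (A.1 1 0) = x}.Finite := by
  have hfin := ((hS (R + 1)).image fun A : SL(2, ℂ) => Complex.normSq (A.1 1 0)).union (Set.finite_singleton (0 : ℝ))
  refine hfin.subset ?_
  rintro x ⟨hxR, A, hA, rfl⟩
  by_cases hc : A.1 1 0 = 0
  · right
    rw [hc]
    simp
  left
  have h1 := bdd_shim hS (hlat 1 oz_one) hA hc
  rw [Complex.normSq_eq_norm_sq] at h1 hxR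
  have hn1 : 1 ≤ ‖A.1 1 0‖ := by
    have := norm_nonneg (A.1 1 0)
    nlinarith
  have hnR : ‖A.1 1 0‖ ≤ R := by nlinarith
  obtain ⟨β, hβ, hβ2⟩ := oz_near hw (A.1 0 0 / A.1 1 0)
  obtain ⟨γ, hγ, hγ2⟩ := oz_near hw (A.1 1 1 / A.1 1 0)
  have e0 : (T (-β) * A * T (-γ)).1 = !![A.1 0 0 - β * A.1 1 0, (A.1 0 1 - β * A.1 1 1) - γ * (A.1 0 0 - β * A.1 1 0);
      A.1 1 0, A.1 1 1 - γ * A.1 1 0] := by
    rw [mul_T_coe, T_mul_coe]
    ext i j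
    fin_cases i <;> fin_cases j
    · simp
      ring
    · simp
      ring
    · simp
    · simp
      ring
  refine ⟨T (-β) * A * T (-γ), ⟨?_, ?_⟩, ?_⟩
  · rw [cls_mul, cls_mul]
    exact S.mul_mem (S.mul_mem (hlat _ (oz_neg hβ)) hA) (hlat _ (oz_neg hγ))
  · have ha : ‖A.1 0 0 - β * A.1 1 0‖ ≤ ‖A.1 1 0‖ := by
      have e1 : A.1 0 0 - β * A.1 1 0 = (A.1 0 0 / A.1 1 0 - β) * A.1 1 0 := by
        field_simp
      rw [e1, norm_mul]
      have := Dsc_le hβ2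
      nlinarith
    have hd : ‖A.1 1 1 - γ * A.1 1 0‖ ≤ ‖A.1 1 0‖ := by
      have e1 : A.1 1 1 - γ * A.1 1 0 = (A.1 1 1 / A.1 1 0 - γ) * A.1 1 0 := by
        field_simp
      rw [e1, norm_mul]
      have := Dsc_le hγ2
      nlinarith
    have hb : ‖(A.1 0 1 - β * A.1 1 1) - γ * (A.1 0 0 - β * A.1 1 0)‖ ≤ R + 1 := by
      have hdet := det_eq A
      have e1 : ((A.1 0 1 - β * A.1 1 1) - γ * (A.1 0 0 - β * A.1 1 0)) * A.1 1 0 =
          (A.1 0 0 - β * A.1 1 0) * (A.1 1 1 - γ * A.1 1 0) - 1 := by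
        linear_combination -hdet
      have e2 : ‖(A.1 0 1 - β * A.1 1 1) - γ * (A.1 0 0 - β * A.1 1 0)‖ * ‖A.1 1 0‖ ≤ ‖A.1 1 0‖ * ‖A.1 1 0‖ + 1 := by
        rw [← norm_mul, e1]
        refine (norm_sub_le _ _).trans ?_
        rw [norm_mul, norm_one]
        have := mul_le_mul ha hd (norm_nonneg _) (norm_nonneg _)
        linarith
      have e3 : ‖A.1 1 0‖ * ‖A.1 1 0‖ + 1 ≤ (R + 1) * ‖A.1 1 0‖ := by nlinarith
      exact le_of_mul_le_mul_right (e2.trans e3) (by linarith)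
    rw [e0]
    intro i j
    fin_cases i <;> fin_cases j
    · show ‖A.1 0 0 - β * A.1 1 0‖ ≤ R + 1
      linarith
    · exact hb
    · show ‖A.1 1 0‖ ≤ R + 1
      linarith
    · show ‖A.1 1 1 - γ * A.1 1 0‖ ≤ R + 1
      linarith
  · show Complex.normSq ((T (-β) * A * T (-γ)).1 1 0) = Complex.normSq (A.1 1 0)
    rw [e0]
    simp

end Pool.Agent.HSG
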