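import Pool.Agent.HSG.Dsc

/-!
# HSG/Nfo: the normal form of a knot group with hidden symmetries

PROOF PLAN.  `cuspOrder_unique`: if `δ ∈ Δ` has order `n` and fixes the cusp, `δ ^ n'` commutes with `μ` and has finite order, so it is trivial (an element commuting with `t 1` is `t β`, `comm_t1`; `t β ^ n = t (n β)`, `t_nat`, `t_inj`), so `n ∣ n'`.
`nf_of`: `h := nd_of ...` (HSK/Conj), `h.type` gives `z`, `n'` (`n' = n` by `cuspOrder_cj`, `ND.cuspOrder`, see `main3` in HSK/Conj3), so `z ^ 2 + z + 1 = 0` or `z ^ 2 - z + 1 = 0`; `w = z` or `w = z - 1` (`w ^ 2 + w + 1 = 0`, `Oz w` = the `x + y z`).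
`lat`: `ND.lattice_gen` with `gen_cj`; conversely `1`, `z` are translations (`ND.one_mem`, `ND.mult`), `Lt` is an additive group.  `up`: `A.1 0 0 ^ 2 ∈ Mu`, a power of `z`, `z ^ 6 = 1`.  `cusp`: `ND.up` (lift of `γ`; `cls_eq` for the sign).
`fin`: `val_fin` with `bdd_fin hd (cls P)`.  `ex`: `ND.exists_base`.  `inf`: `ND.inf`.  `one`, `gen`, `le`: fields of `ND`; `tf`: as in `main3` (`htfc`).
`per`: `t β ∈ cj Γ` implies `β = x + y w` (integers); the `y` form a subgroup of `ℤ`, `= Y ℤ`, take `s = x + Y w` with `t s ∈ Γ`; `β - k s` is then an integer (real), so `Lt Γ = {a + b s}`; `ND.deg` gives `relIndex = n * |Y|` (for `n = 6`, `z = w + 1`,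
`s = (x + Y (w + 1)) - Y` ..., the coefficient of `z` is the same), `relIndex` is invariant under conjugation as in `main3`, so `4 ≤ |Y|`.
-/

set_option autoImplicit false

noncomputable section

namespace Pool.Agent.HSG

open Pool.Agent.HSK Matrix
open scoped MatrixGroups commutatorElement

variable {Γ Δ : Subgroup PSL(2, ℂ)} {μ : PSL(2, ℂ)}

private theorem nfo_dvd (hp : ∃ P : SL(2, ℂ), cls P * t 1 * (cls P)⁻¹ = μ) {n n' : ℕ} (hn : 0 < n) (h : IsCuspOrder Δ μ n) (h' : IsCuspOrder Δ μ n') :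
    n ∣ n' := by
  obtain ⟨P, hP⟩ := hp
  obtain ⟨δ, hδ, hc, ho⟩ := h.1
  have hcm := h'.2 δ hδ hc
  obtain ⟨C, hC⟩ := cls_surj ((cls P)⁻¹ * δ ^ n' * cls P)
  have h1 : Commute (cls C) (t 1) := by
    rw [← comm_conj_iff (p := cls P), hP, hC]
    have e : cls P * ((cls P)⁻¹ * δ ^ n' * cls P) * (cls P)⁻¹ = δ ^ n' := by group
    rw [e]
    exact hcm
  obtain ⟨β, hβ⟩ := comm_t1 h1
  have h2 : δ ^ n' = cls P * t β * (cls P)⁻¹ := by
    rw [← hβ, hC]
    group
  have h3 : (δ ^ n') ^ n = 1 := by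
    rw [← pow_mul, mul_comm, pow_mul, ← ho, pow_orderOf_eq_one, one_pow]
  rw [h2, conj_pow, ← t_nat] at h3
  have h4 : t (n * β) = 1 := by
    have e : t (n * β) = (cls P)⁻¹ * (cls P * t (n * β) * (cls P)⁻¹) * cls P := by group
    rw [e, h3]
    group
  rw [← t_zero] at h4
  have h5 := t_inj h4
  have hn0 : (n : ℂ) ≠ 0 := Nat.cast_ne_zero.2 hn.ne'
  have h6 : β = 0 := by
    rcases mul_eq_zero.1 h5 with h7 | h7
    · exact absurd h7 hn0
    · exact h7
  rw [h6, t_zero, mul_one, mul_inv_cancel] at h2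
  rw [← ho]
  exact orderOf_dvd_of_pow_eq_one h2

theorem cuspOrder_unique (hp : ∃ P : SL(2, ℂ), cls P * t 1 * (cls P)⁻¹ = μ) {n n' : ℕ} (hn : 0 < n) (hn' : 0 < n') (h : IsCuspOrder Δ μ n) (h' : IsCuspOrder Δ μ n') :
    n = n' :=
  Nat.dvd_antisymm (nfo_dvd hp hn h h') (nfo_dvd hp hn' h' h)

theorem nf_of (hΓ : IsKnotGroup Γ μ) (h1 : Γ ≤ Δ) (h2 : Δ ≤ Subgroup.Commensurable.commensurator Γ)
    (hd : DiscreteTopology Δ) (hn : ¬ Δ ≤ Subgroup.normalizer (Γ : Set PSL(2, ℂ))) {P : SL(2, ℂ)} (hp : cls P * t 1 * (cls P)⁻¹ = μ)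
    (hMG : MeridianGenerates Δ μ) {n : ℕ} (hn0 : 0 < n) (hc : IsCuspOrder Δ μ n) (hn4 : n ≠ 4) (hi : 4 * n ≤ Γ.relIndex Δ) :
    ∃ w : ℂ, NF (cj (cls P) Γ) (cj (cls P) Δ) w := by
  have hsurj : ∀ (p : PSL(2, ℂ)) (S : Subgroup PSL(2, ℂ)), (cj p S).map (MulAut.conj p).toMonoidHom = S :=
    fun p S => Subgroup.map_comap_eq_self_of_surjective (MulAut.conj p).surjective S
  have htfc : ∀ g ∈ cj (cls P) Γ, ∀ n : ℕ, 0 < n → g ^ n = 1 → g = 1 := by
    intro g hg n hn0 hgn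
    have h3 : cls P * g * (cls P)⁻¹ = 1 := by
      refine hΓ.torsionFree _ hg n hn0 ?_
      rw [conj_pow, hgn]
      group
    have h4 : g = (cls P)⁻¹ * (cls P * g * (cls P)⁻¹) * cls P := by group
    rw [h4, h3]
    group
  have h := nd_of hΓ h1 h2 hd hn hp
  obtain ⟨z, n', hz, hzj, hz1, htype⟩ := h.type
  obtain ⟨hn346, hprim⟩ := type_prim htype
  have hzne1 : z ≠ 1 := by
    rintro rfl
    rcases htype with ⟨-, h3⟩ | ⟨-, h3⟩ | ⟨-, h3⟩ <;> norm_num at h3
  have hzne2 : z ≠ -1 := by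
    rintro rfl
    rcases htype with ⟨-, h3⟩ | ⟨-, h3⟩ | ⟨-, h3⟩ <;> norm_num at h3
  have hn0' : 0 < n' := by omega
  have hn1' : 1 < n' := by omega
  have hco := cuspOrder_cj hp (h.cuspOrder hn0' hz hzj hz1 hprim.pow_eq_one (fun h0 => hz1 1 one_pos hn1' (by rw [pow_one, h0])))
  have hnn : n' = n := cuspOrder_unique ⟨P, hp⟩ hn0' hn0 hco hc
  subst hnn
  obtain ⟨w, e, hw, hze⟩ : ∃ (w : ℂ) (e : ℤ), w ^ 2 + w + 1 = 0 ∧ z = w + e := by
    rcases htype with ⟨h3, -⟩ | ⟨-, h3⟩ | ⟨-, h3⟩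
    · exact absurd h3 hn4
    · exact ⟨z, 0, h3, by simp⟩
    · exact ⟨z - 1, 1, by linear_combination h3, by simp⟩
  have hz6 : z ^ 6 = 1 := by
    rcases htype with ⟨h3, -⟩ | ⟨-, h3⟩ | ⟨-, h3⟩
    · exact absurd h3 hn4
    · have h4 : z ^ 3 = 1 := by linear_combination (z - 1) * h3
      have h5 : z ^ 6 = (z ^ 3) ^ 2 := by ring
      rw [h5, h4, one_pow]
    · have h4 : z ^ 3 = -1 := by linear_combination (z + 1) * h3
      have h5 : z ^ 6 = (z ^ 3) ^ 2 := by ring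
      rw [h5, h4]
      norm_num
  have hwim : w.im ≠ 0 := by
    intro h0
    have h3 := (w_re hw).2
    rw [h0] at h3
    norm_num at h3
  have hcoord : ∀ a b a' b' : ℤ, (a : ℂ) + b * w = a' + b' * w → a = a' ∧ b = b' := by
    intro a b a' b' hab
    have h3 := congrArg Complex.im hab
    simp at h3
    have h4 : b = b' := by
      rcases h3 with h3 | h3
      · exact h3
      · exact absurd h3 hwim
    subst h4
    have h5 : (a : ℂ) = a' := by linear_combination hab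
    exact ⟨by exact_mod_cast h5, rfl⟩
  have hlz := h.lattice_gen (gen_cj hp hMG) hz hzne1 hzne2
  have hone : (1 : ℂ) ∈ Lt (cj (cls P) Δ) := h.one_mem
  have hint : ∀ m : ℤ, (m : ℂ) ∈ Lt (cj (cls P) Δ) := by
    intro m
    have h3 := (Lt (cj (cls P) Δ)).zsmul_mem hone m
    rwa [zsmul_eq_mul, mul_one] at h3
  have hwL : w ∈ Lt (cj (cls P) Δ) := by
    obtain ⟨A, hA, hAΔ, hAz⟩ := hz
    have h3 := h.mult hA hAΔ h.one_mem
    rw [hAz, mul_one] at h3
    have h4 : w = z - e := by rw [hze]; ring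
    rw [h4]
    exact (Lt (cj (cls P) Δ)).sub_mem h3 (hint e)
  have hlat : ∀ β, t β ∈ cj (cls P) Δ ↔ β ∈ Oz w := by
    intro β
    constructor
    · intro hβ
      obtain ⟨x, y, hxy⟩ := hlz β hβ
      refine ⟨x + y * e, y, ?_⟩
      rw [hxy, hze]
      push_cast
      ring
    · rintro ⟨x, y, rfl⟩
      have h3 : (x : ℂ) + y * w ∈ Lt (cj (cls P) Δ) := by
        refine (Lt (cj (cls P) Δ)).add_mem (hint x) ?_
        have h4 := (Lt (cj (cls P) Δ)).zsmul_mem hwL y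
        rwa [zsmul_eq_mul] at h4
      exact h3
  refine ⟨w, ?_⟩
  refine
    { w2 := hw
      le := h.le
      one := h.mem
      gen := h.gen
      tf := htfc
      lat := hlat
      up := ?_
      cusp := ?_
      fin := fun R => val_fin (bdd_fin hd (cls P)) hw (fun β hβ => (hlat β).2 hβ) R
      ex := ?_
      per := ?_
      inf := h.inf }
  · intro A hA hA0
    obtain ⟨j, -, hj⟩ := hzj _ ⟨A, hA0, hA, rfl⟩
    rw [hj, ← pow_mul, mul_comm, pow_mul, hz6, one_pow]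
  · intro A hA
    obtain ⟨γ, hγ, A', hA', hA2⟩ := h.up hA
    obtain ⟨B, rfl⟩ := cls_surj γ
    refine ⟨B, hγ, ?_⟩
    rw [← cls_mul] at hA2
    rcases cls_eq.1 hA2 with h3 | h3
    · rw [← h3]
      exact hA'
    · rw [h3, Matrix.neg_apply, neg_eq_zero] at hA'
      exact hA'
  · obtain ⟨A, hA, hA0⟩ := h.exists_base
    exact ⟨A, h.le hA, hA0⟩
  · -- the second coordinates of the translations of `Γ`
    let Y : AddSubgroup ℤ :=
      { carrier := {y | ∃ x : ℤ, t ((x : ℂ) + y * w) ∈ cj (cls P) Γ}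
        zero_mem' := ⟨0, by
          have h3 : ((0 : ℤ) : ℂ) + ((0 : ℤ) : ℂ) * w = 0 := by push_cast; ring
          rw [h3, t_zero]
          exact Subgroup.one_mem _⟩
        add_mem' := by
          rintro a b ⟨x, hx⟩ ⟨x', hx'⟩
          refine ⟨x + x', ?_⟩
          have h3 : ((x + x' : ℤ) : ℂ) + ((a + b : ℤ) : ℂ) * w = (x + a * w) + (x' + b * w) := by
            push_cast
            ring
          rw [h3, t_add]
          exact Subgroup.mul_mem _ hx hx'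
        neg_mem' := by
          rintro a ⟨x, hx⟩
          refine ⟨-x, ?_⟩
          have h3 : ((-x : ℤ) : ℂ) + ((-a : ℤ) : ℂ) * w = -(x + a * w) := by
            push_cast
            ring
          rw [h3, t_neg]
          exact Subgroup.inv_mem _ hx }
    obtain ⟨y0, hy0⟩ := Int.subgroup_cyclic Y
    have hy0m : y0 ∈ Y := by
      rw [hy0]
      exact AddSubgroup.mem_closure_singleton_self y0
    obtain ⟨x0, hx0⟩ := hy0m
    have honeΓ : (1 : ℂ) ∈ Lt (cj (cls P) Γ) := h.mem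
    have hx0' : (x0 : ℂ) + y0 * w ∈ Lt (cj (cls P) Γ) := hx0
    have hmemΓ : ∀ a b : ℤ, (a : ℂ) + b * (x0 + y0 * w) ∈ Lt (cj (cls P) Γ) := by
      intro a b
      refine (Lt (cj (cls P) Γ)).add_mem ?_ ?_
      · have h3 := (Lt (cj (cls P) Γ)).zsmul_mem honeΓ a
        rwa [zsmul_eq_mul, mul_one] at h3
      · have h3 := (Lt (cj (cls P) Γ)).zsmul_mem hx0' b
        rwa [zsmul_eq_mul] at h3
    have hper : ∀ β, t β ∈ cj (cls P) Γ ↔ ∃ a b : ℤ, β = a + b * (x0 + y0 * w) := by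
      intro β
      constructor
      · intro hβ
        obtain ⟨x, y, rfl⟩ := (hlat β).1 (h.le hβ)
        have h3 : y ∈ Y := ⟨x, hβ⟩
        rw [hy0, AddSubgroup.mem_closure_singleton] at h3
        obtain ⟨k, hk⟩ := h3
        refine ⟨x - k * x0, k, ?_⟩
        rw [← hk, zsmul_eq_mul]
        push_cast
        ring
      · rintro ⟨a, b, rfl⟩
        exact hmemΓ a b
    refine ⟨x0, y0, ?_, hper⟩
    obtain ⟨x2, y2, e1, e2⟩ := h.deg htfc (s := (x0 : ℂ) + y0 * w) hx0 (fun β hβ => (hper β).1 hβ) hz hzj hz1 hlz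
    have h3 : y0 = y2 := by
      refine (hcoord x0 y0 (x2 + y2 * e) y2 ?_).2
      rw [e1, hze]
      push_cast
      ring
    have h4 := Subgroup.relIndex_map_map_of_injective (f := (MulAut.conj (cls P)).toMonoidHom)
      (cj (cls P) Γ) (cj (cls P) Δ) (MulAut.conj (cls P)).injective
    rw [hsurj, hsurj] at h4
    rw [h4, e2, mul_comm 4 n'] at hi
    have h5 : 4 ≤ y2.natAbs := Nat.le_of_mul_le_mul_left hi hn0'
    rw [h3, Int.abs_eq_natAbs]
    exact_mod_cast h5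

end Pool.Agent.HSG
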