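import Pool.Agent.HSG.Ptc

/-!
# HSG/Ptd: the Markov equation

PROOF PLAN.  `ne_a`, `ne_b`: `c_A = 0` gives `tr A = 0` (`tr_a`), so `A ^ 2 = -1`, `cls A ^ 2 = 1`, so `cls A = 1` (torsion free), `A = ± 1`, but then `A B A⁻¹ B⁻¹ = 1` and its `0 0` entry is `-1`.
`id1`: the trace identity `tr A ^ 2 + tr B ^ 2 + tr AB ^ 2 - tr A tr B tr AB - 2 = tr [A, B] = -2`; substitute `tr_a, tr_b, tr_ab` and divide by `σ ^ 2`.  `id2`: `tr AB + tr A B⁻¹ = tr A tr B` and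
`tr A B⁻¹ = σ c_{A B⁻¹}` (`tr_a` for `flip`), divide by `σ`.  `id3`: `c_AB (-σ X Y - c_AB) = X ^ 2 + Y ^ 2` by `id1`, `id2`.
-/

set_option autoImplicit false

noncomputable section

namespace Pool.Agent.HSG

open Pool.Agent.HSK Matrix
open scoped MatrixGroups

variable {Γ : Subgroup PSL(2, ℂ)} {σ : ℂ} {A B : SL(2, ℂ)}

private theorem ptd_inv (A : SL(2, ℂ)) : (A⁻¹).1 0 0 = A.1 1 1 ∧ (A⁻¹).1 0 1 = -A.1 0 1 ∧ (A⁻¹).1 1 0 = -A.1 1 0 ∧
    (A⁻¹).1 1 1 = A.1 0 0 := by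
  rw [Matrix.SpecialLinearGroup.coe_inv, Matrix.adjugate_fin_two]
  simp

private theorem ptd_mul (A B : SL(2, ℂ)) (i j : Fin 2) : (A * B).1 i j = A.1 i 0 * B.1 0 j + A.1 i 1 * B.1 1 j := by
  rw [Matrix.SpecialLinearGroup.coe_mul, Matrix.mul_apply, Fin.sum_univ_two]

private theorem ptd_tr (A : SL(2, ℂ)) : A.1.trace = A.1 0 0 + A.1 1 1 := by
  rw [Matrix.trace_fin_two]

private theorem ptd_fricke (A B : SL(2, ℂ)) : A.1.trace ^ 2 + B.1.trace ^ 2 + (A * B).1.trace ^ 2 -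
    A.1.trace * B.1.trace * (A * B).1.trace - 2 = (A * B * A⁻¹ * B⁻¹).1.trace := by
  have hA := det_eq A
  have hB := det_eq B
  obtain ⟨a1, a2, a3, a4⟩ := ptd_inv A
  obtain ⟨b1, b2, b3, b4⟩ := ptd_inv B
  rw [ptd_tr, ptd_tr, ptd_tr, ptd_tr]
  simp only [ptd_mul, a1, a2, a3, a4, b1, b2, b3, b4]
  generalize A.1 0 0 = a at *
  generalize A.1 0 1 = b at *
  generalize A.1 1 0 = c at *
  generalize A.1 1 1 = d at *
  generalize B.1 0 0 = e at *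
  generalize B.1 0 1 = f at *
  generalize B.1 1 0 = g at *
  generalize B.1 1 1 = h at *
  linear_combination (-e ^ 2 - h ^ 2 - 2 * f * g) * hA + (-a ^ 2 - d ^ 2 + 2 - 2 * a * d) * hB

private theorem ptd_inv_tr (A B : SL(2, ℂ)) : (A * B).1.trace + (A * B⁻¹).1.trace = A.1.trace * B.1.trace := by
  obtain ⟨b1, b2, b3, b4⟩ := ptd_inv B
  rw [ptd_tr, ptd_tr, ptd_tr, ptd_tr]
  simp only [ptd_mul, b1, b2, b3, b4]
  ring

private theorem ptd_sq (A : SL(2, ℂ)) (h : A.1.trace = 0) : cls A ^ 2 = 1 := by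
  rw [pow_two, ← cls_mul, ← cls_one, cls_eq]
  right
  have hA := det_eq A
  rw [ptd_tr] at h
  ext i j
  rw [ptd_mul, Matrix.neg_apply, Matrix.SpecialLinearGroup.coe_one]
  fin_cases i <;> fin_cases j
  · simp
    linear_combination A.1 0 0 * h - hA
  · simp
    linear_combination A.1 0 1 * h
  · simp
    linear_combination A.1 1 0 * h
  · simp
    linear_combination A.1 1 1 * h - hA

private theorem ptd_neg {A B : SL(2, ℂ)} (h : cls A = 1) : (A * B * A⁻¹ * B⁻¹).1 = 1 := by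
  rw [← cls_one, cls_eq] at h
  rcases h with h | h
  · have h1 : A = 1 := Subtype.ext h
    rw [h1]
    simp
  · have h1 : A⁻¹.1 = -1 := by
      have h2 : A.1 * A⁻¹.1 = 1 := by
        rw [← Matrix.SpecialLinearGroup.coe_mul, mul_inv_cancel, Matrix.SpecialLinearGroup.coe_one]
      rw [h, Matrix.SpecialLinearGroup.coe_one, neg_mul, one_mul] at h2
      rw [← h2, neg_neg]
    rw [Matrix.SpecialLinearGroup.coe_mul, Matrix.SpecialLinearGroup.coe_mul, Matrix.SpecialLinearGroup.coe_mul, h, h1,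
      Matrix.SpecialLinearGroup.coe_one, neg_mul, one_mul, neg_mul_neg, mul_one, ← Matrix.SpecialLinearGroup.coe_mul,
      mul_inv_cancel, Matrix.SpecialLinearGroup.coe_one]

private theorem ptd_ne {A B : SL(2, ℂ)} {σ : ℂ} (h : (A * B * A⁻¹ * B⁻¹).1 = -(T (2 * σ)).1)
    (h1 : (A * B * A⁻¹ * B⁻¹).1 = 1) : False := by
  rw [h1, T_coe] at h
  have := congrFun (congrFun h 0) 0
  simp at this
  norm_num at this

theorem PT.ne_a (h : PT Γ σ A B) (htf : ∀ g ∈ Γ, ∀ n : ℕ, 0 < n → g ^ n = 1 → g = 1) : A.1 1 0 ≠ 0 := by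
  intro h0
  have h1 : A.1.trace = 0 := by rw [h.tr_a, h0, mul_zero]
  exact ptd_ne h.k (ptd_neg (htf _ h.a 2 (by norm_num) (ptd_sq A h1)))

theorem PT.ne_b (h : PT Γ σ A B) (htf : ∀ g ∈ Γ, ∀ n : ℕ, 0 < n → g ^ n = 1 → g = 1) : B.1 1 0 ≠ 0 := by
  exact h.swap.ne_a htf

theorem PT.id1 (h : PT Γ σ A B) (hσ : σ ≠ 0) : A.1 1 0 ^ 2 + B.1 1 0 ^ 2 + (A * B).1 1 0 ^ 2 =
    -σ * A.1 1 0 * B.1 1 0 * (A * B).1 1 0 := by
  have h1 := ptd_fricke A B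
  rw [h.k, h.tr_a, h.tr_b, h.tr_ab, T_coe, Matrix.trace_neg, Matrix.trace_fin_two] at h1
  simp only [Matrix.of_apply, Matrix.cons_val', Matrix.cons_val_zero, Matrix.cons_val_one, Matrix.cons_val_fin_one] at h1
  have h2 : σ ^ 2 * (A.1 1 0 ^ 2 + B.1 1 0 ^ 2 + (A * B).1 1 0 ^ 2) =
      σ ^ 2 * (-σ * A.1 1 0 * B.1 1 0 * (A * B).1 1 0) := by
    linear_combination h1
  exact mul_left_cancel₀ (pow_ne_zero 2 hσ) h2

theorem PT.id2 (h : PT Γ σ A B) (hσ : σ ≠ 0) : (A * B).1 1 0 + (A * B⁻¹).1 1 0 = -σ * A.1 1 0 * B.1 1 0 := by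
  have h1 := ptd_inv_tr A B
  rw [h.tr_a, h.tr_b, h.tr_ab, h.flip.tr_a] at h1
  have h2 : σ * ((A * B).1 1 0 + (A * B⁻¹).1 1 0) = σ * (-σ * A.1 1 0 * B.1 1 0) := by
    linear_combination h1
  exact mul_left_cancel₀ hσ h2

theorem PT.id3 (h : PT Γ σ A B) (hσ : σ ≠ 0) : (A * B).1 1 0 * (A * B⁻¹).1 1 0 = A.1 1 0 ^ 2 + B.1 1 0 ^ 2 := by
  have h1 := h.id1 hσ
  have h2 := h.id2 hσ
  linear_combination (A * B).1 1 0 * h2 - h1

end Pool.Agent.HSG
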