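import Pool.Agent.HSG.Ptc

/-!
# HSG/Pte: commutators which are translations have lifts of trace minus two

PROOF PLAN.  Lifts `A`, `B` of `a`, `b`: `A B A⁻¹ B⁻¹ = ± T τ`.  If the sign is `+`: `A B = T τ B A`, so `c_AB = c_BA` and (traces) `τ c_BA = 0`, so `c_AB = c_BA = 0`.  The pair `A`, `B A` has the same
commutator, so also `c_{A B A} = 0`; `A = (A B)⁻¹ (A B A)` is upper triangular, then so is `B`; by `hup` both are translations and commute, so `τ = 0` (`t_inj`, `t_zero`).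
-/

set_option autoImplicit false

noncomputable section

namespace Pool.Agent.HSG

open Pool.Agent.HSK Matrix
open scoped MatrixGroups

variable {Γ : Subgroup PSL(2, ℂ)} {σ : ℂ} {A B : SL(2, ℂ)}

private theorem pte_key {A B : SL(2, ℂ)} {τ : ℂ} (hτ : τ ≠ 0) (h : A * B * A⁻¹ * B⁻¹ = T τ) : (A * B).1 1 0 = 0 := by
  have h1 : A * B = T τ * (B * A) := by
    rw [← h]
    group
  have h2 : (A * B).1 = (T τ).1 * (B * A).1 := by
    rw [← Matrix.SpecialLinearGroup.coe_mul, ← h1]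
  have ht : (A * B).1.trace = (B * A).1.trace := by
    rw [Matrix.SpecialLinearGroup.coe_mul, Matrix.SpecialLinearGroup.coe_mul, Matrix.trace_mul_comm]
  rw [Matrix.trace_fin_two, Matrix.trace_fin_two] at ht
  have e00 : (A * B).1 0 0 = (B * A).1 0 0 + τ * (B * A).1 1 0 := by
    rw [h2, T_coe, Matrix.mul_apply, Fin.sum_univ_two]
    simp
  have e10 : (A * B).1 1 0 = (B * A).1 1 0 := by
    rw [h2, T_coe, Matrix.mul_apply, Fin.sum_univ_two]
    simp
  have e11 : (A * B).1 1 1 = (B * A).1 1 1 := by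
    rw [h2, T_coe, Matrix.mul_apply, Fin.sum_univ_two]
    simp
  rw [e00, e11] at ht
  have h3 : τ * (B * A).1 1 0 = 0 := by linear_combination ht
  rw [e10]
  exact (mul_eq_zero.1 h3).resolve_left hτ

theorem PT.mk' {a b : PSL(2, ℂ)} (ha : a ∈ Γ) (hb : b ∈ Γ) {τ : ℂ} (hτ : τ ≠ 0) (hab : a * b * a⁻¹ * b⁻¹ = t τ)
    (hup : ∀ A : SL(2, ℂ), cls A ∈ Γ → A.1 1 0 = 0 → ∃ β, cls A = t β) : ∃ A B : SL(2, ℂ), PT Γ (τ / 2) A B := by
  obtain ⟨A, rfl⟩ := cls_surj a
  obtain ⟨B, rfl⟩ := cls_surj b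
  have h1 : cls (A * B * A⁻¹ * B⁻¹) = cls (T τ) := hab
  rcases cls_eq.1 h1 with h2 | h2
  · exfalso
    have h3 : A * B * A⁻¹ * B⁻¹ = T τ := Subtype.ext h2
    have h4 : A * (B * A) * A⁻¹ * (B * A)⁻¹ = T τ := by
      rw [← h3]
      group
    have c1 := pte_key hτ h3
    have c2 := pte_key hτ h4
    have cA : A.1 1 0 = 0 := by
      have e : A = (A * B)⁻¹ * (A * (B * A)) := by group
      rw [e]
      exact (up_prod (up_inv c1).1 c2).1
    have cB : B.1 1 0 = 0 := by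
      have e : B = A⁻¹ * (A * B) := by group
      rw [e]
      exact (up_prod (up_inv cA).1 c1).1
    obtain ⟨β, hβ⟩ := hup A ha cA
    obtain ⟨β', hβ'⟩ := hup B hb cB
    rw [hβ, hβ', (t_comm β β').eq, mul_inv_cancel_right, mul_inv_cancel, ← t_zero] at hab
    exact hτ (t_inj hab).symm
  · refine ⟨A, B, ha, hb, ?_⟩
    rw [h2, mul_div_cancel₀ τ (two_ne_zero)]

end Pool.Agent.HSG
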