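import Pool.Agent.HSG.Shf
import Pool.Agent.HSG.Ptd
import Pool.Agent.HSG.Pte

/-!
# HSG/Srt: the minimal sorted pair

Upper triangular elements of `Γ` are translations (`NF.trans_of_up`).  Among the pairs with commutator `t τ` the sum
of the three lower left entries is minimal at some pair (`NF.pair_min`); the moves `cyc` and `swap` sort the entries,
and `flip` gives the last inequality.
-/

set_option autoImplicit false

noncomputable section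

namespace Pool.Agent.HSG

open Pool.Agent.HSK Matrix
open scoped MatrixGroups commutatorElement

variable {Γ Δ : Subgroup PSL(2, ℂ)} {w : ℂ}

theorem NF.trans_of_up (h : NF Γ Δ w) : ∀ A : SL(2, ℂ), cls A ∈ Γ → A.1 1 0 = 0 → ∃ β, cls A = t β := by
  intro A hA hA0
  have h1 := h.up A (h.le hA) hA0
  by_cases h2 : A.1 0 0 ^ 2 = 1
  · exact up_pm hA0 h2
  obtain ⟨h3, h4⟩ := pow_up hA0 12
  have h5 : (A ^ 12).1 0 0 ^ 2 = 1 := by
    rw [h4]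
    have h6 : A.1 0 0 ^ 12 = 1 := by linear_combination h1
    rw [h6, one_pow]
  obtain ⟨β, hβ⟩ := up_pm h3 h5
  have h6 := t_conj hA0 β
  rw [← hβ, cls_pow] at h6
  have h7 : cls A * cls A ^ 12 * (cls A)⁻¹ = cls A ^ 12 := by
    rw [← pow_succ', pow_succ, mul_assoc, mul_inv_cancel, mul_one]
  rw [h7, ← cls_pow, hβ] at h6
  have h8 := t_inj h6
  have h9 : (A.1 0 0 ^ 2 - 1) * β = 0 := by linear_combination -h8
  have h10 : β = 0 := by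
    rcases mul_eq_zero.1 h9 with h11 | h11
    · exact absurd (by linear_combination h11) h2
    · exact h11
  rw [h10, t_zero, cls_pow] at hβ
  have h11 := h.tf (cls A) hA 12 (by norm_num) hβ
  exact ⟨0, by rw [h11, t_zero]⟩

/-- the square of the modulus of the lower left entry -/
private def srtN (A : SL(2, ℂ)) : ℝ := Complex.normSq (A.1 1 0)

private def SrtM (Γ : Subgroup PSL(2, ℂ)) (τ : ℂ) (s : ℝ) (A B : SL(2, ℂ)) : Prop :=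
  (∃ σ, (2 * σ = τ ∨ 2 * σ = -τ) ∧ PT Γ σ A B) ∧ srtN A + srtN B + srtN (A * B) = s

private theorem srt_cyc {τ : ℂ} {s : ℝ} {A B : SL(2, ℂ)} (h : SrtM Γ τ s A B) :
    SrtM Γ τ s (A * B) A⁻¹ ∧ srtN A⁻¹ = srtN A ∧ srtN (A * B * A⁻¹) = srtN B := by
  obtain ⟨⟨σ, h1, h2⟩, h3⟩ := h
  obtain ⟨h4, h5⟩ := h2.cyc_c
  have h6 : srtN A⁻¹ = srtN A := by
    unfold srtN
    rw [h4, Complex.normSq_neg]
  have h7 : srtN (A * B * A⁻¹) = srtN B := by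
    unfold srtN
    rw [h5, Complex.normSq_neg]
  refine ⟨⟨⟨σ, h1, h2.cyc⟩, ?_⟩, h6, h7⟩
  rw [h6, h7, ← h3]
  ring

private theorem srt_swap {τ : ℂ} {s : ℝ} {A B : SL(2, ℂ)} (h : SrtM Γ τ s A B) :
    SrtM Γ τ s B A ∧ srtN (B * A) = srtN (A * B) := by
  obtain ⟨⟨σ, h1, h2⟩, h3⟩ := h
  have h4 : srtN (B * A) = srtN (A * B) := by
    unfold srtN
    rw [h2.swap_c, Complex.normSq_neg]
  refine ⟨⟨⟨-σ, ?_, h2.swap⟩, ?_⟩, h4⟩
  · rcases h1 with h1 | h1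
    · right
      rw [← h1]
      ring
    · left
      linear_combination -h1
  · rw [h4, ← h3]
    ring

private theorem srt_top {τ : ℂ} {s : ℝ} {A B : SL(2, ℂ)} (h : SrtM Γ τ s A B) :
    ∃ A' B', SrtM Γ τ s A' B' ∧ srtN A' ≤ srtN (A' * B') ∧ srtN B' ≤ srtN (A' * B') := by
  obtain ⟨h1, h2, h3⟩ := srt_cyc h
  obtain ⟨h4, h5, h6⟩ := srt_cyc h1
  rcases le_total (srtN A) (srtN B) with h7 | h7
  · rcases le_total (srtN B) (srtN (A * B)) with h8 | h8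
    · exact ⟨A, B, h, h7.trans h8, h8⟩
    · refine ⟨A * B, A⁻¹, h1, ?_, ?_⟩
      · rw [h3]
        exact h8
      · rw [h3, h2]
        exact h7
  · rcases le_total (srtN A) (srtN (A * B)) with h8 | h8
    · exact ⟨A, B, h, h8, h7.trans h8⟩
    · refine ⟨A * B * A⁻¹, (A * B)⁻¹, h4, ?_, ?_⟩
      · rw [h6, h3, h2]
        exact h7
      · rw [h6, h5, h2]
        exact h8

private theorem srt_sort {τ : ℂ} {s : ℝ} {A B : SL(2, ℂ)} (h : SrtM Γ τ s A B) :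
    ∃ A' B', SrtM Γ τ s A' B' ∧ srtN A' ≤ srtN B' ∧ srtN B' ≤ srtN (A' * B') := by
  obtain ⟨A', B', h1, h2, h3⟩ := srt_top h
  rcases le_total (srtN A') (srtN B') with h4 | h4
  · exact ⟨A', B', h1, h4, h3⟩
  · obtain ⟨h5, h6⟩ := srt_swap h1
    refine ⟨B', A', h5, h4, ?_⟩
    rw [h6]
    exact h2

theorem NF.sorted (h : NF Γ Δ w) {a b : PSL(2, ℂ)} (ha : a ∈ Γ) (hb : b ∈ Γ) {τ : ℂ} (hτ : τ ≠ 0) (hab : a * b * a⁻¹ * b⁻¹ = t τ) :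
    ∃ (A B : SL(2, ℂ)) (σ : ℂ), (2 * σ = τ ∨ 2 * σ = -τ) ∧ PT Γ σ A B ∧ Complex.normSq (A.1 1 0) ≤ Complex.normSq (B.1 1 0) ∧
      Complex.normSq (B.1 1 0) ≤ Complex.normSq ((A * B).1 1 0) ∧ Complex.normSq ((A * B).1 1 0) ≤ Complex.normSq ((A * B⁻¹).1 1 0) := by
  obtain ⟨A₀, B₀, h0⟩ := PT.mk' ha hb hτ hab h.trans_of_up
  obtain ⟨A₁, B₁, ⟨σ₁, hs1, hp1⟩, hmin⟩ := h.pair_min (fun A B => ∃ σ, (2 * σ = τ ∨ 2 * σ = -τ) ∧ PT Γ σ A B)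
    (fun A B hAB => by
      obtain ⟨σ, -, h2⟩ := hAB
      exact ⟨h.le h2.a, h.le h2.b⟩) (A₀ := A₀) (B₀ := B₀) ⟨τ / 2, Or.inl (by ring), h0⟩
  obtain ⟨A, B, ⟨⟨σ, hs, hp⟩, hsum⟩, h1, h2⟩ := srt_sort (Γ := Γ) (τ := τ)
    (s := srtN A₁ + srtN B₁ + srtN (A₁ * B₁)) (A := A₁) (B := B₁) ⟨⟨σ₁, hs1, hp1⟩, rfl⟩
  refine ⟨A, B, σ, hs, hp, h1, h2, ?_⟩
  have h3 := hmin (A * B⁻¹) B ⟨σ, hs, hp.flip⟩
  rw [inv_mul_cancel_right] at h3
  have h4 : srtN A₁ + srtN B₁ + srtN (A₁ * B₁) ≤ srtN (A * B⁻¹) + srtN B + srtN A := h3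
  rw [← hsum] at h4
  show srtN (A * B) ≤ srtN (A * B⁻¹)
  linarith

end Pool.Agent.HSG
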