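import Pool.Agent.HSG.Gen
import Pool.Agent.HSG.Fig
import Pool.Agent.HSG.Srt

/-!
# HSG/Eig: integral parameter: `Γ` is the figure eight group

PROOF PLAN.  `NG.one`: `normSq κ = 1`.  By `NF.cusp` for `g` there is `B` with `cls B ∈ Γ`, `(B * g).1 1 0 = 0`, so `B.1 1 1 = 0`, and `C = B⁻¹` has `0 0` entry zero.  By `NG.entries` the entries of `C` are (up to sign) in `Oz w`, `C.1 1 0 = c`, `C.1 0 1 = -1 / c`, so
`c` has norm one (`oz_one_le` for both), `c ^ 6 = 1`, `C * T 1 * C⁻¹ = Lo (-c ^ 2)`, in `Γ`; `v = c ^ 2`, `v ^ 3 = 1`.  If `v = 1`: `T 1 * Lo (-1)` has trace `1`, its cube is `-1`, torsion: contradiction (`tf`; it is not `± 1`).  So `v = w` or `v = w ^ 2`;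
`w' := v` satisfies `w' ^ 2 + w' + 1 = 0`, `Oz w' = Oz w` and `F8 w' ≤ Γ`.
`Γ ≤ F8 w'`: for `x ∈ Γ` take the integral lift `A` (`entries`), `D` with `cls D ∈ F8 w' ≤ Γ`, `(D * A).1 1 0 = 0` (`F8.trans`), so `cls (D * A) = t β` (`NF.trans_of_up`), `t β ∈ Γ`; `per`: the periods `a + b (x + y w)`, `|y| ≥ 4`, contain
`4 w'` (`F8.t_mem`), `w' = w` or `w' = -1 - w`: so `b y = ± 4`, `|y| = 4`, and every period is `m + n * (4 * w')`; so `t β ∈ F8 w'`.
-/

set_option autoImplicit false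

noncomputable section

namespace Pool.Agent.HSG

open Pool.Agent.HSK Matrix
open scoped MatrixGroups commutatorElement

variable {Γ Δ : Subgroup PSL(2, ℂ)} {w κ : ℂ} {g : SL(2, ℂ)}

private theorem eig_mul_coe (A B : SL(2, ℂ)) : (A * B).1 =
    !![A.1 0 0 * B.1 0 0 + A.1 0 1 * B.1 1 0, A.1 0 0 * B.1 0 1 + A.1 0 1 * B.1 1 1;
      A.1 1 0 * B.1 0 0 + A.1 1 1 * B.1 1 0, A.1 1 0 * B.1 0 1 + A.1 1 1 * B.1 1 1] := by
  rw [Matrix.SpecialLinearGroup.coe_mul]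
  ext i j
  fin_cases i <;> fin_cases j <;> simp [Matrix.mul_apply, Fin.sum_univ_two]

private theorem eig_Lo_coe (s : ℂ) : (Lo s).1 = !![1, 0; s, 1] := rfl

private theorem eig_cube : (T 1 * Lo (-1)) * (T 1 * Lo (-1)) * (T 1 * Lo (-1)) = -1 := by
  have h1 : (T 1 * Lo (-1)).1 = !![0, 1; -1, 1] := by
    rw [eig_mul_coe, T_coe, eig_Lo_coe]
    simp
  apply Subtype.ext
  rw [eig_mul_coe, eig_mul_coe, h1]
  ext i j
  fin_cases i <;> fin_cases j <;> simp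

private theorem eig_no_one (hNF : NF Γ Δ w) : cls (Lo (-1)) ∉ Γ := by
  intro hm
  have h1 : cls (T 1 * Lo (-1)) ∈ Γ := by
    rw [cls_mul]
    exact Γ.mul_mem hNF.one hm
  have h2 : cls (T 1 * Lo (-1)) ^ 3 = 1 := by
    have e : ∀ X : SL(2, ℂ), cls X ^ 3 = cls (X * X * X) := by
      intro X
      rw [cls_mul, cls_mul, pow_succ, pow_two]
    rw [e, eig_cube, ← cls_one]
    exact cls_eq.2 (Or.inr rfl)
  have h3 := hNF.tf _ h1 3 (by norm_num) h2
  rw [← cls_one] at h3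
  have h4 : (T 1 * Lo (-1)).1 0 1 = 1 := by
    rw [eig_mul_coe, T_coe, eig_Lo_coe]
    simp
  rcases cls_eq.1 h3 with h | h
  · rw [h, Matrix.SpecialLinearGroup.coe_one] at h4
    simp at h4
  · rw [h, Matrix.SpecialLinearGroup.coe_one] at h4
    simp at h4

private theorem eig_conj {C : SL(2, ℂ)} (h0 : C.1 0 0 = 0) : C * T 1 * C⁻¹ = Lo (-(C.1 1 0 ^ 2)) := by
  have hd := det_eq C
  rw [h0, zero_mul, zero_sub] at hd
  rw [mul_inv_eq_iff_eq_mul]
  apply Subtype.ext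
  rw [eig_mul_coe, eig_mul_coe, T_coe, eig_Lo_coe, h0]
  ext i j
  fin_cases i <;> fin_cases j
  · simp
  · simp
  · simp
  · simp
    linear_combination (-C.1 1 0) * hd

theorem NG.conj_mem (h : NG Γ Δ w κ g) (hq : κ ^ 2 ∈ Oz w) : ∃ v : ℂ, (v = w ∨ v = w ^ 2) ∧ cls (Lo (-v)) ∈ Γ := by
  have hw := h.nf.w2
  obtain ⟨B, hB, hB0⟩ := h.nf.cusp g h.gm
  have hB1 : B.1 1 1 = 0 := by
    rw [eig_mul_coe, h.gc] at hB0
    simp at hB0
    rcases hB0 with hB0 | hB0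
    · exact hB0
    · exact absurd hB0 h.k0
  obtain ⟨C, hC, hent, -⟩ := h.entries hq (Γ.inv_mem hB)
  rw [← cls_inv] at hC
  have hC0 : C.1 0 0 = 0 := by
    rcases cls_eq.1 hC with e | e
    · rw [e, inv_coe]
      simpa using hB1
    · rw [e, inv_coe]
      simpa using hB1
  have hd := det_eq C
  rw [hC0, zero_mul, zero_sub] at hd
  have hc0 : C.1 1 0 ≠ 0 := by
    intro h0
    rw [h0, mul_zero, neg_zero] at hd
    exact zero_ne_one hd
  have hb0 : C.1 0 1 ≠ 0 := by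
    intro h0
    rw [h0, zero_mul, neg_zero] at hd
    exact zero_ne_one hd
  have hn : Complex.normSq (C.1 0 1) * Complex.normSq (C.1 1 0) = 1 := by
    rw [← map_mul, ← Complex.normSq_neg, hd, map_one]
  have hb1 := oz_one_le hw (hent 0 1) hb0
  have hc1 := oz_one_le hw (hent 1 0) hc0
  have hn1 : Complex.normSq (C.1 1 0) = 1 := by nlinarith
  have h6 := oz_unit hw (hent 1 0) hn1
  have hmem : cls (Lo (-(C.1 1 0 ^ 2))) ∈ Γ := by
    rw [← eig_conj hC0, cls_mul, cls_mul, cls_inv, hC, cls_inv]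
    exact Γ.mul_mem (Γ.mul_mem (Γ.inv_mem hB) h.nf.one) (Γ.inv_mem (Γ.inv_mem hB))
  have h3 : (C.1 1 0 ^ 2 - 1) * ((C.1 1 0 ^ 2 - w) * (C.1 1 0 ^ 2 - w ^ 2)) = 0 := by
    have hw3 := w_pow hw
    linear_combination h6 + (-(C.1 1 0 ^ 4) + C.1 1 0 ^ 2) * hw + (C.1 1 0 ^ 2 - 1) * hw3
  rcases mul_eq_zero.1 h3 with e | e
  · exfalso
    rw [sub_eq_zero.1 e] at hmem
    exact eig_no_one h.nf hmem
  rcases mul_eq_zero.1 e with e | e
  · exact ⟨C.1 1 0 ^ 2, Or.inl (sub_eq_zero.1 e), hmem⟩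
  · exact ⟨C.1 1 0 ^ 2, Or.inr (sub_eq_zero.1 e), hmem⟩

private theorem eig_oz (hw : w ^ 2 + w + 1 = 0) {v : ℂ} (hv : v = w ∨ v = w ^ 2) {β : ℂ} (hβ : β ∈ Oz w) : β ∈ Oz v := by
  rcases hv with rfl | hv
  · exact hβ
  · obtain ⟨x, y, rfl⟩ := hβ
    refine ⟨x - y, -y, ?_⟩
    rw [hv]
    push_cast
    linear_combination (y : ℂ) * hw

private theorem eig_four {b y : ℤ} (hy : 4 ≤ |y|) (hb : |b| * |y| = 4) : b = 1 ∨ b = -1 := by
  have h0 : 0 ≤ |b| := abs_nonneg b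
  have h1 : |b| ≤ 1 := by nlinarith
  have h2 : |b| ≠ 0 := by
    intro h
    rw [h, zero_mul] at hb
    norm_num at hb
  have h3 : |b| = 1 := by omega
  rcases abs_cases b with h | h
  · left
    omega
  · right
    omega

private theorem eig_indep (hw : w ^ 2 + w + 1 = 0) {a b c d : ℤ} (h : (a : ℂ) + b * w = c + d * w) : b = d := by
  obtain ⟨h1, h2⟩ := w_re hw
  have him : w.im ≠ 0 := by
    intro h0
    rw [h0] at h2
    norm_num at h2
  have h3 := congrArg Complex.im h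
  simp at h3
  rcases h3 with h3 | h3
  · exact h3
  · exact absurd h3 him

private theorem eig_sign (hw : w ^ 2 + w + 1 = 0) {v : ℂ} (hv : v = w ∨ v = w ^ 2) {x y a b : ℤ} (hy : 4 ≤ |y|)
    (h : 4 * v = a + b * (x + y * w)) : b = 1 ∨ b = -1 := by
  rcases hv with rfl | hv
  · have h1 : ((0 : ℤ) : ℂ) + (4 : ℤ) * v = ((a + b * x : ℤ) : ℂ) + ((b * y : ℤ) : ℂ) * v := by
      push_cast
      linear_combination h
    have h2 := eig_indep hw h1
    refine eig_four hy ?_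
    rw [← abs_mul, ← h2]
    norm_num
  · rw [hv] at h
    have h1 : ((-4 : ℤ) : ℂ) + (-4 : ℤ) * w = ((a + b * x : ℤ) : ℂ) + ((b * y : ℤ) : ℂ) * w := by
      push_cast
      linear_combination h - 4 * hw
    have h2 := eig_indep hw h1
    refine eig_four hy ?_
    rw [← abs_mul, ← h2]
    norm_num

theorem NG.eight (h : NG Γ Δ w κ g) (hq : κ ^ 2 ∈ Oz w) : ∃ v : ℂ, v ^ 2 + v + 1 = 0 ∧ Γ = F8 v := by
  have hw := h.nf.w2
  obtain ⟨v, hv, hvm⟩ := h.conj_mem hq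
  have hv2 : v ^ 2 + v + 1 = 0 := by
    rcases hv with e | e
    · rw [e]
      exact hw
    · rw [e]
      linear_combination (w ^ 2 - w + 1) * hw
  have hle : F8 v ≤ Γ := by
    unfold F8
    rw [Subgroup.closure_le]
    rintro x hx
    rcases hx with hx | hx
    · rw [hx]
      exact h.nf.one
    · rw [Set.mem_singleton_iff] at hx
      rw [hx]
      exact hvm
  refine ⟨v, hv2, le_antisymm ?_ hle⟩
  obtain ⟨x, y, hy, hper⟩ := h.nf.per
  have h4 : t (4 * v) ∈ Γ := by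
    have h1 := hle (F8.t_mem hv2 0 1)
    have h2 : ((0 : ℤ) : ℂ) + ((1 : ℤ) : ℂ) * (4 * v) = 4 * v := by
      push_cast
      ring
    rwa [h2] at h1
  obtain ⟨a₀, b₀, h4v⟩ := (hper _).1 h4
  have hb₀ := eig_sign hw hv hy h4v
  have hb2 : (b₀ : ℂ) * b₀ = 1 := by
    rcases hb₀ with e | e
    · rw [e]
      norm_num
    · rw [e]
      norm_num
  intro z hz
  obtain ⟨A, hA, hent, -⟩ := h.entries hq hz
  obtain ⟨D, hD, hDA⟩ := F8.trans hv2 A (fun i j => eig_oz hw hv (hent i j))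
  have hDAm : cls (D * A) ∈ Γ := by
    rw [cls_mul, hA]
    exact Γ.mul_mem (hle hD) hz
  obtain ⟨β, hβ⟩ := h.nf.trans_of_up (D * A) hDAm hDA
  obtain ⟨a, b, hab⟩ := (hper β).1 (by rw [← hβ]; exact hDAm)
  have hβ2 : β = ((a - b * b₀ * a₀ : ℤ) : ℂ) + ((b * b₀ : ℤ) : ℂ) * (4 * v) := by
    rw [hab, h4v]
    push_cast
    linear_combination (-(b : ℂ) * (x + y * w)) * hb2
  have hβm : t β ∈ F8 v := by
    rw [hβ2]
    exact F8.t_mem hv2 _ _
  have hz2 : z = (cls D)⁻¹ * t β := by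
    rw [← hβ, cls_mul, hA]
    group
  rw [hz2]
  exact (F8 v).mul_mem ((F8 v).inv_mem hD) hβm

end Pool.Agent.HSG
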