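import Pool.Agent.HSG.Thr

/-!
# HSG/Thq: minimal entry `√3` is impossible

With `l = 1 - w` (`normSq l = 3`) every `A` with `cls A ∈ Δ` has the form `!![e * α, e * (β / l); e * (l * γ), e * δ]` with
`e ^ 12 = 1` and `α β γ δ ∈ Oz w` (`N3.form`, by descent), so the conjugates of `T 1` and the group `Γ` generated by them
have the form `!![1 + l α, β; l ^ 2 γ, 1 + l δ]` (`N3.cong`). A full element with value `0` at infinity and one cusp give
`1 + l δ = 0`, which is impossible.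
-/

set_option autoImplicit false

noncomputable section

namespace Pool.Agent.HSG

open Pool.Agent.HSK Matrix
open scoped MatrixGroups commutatorElement

variable {Γ Δ : Subgroup PSL(2, ℂ)} {w : ℂ}

def M3 (w : ℂ) (A : SL(2, ℂ)) : Prop := ∃ e α β γ δ : ℂ, e ^ 12 = 1 ∧ α ∈ Oz w ∧ β ∈ Oz w ∧ γ ∈ Oz w ∧ δ ∈ Oz w ∧
  A.1 = !![e * α, e * (β / (1 - w)); e * ((1 - w) * γ), e * δ]

private theorem thq_l (hw : w ^ 2 + w + 1 = 0) : Complex.normSq (1 - w) = 3 := by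
  obtain ⟨h1, h2⟩ := w_re hw
  rw [Complex.normSq_apply, Complex.sub_re, Complex.sub_im, Complex.one_re, Complex.one_im, h1]
  have h3 : (0 - w.im) * (0 - w.im) = w.im ^ 2 := by ring
  rw [h3, h2]
  norm_num

private theorem thq_l0 (hw : w ^ 2 + w + 1 = 0) : 1 - w ≠ 0 := by
  intro h0
  have h1 := thq_l hw
  rw [h0, map_zero] at h1
  norm_num at h1

private theorem thq_lm : 1 - w ∈ Oz w := oz_sub oz_one oz_w

private theorem thq_mat (a b c d a' b' c' d' : ℂ) :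
    !![a, b; c, d] * !![a', b'; c', d'] =
      !![a * a' + b * c', a * b' + b * d'; c * a' + d * c', c * b' + d * d'] := by
  rw [Matrix.mul_fin_two]

private theorem thq_eta {a b c d a' b' c' d' : ℂ} (h1 : a = a') (h2 : b = b') (h3 : c = c') (h4 : d = d') :
    !![a, b; c, d] = !![a', b'; c', d'] := by
  rw [h1, h2, h3, h4]

private theorem thq_eta2 {A : SL(2, ℂ)} {a b c d : ℂ} (h1 : A.1 0 0 = a) (h2 : A.1 0 1 = b) (h3 : A.1 1 0 = c)
    (h4 : A.1 1 1 = d) : A.1 = !![a, b; c, d] := by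
  rw [Matrix.eta_fin_two A.1, h1, h2, h3, h4]

private theorem thq_mul (hw : w ^ 2 + w + 1 = 0) {A B : SL(2, ℂ)} (hA : M3 w A) (hB : M3 w B) : M3 w (A * B) := by
  have h0 := thq_l0 hw
  obtain ⟨e, a, b, c, d, he, ha, hb, hc, hd, h1⟩ := hA
  obtain ⟨e', a', b', c', d', he', ha', hb', hc', hd', h2⟩ := hB
  refine ⟨e * e', a * a' + b * c', a * b' + b * d', c * a' + d * c', c * b' + d * d', ?_, ?_, ?_, ?_, ?_, ?_⟩
  · rw [mul_pow, he, he', one_mul]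
  · exact oz_add (oz_mul hw ha ha') (oz_mul hw hb hc')
  · exact oz_add (oz_mul hw ha hb') (oz_mul hw hb hd')
  · exact oz_add (oz_mul hw hc ha') (oz_mul hw hd hc')
  · exact oz_add (oz_mul hw hc hb') (oz_mul hw hd hd')
  · rw [Matrix.SpecialLinearGroup.coe_mul, h1, h2, thq_mat]
    refine thq_eta ?_ ?_ ?_ ?_
    · field_simp
    · field_simp
    · ring
    · field_simp

private theorem thq_inv {A : SL(2, ℂ)} (hA : M3 w A) : M3 w A⁻¹ := by
  obtain ⟨e, a, b, c, d, he, ha, hb, hc, hd, h1⟩ := hA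
  refine ⟨e, d, -b, -c, a, he, hd, oz_neg hb, oz_neg hc, ha, ?_⟩
  rw [inv_coe, h1]
  refine thq_eta ?_ ?_ ?_ ?_
  · rfl
  · show -(e * (b / (1 - w))) = e * (-b / (1 - w))
    ring
  · show -(e * ((1 - w) * c)) = e * ((1 - w) * -c)
    ring
  · rfl

private theorem thq_c0 {A : SL(2, ℂ)} (hn : Complex.normSq (A.1 1 0) = 3) : A.1 1 0 ≠ 0 := by
  intro h0
  rw [h0, map_zero] at hn
  norm_num at hn

/-- a full element with value `0` at infinity -/
private theorem thq_E (h : N3 Γ Δ w) : ∃ E : SL(2, ℂ), cls E ∈ Δ ∧ Complex.normSq (E.1 1 0) = 3 ∧ E.1 0 0 = 0 ∧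
    E.1 1 0 ≠ 0 := by
  obtain ⟨E, hE, hn, hp⟩ := h.ex 0 oz_zero
  have h0 := thq_c0 hn
  refine ⟨E, hE, hn, ?_, h0⟩
  have h1 : pt E = 0 := (mul_eq_zero.1 hp).resolve_left (thq_l0 h.nf.w2)
  rw [pt] at h1
  exact (div_eq_zero_iff.1 h1).resolve_right h0

private theorem thq_mulE {A E : SL(2, ℂ)} (hE : E.1 0 0 = 0) : (A * E).1 0 0 = A.1 0 1 * E.1 1 0 ∧
    (A * E).1 1 0 = A.1 1 1 * E.1 1 0 := by
  rw [Matrix.SpecialLinearGroup.coe_mul]
  constructor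
  · rw [Matrix.mul_apply, Fin.sum_univ_two, hE]
    ring
  · rw [Matrix.mul_apply, Fin.sum_univ_two, hE]
    ring

private theorem thq_up (h : N3 Γ Δ w) {A : SL(2, ℂ)} (hA : cls A ∈ Δ) (h0 : A.1 1 0 = 0) : M3 w A := by
  have hw := h.nf.w2
  have hl := thq_l0 hw
  have had := up_mul h0
  have ha0 : A.1 0 0 ≠ 0 := left_ne_zero_of_mul_eq_one had
  have hd0 : A.1 1 1 ≠ 0 := right_ne_zero_of_mul_eq_one had
  have ha6 := h.nf.up A hA h0
  have hd12 : (A.1 1 1) ^ 12 = 1 := by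
    have h1 : (A.1 0 0) ^ 12 * (A.1 1 1) ^ 12 = 1 := by rw [← mul_pow, had, one_pow]
    have h2 : (A.1 0 0) ^ 12 = 1 :=
      (by ring : (A.1 0 0) ^ 12 = ((A.1 0 0) ^ 2) ^ 6).trans ha6
    rw [h2, one_mul] at h1
    exact h1
  have hnd : Complex.normSq (A.1 1 1) = 1 := by
    have h1 : (Complex.normSq (A.1 1 1)) ^ 12 = 1 := by rw [← map_pow, hd12, map_one]
    exact (pow_eq_one_iff_of_nonneg (Complex.normSq_nonneg _) (by norm_num)).1 h1
  obtain ⟨E, hE, hEn, hE0, hEc⟩ := thq_E h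
  obtain ⟨e1, e2⟩ := thq_mulE (A := A) hE0
  have hf : (1 - w) * pt (A * E) ∈ Oz w := by
    apply h.full
    · rw [cls_mul]
      exact Δ.mul_mem hA hE
    · rw [e2, Complex.normSq_mul, hnd, one_mul, hEn]
  have hpt : pt (A * E) = A.1 0 1 / A.1 1 1 := by
    rw [pt, e1, e2]
    exact mul_div_mul_right _ _ hEc
  rw [hpt] at hf
  refine ⟨A.1 1 1, A.1 0 0 ^ 2, (1 - w) * (A.1 0 1 / A.1 1 1), 0, 1, hd12, oz_root hw ha6, hf, oz_zero, oz_one, ?_⟩
  refine thq_eta2 ?_ ?_ ?_ ?_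
  · linear_combination (-(A.1 0 0)) * had
  · rw [mul_div_cancel_left₀ _ hl, mul_div_cancel₀ _ hd0]
  · rw [h0]
    ring
  · ring

private theorem thq_full (h : N3 Γ Δ w) {A : SL(2, ℂ)} (hA : cls A ∈ Δ) (hn : Complex.normSq (A.1 1 0) = 3) :
    M3 w A := by
  have hw := h.nf.w2
  have hl := thq_l0 hw
  have hl3 := thq_l hw
  have hc := thq_c0 hn
  have hAi : cls A⁻¹ ∈ Δ := by
    rw [cls_inv]
    exact Δ.inv_mem hA
  have hci : (A⁻¹).1 1 0 = -A.1 1 0 := by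
    rw [inv_coe]
    rfl
  have hAin : Complex.normSq ((A⁻¹).1 1 0) = 3 := by
    rw [hci, Complex.normSq_neg]
    exact hn
  have hf := h.full A hA hn
  have hf' := h.full A⁻¹ hAi hAin
  obtain ⟨E, hE, hEn, hEp⟩ := h.ex ((1 - w) * pt A⁻¹ + 1) (oz_add hf' oz_one)
  have hEc := thq_c0 hEn
  have hpE : pt E - pt A⁻¹ = 1 / (1 - w) := by
    rw [eq_div_iff hl]
    linear_combination hEp
  have hAE := c_mul hc hEc
  rw [hpE] at hAE
  have hAEn : Complex.normSq ((A * E).1 1 0) = 3 := by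
    rw [hAE, Complex.normSq_mul, Complex.normSq_mul, hn, hEn, map_div₀, hl3, map_one]
    norm_num
  have hAE0 := thq_c0 hAEn
  have hAEm : cls (A * E) ∈ Δ := by
    rw [cls_mul]
    exact Δ.mul_mem hA hE
  have hff := h.full (A * E) hAEm hAEn
  rw [pt_mul hc hEc hAE0, hpE] at hff
  obtain ⟨u, hu⟩ : ∃ u : ℂ, u = (1 - w) ^ 2 / A.1 1 0 ^ 2 := ⟨_, rfl⟩
  have huO : u ∈ Oz w := by
    have h1 := oz_sub hf hff
    have h2 : (1 - w) * pt A - (1 - w) * (pt A - 1 / (A.1 1 0 ^ 2 * (1 / (1 - w)))) = u := by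
      rw [hu]
      field_simp
      ring
    rw [h2] at h1
    exact h1
  have hun : Complex.normSq u = 1 := by
    rw [hu, map_div₀, map_pow, map_pow, hl3, hn]
    norm_num
  have hu6 := oz_unit hw huO hun
  have he : (A.1 1 0 / (1 - w)) ^ 12 = 1 := by
    have h1 : (A.1 1 0 / (1 - w)) ^ 12 * u ^ 6 = 1 := by
      rw [hu]
      field_simp
    rw [hu6, mul_one] at h1
    exact h1
  have hpA : A.1 0 0 = A.1 1 0 * pt A := by
    rw [pt]
    field_simp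
  have hpA' : A.1 1 1 = -(A.1 1 0 * pt A⁻¹) := by
    rw [pt_inv]
    field_simp
  have hdet := det_eq A
  refine ⟨A.1 1 0 / (1 - w), (1 - w) * pt A, -((1 - w) * pt A * ((1 - w) * pt A⁻¹)) - u, 1, -((1 - w) * pt A⁻¹), he, hf,
    oz_sub (oz_neg (oz_mul hw hf hf')) huO, oz_one, oz_neg hf', ?_⟩
  refine thq_eta2 ?_ ?_ ?_ ?_
  · rw [hpA]
    field_simp
  · have h1 : A.1 0 1 * A.1 1 0 = -(A.1 1 0 * pt A * (A.1 1 0 * pt A⁻¹)) - 1 := by
      rw [hpA, hpA'] at hdet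
      linear_combination -hdet
    have h2 : A.1 0 1 = (-(A.1 1 0 * pt A * (A.1 1 0 * pt A⁻¹)) - 1) / A.1 1 0 := by
      rw [eq_div_iff hc]
      exact h1
    rw [h2, hu]
    field_simp
  · field_simp
  · rw [hpA']
    field_simp

theorem N3.form (h : N3 Γ Δ w) {A : SL(2, ℂ)} (hA : cls A ∈ Δ) : M3 w A := by
  have hw := h.nf.w2
  have hl := thq_l0 hw
  refine h.nf.descent (M3 w) (fun A hA h0 => thq_up h hA h0) ?_ A hA
  intro A hA h0
  obtain ⟨β, hβ, hn⟩ := oz_near3 hw (pt A⁻¹)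
  obtain ⟨B, hB, hBn, hBp⟩ := h.ex β hβ
  have hB0 := thq_c0 hBn
  have hpB : pt B = β / (1 - w) := by
    rw [eq_div_iff hl, mul_comm]
    exact hBp
  refine ⟨B, hB, ?_, ?_⟩
  · rw [c_mul h0 hB0, hpB, Complex.normSq_mul, Complex.normSq_mul, hBn]
    have hn' : Complex.normSq (β / (1 - w) - pt A⁻¹) ≤ 1 / 9 := by
      rw [← Complex.normSq_neg, neg_sub]
      exact hn
    have hp : 0 < Complex.normSq (A.1 1 0) := Complex.normSq_pos.2 h0
    have h5 : 3 * Complex.normSq (β / (1 - w) - pt A⁻¹) < 1 := by linarith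
    rw [mul_assoc]
    calc Complex.normSq (A.1 1 0) * (3 * Complex.normSq (β / (1 - w) - pt A⁻¹))
        < Complex.normSq (A.1 1 0) * 1 := mul_lt_mul_of_pos_left h5 hp
      _ = Complex.normSq (A.1 1 0) := mul_one _
  · intro hP
    have h1 : A = A * B * B⁻¹ := by group
    rw [h1]
    exact thq_mul hw hP (thq_inv (thq_full h hB hBn))

private theorem thq_conj (A : SL(2, ℂ)) : (A * T 1 * A⁻¹).1 =
    !![1 - A.1 0 0 * A.1 1 0, A.1 0 0 ^ 2; -(A.1 1 0) ^ 2, 1 + A.1 0 0 * A.1 1 0] := by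
  have h1 := det_eq A
  rw [Matrix.SpecialLinearGroup.coe_mul, mul_T_coe, inv_coe, thq_mat]
  refine thq_eta ?_ ?_ ?_ ?_
  · linear_combination h1
  · ring
  · ring
  · linear_combination h1

theorem N3.cong (h : N3 Γ Δ w) {x : PSL(2, ℂ)} (hx : x ∈ Γ) : ∃ (A : SL(2, ℂ)) (α β γ δ : ℂ), cls A = x ∧ α ∈ Oz w ∧ β ∈ Oz w ∧ γ ∈ Oz w ∧ δ ∈ Oz w ∧
    A.1 = !![1 + (1 - w) * α, β; (1 - w) ^ 2 * γ, 1 + (1 - w) * δ] := by
  have hw := h.nf.w2
  have hlm : 1 - w ∈ Oz w := thq_lm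
  refine ngen_induction (μ := t 1) h.nf.one h.nf.gen
    (fun x => ∃ (A : SL(2, ℂ)) (α β γ δ : ℂ), cls A = x ∧ α ∈ Oz w ∧ β ∈ Oz w ∧ γ ∈ Oz w ∧ δ ∈ Oz w ∧
      A.1 = !![1 + (1 - w) * α, β; (1 - w) ^ 2 * γ, 1 + (1 - w) * δ]) ?_ ?_ ?_ ?_ x hx
  · intro g hg
    obtain ⟨A, rfl⟩ := cls_surj g
    obtain ⟨e, a, b, c, d, he, ha, hb, hc, hd, hAe⟩ := h.form (h.nf.le hg)
    have he2 : e ^ 2 ∈ Oz w := oz_root hw (by rw [← pow_mul]; exact he)
    have h00 : A.1 0 0 = e * a := by rw [hAe]; rfl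
    have h10 : A.1 1 0 = e * ((1 - w) * c) := by rw [hAe]; rfl
    refine ⟨A * T 1 * A⁻¹, -(e ^ 2 * (a * c)), e ^ 2 * (a * a), -(e ^ 2 * (c * c)), e ^ 2 * (a * c), ?_,
      oz_neg (oz_mul hw he2 (oz_mul hw ha hc)), oz_mul hw he2 (oz_mul hw ha ha), oz_neg (oz_mul hw he2 (oz_mul hw hc hc)),
      oz_mul hw he2 (oz_mul hw ha hc), ?_⟩
    · rw [cls_mul, cls_mul, cls_inv]
      rfl
    · rw [thq_conj, h00, h10]
      exact thq_eta (by ring) (by ring) (by ring) (by ring)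
  · refine ⟨1, 0, 0, 0, 0, cls_one, oz_zero, oz_zero, oz_zero, oz_zero, ?_⟩
    rw [Matrix.SpecialLinearGroup.coe_one, Matrix.one_fin_two]
    exact thq_eta (by ring) rfl (by ring) (by ring)
  · rintro x _ y _ ⟨A, a, b, c, d, rfl, ha, hb, hc, hd, h1⟩ ⟨B, a', b', c', d', rfl, ha', hb', hc', hd', h2⟩
    refine ⟨A * B, a + a' + (1 - w) * (a * a') + (1 - w) * (b * c'), (1 + (1 - w) * a) * b' + b * (1 + (1 - w) * d'),
      c * (1 + (1 - w) * a') + (1 + (1 - w) * d) * c', (1 - w) * (c * b') + d + d' + (1 - w) * (d * d'), cls_mul A B,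
      ?_, ?_, ?_, ?_, ?_⟩
    · exact oz_add (oz_add (oz_add ha ha') (oz_mul hw hlm (oz_mul hw ha ha'))) (oz_mul hw hlm (oz_mul hw hb hc'))
    · exact oz_add (oz_mul hw (oz_add oz_one (oz_mul hw hlm ha)) hb') (oz_mul hw hb (oz_add oz_one (oz_mul hw hlm hd')))
    · exact oz_add (oz_mul hw hc (oz_add oz_one (oz_mul hw hlm ha'))) (oz_mul hw (oz_add oz_one (oz_mul hw hlm hd)) hc')
    · exact oz_add (oz_add (oz_add (oz_mul hw hlm (oz_mul hw hc hb')) hd) hd') (oz_mul hw hlm (oz_mul hw hd hd'))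
    · rw [Matrix.SpecialLinearGroup.coe_mul, h1, h2, thq_mat]
      exact thq_eta (by ring) (by ring) (by ring) (by ring)
  · rintro x _ ⟨A, a, b, c, d, rfl, ha, hb, hc, hd, h1⟩
    refine ⟨A⁻¹, d, -b, -c, a, cls_inv A, hd, oz_neg hb, oz_neg hc, ha, ?_⟩
    rw [inv_coe, h1]
    refine thq_eta rfl rfl ?_ rfl
    show -((1 - w) ^ 2 * c) = (1 - w) ^ 2 * -c
    ring

theorem N3.false (h : N3 Γ Δ w) : False := by
  have hw := h.nf.w2
  obtain ⟨E, hE, hEn, hE0, hEc⟩ := thq_E h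
  obtain ⟨B, hB, hB0⟩ := h.nf.cusp E hE
  rw [(thq_mulE (A := B) hE0).2] at hB0
  have hB11 : B.1 1 1 = 0 := (mul_eq_zero.1 hB0).resolve_right hEc
  obtain ⟨A, a, b, c, d, hAB, ha, hb, hc, hd, hAe⟩ := h.cong hB
  have hA11 : A.1 1 1 = 0 := by
    rcases cls_eq.1 hAB with h1 | h1
    · rw [h1, hB11]
    · rw [h1, Matrix.neg_apply, hB11, neg_zero]
  have h2 : 1 + (1 - w) * d = 0 := by
    rw [← hA11, hAe]
    rfl
  have h3 : (1 - w) * d = -1 := by linear_combination h2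
  have h4 := congrArg Complex.normSq h3
  rw [Complex.normSq_mul, thq_l hw, Complex.normSq_neg, map_one] at h4
  have hd0 : d ≠ 0 := by
    rintro rfl
    rw [map_zero, mul_zero] at h4
    exact zero_ne_one h4
  have h5 := oz_one_le hw hd hd0
  linarith

end Pool.Agent.HSG
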