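import Pool.Agent.HSG.Cas
import Pool.Agent.HSG.Eig
import Pool.Agent.HSG.Thq

/-!
# HSG/Asm: the theorem in normal form

PROOF PLAN.  `comm_lat`: `t τ ∈ ⁅Γ, Γ⁆`, `τ ≠ 0`: `t τ ∈ Γ`, so `τ = a + b (x + y w)` (`per`), `b ≠ 0` (otherwise `t (|a| : ℂ) ∈ ⁅Γ, Γ⁆`, against `inf`), so `τ = x' + y' w` with `4 ≤ |y'|`.
`NF.main`: `A₀` minimal (`exists_min`), `r = normSq (A₀.1 1 0)`.  `sorted` gives a pair with `2 σ = ± τ`, so `12 ≤ normSq (2 σ)`, `3 ≤ normSq σ` (`oz_twelve`), and `inq1` (with `PT.id1`, `id3`, `ne_*`): `normSq (A.1 1 0) ≤ 3`, so `r ≤ 3`.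
If `r = 3`: `NF.n3`, `N3.false`.  If `r < 3`: `NF.ng`: shifted groups `cj (t p) Γ`, with the elements `(t p)⁻¹ * a * t p`, the same `τ` (`t_comm`); `sorted` for them, `NG.q_int`, `NG.eight`: `cj (t p) Γ = F8 v`.
-/

set_option autoImplicit false

noncomputable section

namespace Pool.Agent.HSG

open Pool.Agent.HSK Matrix
open scoped MatrixGroups commutatorElement

variable {Γ Δ : Subgroup PSL(2, ℂ)} {w : ℂ}

private theorem asm_lat (h : NF Γ Δ w) {τ : ℂ} (hτ : t τ ∈ ⁅Γ, Γ⁆) (h0 : τ ≠ 0) : ∃ x y : ℤ, 4 ≤ |y| ∧ τ = x + y * w := by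
  obtain ⟨x, y, hy, hper⟩ := h.per
  have hle : ⁅Γ, Γ⁆ ≤ Γ := Subgroup.commutator_le.2 fun a ha b hb => by
    rw [commutatorElement_def]
    exact Γ.mul_mem (Γ.mul_mem (Γ.mul_mem ha hb) (Γ.inv_mem ha)) (Γ.inv_mem hb)
  obtain ⟨a, b, hab⟩ := (hper τ).1 (hle hτ)
  by_cases hb : b = 0
  · exfalso
    rw [hb, Int.cast_zero, zero_mul, add_zero] at hab
    have ha : a ≠ 0 := by
      intro ha
      apply h0
      rw [hab, ha, Int.cast_zero]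
    have hm : 0 < a.natAbs := Int.natAbs_pos.2 ha
    apply h.inf a.natAbs hm
    rcases Int.natAbs_eq a with h1 | h1
    · have h2 : ((a.natAbs : ℕ) : ℂ) = τ := by
        rw [hab]
        have h3 : ((a.natAbs : ℤ) : ℂ) = ((a : ℤ) : ℂ) := by
          congr 1
          omega
        rw [Int.cast_natCast] at h3
        exact h3
      rw [h2]
      exact hτ
    · have h2 : ((a.natAbs : ℕ) : ℂ) = -τ := by
        rw [hab]
        have h3 : ((a.natAbs : ℤ) : ℂ) = ((-a : ℤ) : ℂ) := by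
          congr 1
          omega
        rw [Int.cast_natCast, Int.cast_neg] at h3
        exact h3
      rw [h2, t_neg]
      exact Subgroup.inv_mem _ hτ
  · refine ⟨a + b * x, b * y, ?_, ?_⟩
    · rw [abs_mul]
      have h1 : 1 ≤ |b| := Int.one_le_abs hb
      nlinarith [abs_nonneg y]
    · rw [hab]
      push_cast
      ring

private theorem asm_pair (h : NF Γ Δ w) {a b : PSL(2, ℂ)} (ha : a ∈ Γ) (hb : b ∈ Γ) {τ : ℂ} (hτ : τ ≠ 0)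
    (hab : a * b * a⁻¹ * b⁻¹ = t τ) : ∃ (A B : SL(2, ℂ)) (σ : ℂ), PT Γ σ A B ∧
      Complex.normSq (A.1 1 0) ≤ Complex.normSq (B.1 1 0) ∧
      Complex.normSq (B.1 1 0) ≤ Complex.normSq ((A * B).1 1 0) ∧
      Complex.normSq ((A * B).1 1 0) ≤ Complex.normSq ((A * B⁻¹).1 1 0) ∧
      (∃ x y : ℤ, 4 ≤ |y| ∧ 2 * σ = x + y * w) ∧ 3 ≤ Complex.normSq σ := by
  obtain ⟨A, B, σ, hσ, hp, a1, a2, a3⟩ := h.sorted ha hb hτ hab
  have hmem : t τ ∈ ⁅Γ, Γ⁆ := by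
    rw [← hab, ← commutatorElement_def]
    exact Subgroup.commutator_mem_commutator ha hb
  obtain ⟨x, y, hy, hxy⟩ := asm_lat h hmem hτ
  have hlat : ∃ x y : ℤ, 4 ≤ |y| ∧ 2 * σ = x + y * w := by
    rcases hσ with h1 | h1
    · exact ⟨x, y, hy, by rw [h1, hxy]⟩
    · refine ⟨-x, -y, by rw [abs_neg]; exact hy, ?_⟩
      rw [h1, hxy]
      push_cast
      ring
  refine ⟨A, B, σ, hp, a1, a2, a3, hlat, ?_⟩
  obtain ⟨x', y', hy', hxy'⟩ := hlat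
  have h2 := (oz_twelve h.w2 (x := x') hy').1
  rw [← hxy', Complex.normSq_mul] at h2
  have h3 : Complex.normSq 2 = 4 := by
    rw [Complex.normSq_apply]
    norm_num
  rw [h3] at h2
  linarith

private theorem asm_le (h : NF Γ Δ w) {A B : SL(2, ℂ)} {σ : ℂ} (hp : PT Γ σ A B)
    (a1 : Complex.normSq (A.1 1 0) ≤ Complex.normSq (B.1 1 0))
    (a2 : Complex.normSq (B.1 1 0) ≤ Complex.normSq ((A * B).1 1 0))
    (a3 : Complex.normSq ((A * B).1 1 0) ≤ Complex.normSq ((A * B⁻¹).1 1 0)) (h3 : 3 ≤ Complex.normSq σ) :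
    Complex.normSq (A.1 1 0) ≤ 3 := by
  have hσ : σ ≠ 0 := by
    intro h0
    rw [h0, map_zero] at h3
    norm_num at h3
  exact inq1 (hp.ne_a h.tf) (hp.ne_b h.tf) (hp.cyc.ne_a h.tf) (hp.id1 hσ) (hp.id3 hσ) a1 a2 a3 h3

theorem NF.comm_lat (h : NF Γ Δ w) {τ : ℂ} (hτ : t τ ∈ ⁅Γ, Γ⁆) (h0 : τ ≠ 0) : ∃ x y : ℤ, 4 ≤ |y| ∧ τ = x + y * w := by
  exact asm_lat h hτ h0

theorem NF.main (h : NF Γ Δ w) {a b : PSL(2, ℂ)} (ha : a ∈ Γ) (hb : b ∈ Γ) {τ : ℂ} (hτ : τ ≠ 0) (hab : a * b * a⁻¹ * b⁻¹ = t τ) :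
    ∃ p v : ℂ, v ^ 2 + v + 1 = 0 ∧ cj (t p) Γ = F8 v := by
  obtain ⟨A₀, hA₀, h00, hmin⟩ := h.exists_min
  obtain ⟨A, B, σ, hp, a1, a2, a3, hlat, h3⟩ := asm_pair h ha hb hτ hab
  have hle := asm_le h hp a1 a2 a3 h3
  have hr : Complex.normSq (A₀.1 1 0) ≤ 3 := (hmin A (h.le hp.a) (hp.ne_a h.tf)).trans hle
  rcases lt_or_eq_of_le hr with hr1 | hr1
  · obtain ⟨p, κ, g, hng⟩ := h.ng hA₀ h00 hmin hr1
    have hab' : ((t p)⁻¹ * a * t p) * ((t p)⁻¹ * b * t p) * ((t p)⁻¹ * a * t p)⁻¹ * ((t p)⁻¹ * b * t p)⁻¹ = t τ := by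
      have e : ((t p)⁻¹ * a * t p) * ((t p)⁻¹ * b * t p) * ((t p)⁻¹ * a * t p)⁻¹ * ((t p)⁻¹ * b * t p)⁻¹ =
          (t p)⁻¹ * (a * b * a⁻¹ * b⁻¹) * t p := by group
      rw [e, hab, mul_assoc, (t_comm τ p).eq, inv_mul_cancel_left]
    obtain ⟨A', B', σ', hp', a1', a2', a3', -, h3'⟩ := asm_pair hng.nf (mem_cj' ha) (mem_cj' hb) hτ hab'
    obtain ⟨v, hv, hF⟩ := hng.eight (hng.q_int h3' hp' a1' a2' a3')
    exact ⟨p, v, hv, hF⟩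
  · exfalso
    obtain ⟨p, hN⟩ := h.n3 (fun C hC hC0 => by rw [← hr1]; exact hmin C hC hC0) hlat hp a1 a2 a3
    exact hN.false

end Pool.Agent.HSG
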