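import Pool.Agent.HSG.Sml
import Pool.Agent.HSG.Srt

/-!
# HSG/Cas: genus one and `r < 3`: the parameter is an Eisenstein integer

`r = normSq κ`; suppose `κ ^ 2 ∉ Oz w`, so `2.1 < r` (`NG.small`).  Let `X, Y, Z, Z'` be the lower left entries of `A, B, A * B, A * B⁻¹`.
(i) `3 ≤ normSq X`: `normSq X = 3`, `NG.near` for `A`.
(ii) `normSq X = normSq Y = r`: `r ^ 4 ≤ normSq (Z * Z') = normSq (X ^ 2 + Y ^ 2) ≤ 4 r ^ 2`.
(iii) `normSq X = r`, `3 ≤ normSq Y`: `σ ∈ Oz w`; `inq3`, `inq4`, `inq5`, `inq6` and `NG.near` for `B`.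
-/

set_option autoImplicit false

noncomputable section

namespace Pool.Agent.HSG

open Pool.Agent.HSK Matrix
open scoped MatrixGroups commutatorElement

variable {Γ Δ : Subgroup PSL(2, ℂ)} {w κ : ℂ} {g : SL(2, ℂ)}

theorem NG.near (h : NG Γ Δ w κ g) {D : SL(2, ℂ)} (hD : cls D ∈ Δ) (h0 : D.1 1 0 ≠ 0)
    (hc : Complex.normSq κ * (1 / 3) * Complex.normSq (D.1 1 0) < 3) :
    Complex.normSq (D.1 1 0) = Complex.normSq κ ∨ Complex.normSq κ ^ 2 ≤ Complex.normSq (D.1 1 0) := by
  obtain ⟨β, hβ, hn⟩ := oz_near h.nf.w2 (pt D)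
  by_cases he : pt D = β
  · left
    exact h.conv hD h0 (he ▸ hβ)
  · right
    have hyb : pt D - β ≠ 0 := sub_ne_zero.2 he
    have hM : cls (g * (T (-β) * D)) ∈ Δ := by
      rw [cls_mul, cls_mul]
      exact Δ.mul_mem h.gm (Δ.mul_mem (h.nf.t_mem (oz_neg hβ)) hD)
    have hpD : D.1 0 0 = pt D * D.1 1 0 := by
      unfold pt
      rw [div_mul_cancel₀ _ h0]
    have e10 : (g * (T (-β) * D)).1 1 0 = κ * ((pt D - β) * D.1 1 0) := by
      rw [Matrix.SpecialLinearGroup.coe_mul, Matrix.mul_apply, Fin.sum_univ_two, T_mul_coe, h.gc]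
      simp only [Matrix.of_apply, Matrix.cons_val', Matrix.cons_val_zero, Matrix.cons_val_one, Matrix.cons_val_fin_one]
      rw [hpD]
      ring
    have e00 : (g * (T (-β) * D)).1 0 0 = -κ⁻¹ * D.1 1 0 := by
      rw [Matrix.SpecialLinearGroup.coe_mul, Matrix.mul_apply, Fin.sum_univ_two, T_mul_coe, h.gc]
      simp only [Matrix.of_apply, Matrix.cons_val', Matrix.cons_val_zero, Matrix.cons_val_one, Matrix.cons_val_fin_one]
      ring
    have hne : (g * (T (-β) * D)).1 1 0 ≠ 0 := by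
      rw [e10]
      exact mul_ne_zero h.k0 (mul_ne_zero hyb h0)
    have hnorm : Complex.normSq ((g * (T (-β) * D)).1 1 0) =
        Complex.normSq κ * (Complex.normSq (pt D - β) * Complex.normSq (D.1 1 0)) := by
      rw [e10, Complex.normSq_mul, Complex.normSq_mul]
    have hr : 0 < Complex.normSq κ := Complex.normSq_pos.2 h.k0
    have hcp : 0 < Complex.normSq (D.1 1 0) := Complex.normSq_pos.2 h0
    have hyp : 0 < Complex.normSq (pt D - β) := Complex.normSq_pos.2 hyb
    rcases h.gap hM hne with h1 | h1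
    · have h2 := h.full _ hM h1
      have h3 : pt (g * (T (-β) * D)) ≠ 0 := by
        unfold pt
        rw [e00]
        exact div_ne_zero (mul_ne_zero (neg_ne_zero.2 (inv_ne_zero h.k0)) h0) hne
      have h4 := oz_one_le h.nf.w2 h2 h3
      have h5 : Complex.normSq (pt (g * (T (-β) * D))) * (Complex.normSq κ ^ 2 * Complex.normSq (pt D - β)) = 1 := by
        have e5 : pt (g * (T (-β) * D)) = (g * (T (-β) * D)).1 0 0 / (g * (T (-β) * D)).1 1 0 := rfl
        rw [e5, e00, Complex.normSq_div, hnorm, Complex.normSq_mul, Complex.normSq_neg, Complex.normSq_inv]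
        field_simp
      rw [hnorm] at h1
      have h6 : Complex.normSq (pt D - β) * Complex.normSq (D.1 1 0) = 1 := by
        have h7 : Complex.normSq κ * (Complex.normSq (pt D - β) * Complex.normSq (D.1 1 0)) = Complex.normSq κ * 1 := by
          rw [h1, mul_one]
        exact mul_left_cancel₀ hr.ne' h7
      have h8 : Complex.normSq κ ^ 2 * Complex.normSq (pt D - β) ≤ 1 := by
        rw [← h5]
        exact le_mul_of_one_le_left (by positivity) h4
      calc Complex.normSq κ ^ 2 = Complex.normSq κ ^ 2 * Complex.normSq (pt D - β) * Complex.normSq (D.1 1 0) := by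
            rw [mul_assoc, h6, mul_one]
        _ ≤ 1 * Complex.normSq (D.1 1 0) := mul_le_mul_of_nonneg_right h8 hcp.le
        _ = Complex.normSq (D.1 1 0) := one_mul _
    · exfalso
      rw [hnorm] at h1
      have h2 : Complex.normSq (pt D - β) * Complex.normSq (D.1 1 0) ≤ 1 / 3 * Complex.normSq (D.1 1 0) :=
        mul_le_mul_of_nonneg_right hn hcp.le
      have h3 := mul_le_mul_of_nonneg_left h2 hr.le
      linarith

private theorem cas_inv (A : SL(2, ℂ)) : (A⁻¹).1 1 0 = -A.1 1 0 := by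
  rw [inv_coe]
  simp

private theorem cas_norm (X Y : ℂ) {r : ℝ} (hX : Complex.normSq X = r) (hY : Complex.normSq Y = r) :
    Complex.normSq (X ^ 2 + Y ^ 2) ≤ 4 * r ^ 2 := by
  rw [Complex.normSq_eq_norm_sq] at hX hY ⊢
  have h1 : ‖X ^ 2 + Y ^ 2‖ ≤ 2 * r := by
    refine (norm_add_le _ _).trans ?_
    rw [norm_pow, norm_pow, hX, hY]
    linarith
  have h2 : 0 ≤ ‖X ^ 2 + Y ^ 2‖ := norm_nonneg _
  nlinarith

theorem NG.q_int (h : NG Γ Δ w κ g) {A B : SL(2, ℂ)} {σ : ℂ} (hσ : 3 ≤ Complex.normSq σ) (hp : PT Γ σ A B)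
    (a1 : Complex.normSq (A.1 1 0) ≤ Complex.normSq (B.1 1 0)) (a2 : Complex.normSq (B.1 1 0) ≤ Complex.normSq ((A * B).1 1 0))
    (a3 : Complex.normSq ((A * B).1 1 0) ≤ Complex.normSq ((A * B⁻¹).1 1 0)) : κ ^ 2 ∈ Oz w := by
  rcases h.small with hq | hr
  · exact hq
  exfalso
  have htf := h.nf.tf
  have hσ0 : σ ≠ 0 := by
    rintro rfl
    rw [map_zero] at hσ
    norm_num at hσ
  have hX := hp.ne_a htf
  have hY := hp.ne_b htf
  have hZ := hp.cyc.ne_a htf
  have hZ' := hp.flip.ne_a htf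
  have i1 := hp.id1 hσ0
  have i2 := hp.id2 hσ0
  have i3 := hp.id3 hσ0
  have hA : cls A ∈ Δ := h.nf.le hp.a
  have hB : cls B ∈ Δ := h.nf.le hp.b
  have hAi : cls A⁻¹ ∈ Δ := by
    rw [cls_inv]
    exact Δ.inv_mem hA
  have hBi : cls B⁻¹ ∈ Δ := by
    rw [cls_inv]
    exact Δ.inv_mem hB
  have hr3 := h.lt
  have hX3 := inq1 hX hY hZ i1 i3 a1 a2 a3 hσ
  rcases h.gap hA hX with hXr | hX3'
  · have hAic : Complex.normSq ((A⁻¹).1 1 0) = Complex.normSq κ := by
      rw [cas_inv, Complex.normSq_neg, hXr]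
    have pA := h.full A hA hXr
    have pAi := h.full A⁻¹ hAi hAic
    rcases h.gap hB hY with hYr | hY3
    · have hBic : Complex.normSq ((B⁻¹).1 1 0) = Complex.normSq κ := by
        rw [cas_inv, Complex.normSq_neg, hYr]
      have pB := h.full B hB hYr
      have pBi := h.full B⁻¹ hBi hBic
      have hBi0 : (B⁻¹).1 1 0 ≠ 0 := by
        rw [cas_inv]
        exact neg_ne_zero.2 hY
      have z1 := c_mul (A := A) (B := B) hX hY
      have z2 := c_mul (A := A) (B := B⁻¹) hX hBi0
      have n1 : pt B - pt A⁻¹ ≠ 0 := by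
        intro h0
        rw [h0, mul_zero] at z1
        exact hZ z1
      have n2 : pt B⁻¹ - pt A⁻¹ ≠ 0 := by
        intro h0
        rw [h0, mul_zero] at z2
        exact hZ' z2
      have o1 := oz_one_le h.nf.w2 (oz_sub pB pAi) n1
      have o2 := oz_one_le h.nf.w2 (oz_sub pBi pAi) n2
      have w1 : Complex.normSq κ ^ 2 ≤ Complex.normSq ((A * B).1 1 0) := by
        rw [z1, Complex.normSq_mul, Complex.normSq_mul, hXr, hYr, ← pow_two]
        exact le_mul_of_one_le_right (sq_nonneg _) o1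
      have w2 : Complex.normSq κ ^ 2 ≤ Complex.normSq ((A * B⁻¹).1 1 0) := by
        rw [z2, Complex.normSq_mul, Complex.normSq_mul, hXr, hBic, ← pow_two]
        exact le_mul_of_one_le_right (sq_nonneg _) o2
      have w3 := cas_norm _ _ hXr hYr
      rw [← i3, Complex.normSq_mul] at w3
      have w4 : Complex.normSq κ ^ 2 * Complex.normSq κ ^ 2 ≤ 4 * Complex.normSq κ ^ 2 :=
        (mul_le_mul w1 w2 (sq_nonneg _) (Complex.normSq_nonneg _)).trans w3
      have w5 : 4 < Complex.normSq κ ^ 2 := by nlinarith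
      nlinarith
    · have hσO : σ ∈ Oz w := by
        have e1 := trace_pt hX
        rw [hp.tr_a, mul_comm] at e1
        rw [mul_left_cancel₀ hX e1]
        exact oz_sub pA pAi
      have j3 := inq3 hX hY i2 i3 a2 a3
      rw [hXr] at j3
      by_cases h4 : 4 ≤ Complex.normSq σ
      · exact inq4 hr hr3 hY3 h4 j3
      · have hσ3 : Complex.normSq σ = 3 := by
          refine le_antisymm ?_ hσ
          by_contra h5
          exact h4 (oz_four h.nf.w2 hσO (not_le.1 h5))
        rw [hσ3] at j3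
        have j5 := inq5 hr hr3 hY3 j3
        rcases h.near hB hY j5 with h6 | h6
        · linarith
        · exact inq6 hr h6 j3
  · have hXe : Complex.normSq (A.1 1 0) = 3 := le_antisymm hX3 hX3'
    rcases h.near hA hX (by rw [hXe]; linarith) with h6 | h6
    · linarith
    · rw [hXe] at h6
      nlinarith

end Pool.Agent.HSG
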