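import Pool.Agent.HSG.Asm
import Pool.Agent.HSG.Nfo

/-!
# HSG/Fnl: the theorem for knot groups

After a conjugation which takes the meridian to `t 1` the knot group is in normal form (`nf_of`),
the commutator is a translation, and `NF.main` applies.
-/

set_option autoImplicit false

noncomputable section

namespace Pool.Agent.HSG

open Pool.Agent.HSK Matrix
open scoped MatrixGroups commutatorElement

variable {Γ Δ : Subgroup PSL(2, ℂ)} {μ : PSL(2, ℂ)}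

theorem genus_one (hΓ : IsKnotGroup Γ μ) (h1 : Γ ≤ Δ) (h2 : Δ ≤ Subgroup.Commensurable.commensurator Γ)
    (hd : DiscreteTopology Δ) (hn : ¬ Δ ≤ Subgroup.normalizer (Γ : Set PSL(2, ℂ)))
    (hi : (∀ A : SL(2, ℂ), cls A ∈ Γ → IsIntegral ℤ A.1.trace) ∨ MeridianGenerates Δ μ) {n : ℕ} (hn0 : 0 < n) (hc : IsCuspOrder Δ μ n) (hn4 : n ≠ 4)
    (h12 : 4 * n ≤ Γ.relIndex Δ) {a b : PSL(2, ℂ)} (ha : a ∈ Γ) (hb : b ∈ Γ) (hne : a * b * a⁻¹ * b⁻¹ ≠ 1)
    (hcm : Commute (a * b * a⁻¹ * b⁻¹) μ) :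
    ∃ (q : PSL(2, ℂ)) (v : ℂ), v ^ 2 + v + 1 = 0 ∧ q * t 1 * q⁻¹ = μ ∧ Γ = (F8 v).map (MulAut.conj q).toMonoidHom := by
  obtain ⟨hμ1, M, hM, htr⟩ := hΓ.parabolic
  have hM1 : M ≠ 1 := by
    rintro rfl
    exact hμ1 (by rw [← hM, cls_one])
  obtain ⟨P, hP⟩ := par_form htr hM1
  have hp : cls P * t 1 * (cls P)⁻¹ = μ := by
    rw [← hM]
    have h3 : cls M * cls P = cls P * t 1 := by
      show cls (M * P) = cls (P * T 1)
      rw [hP]
    rw [← h3]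
    group
  have hsurj : ∀ (p : PSL(2, ℂ)) (S : Subgroup PSL(2, ℂ)), (cj p S).map (MulAut.conj p).toMonoidHom = S :=
    fun p S => Subgroup.map_comap_eq_self_of_surjective (MulAut.conj p).surjective S
  have hMG : MeridianGenerates Δ μ := by
    rcases hi with hi | hi
    · obtain ⟨n', -, -, -, -, -, -, -, -, h5, -⟩ := main3 hΓ h1 h2 hd hn
      exact h5 hi
    · exact hi
  obtain ⟨w, hnf⟩ := nf_of hΓ h1 h2 hd hn hp hMG hn0 hc hn4 h12
  obtain ⟨K, hK⟩ := cls_surj ((cls P)⁻¹ * (a * b * a⁻¹ * b⁻¹) * cls P)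
  have hcK : Commute (cls K) (t 1) := by
    rw [hK, ← comm_conj_iff (p := cls P), hp]
    have e : cls P * ((cls P)⁻¹ * (a * b * a⁻¹ * b⁻¹) * cls P) * (cls P)⁻¹ = a * b * a⁻¹ * b⁻¹ := by group
    rw [e]
    exact hcm
  obtain ⟨τ, hτ⟩ := comm_t1 hcK
  have hτ0 : τ ≠ 0 := by
    rintro rfl
    rw [t_zero, hK] at hτ
    apply hne
    have e : a * b * a⁻¹ * b⁻¹ = cls P * ((cls P)⁻¹ * (a * b * a⁻¹ * b⁻¹) * cls P) * (cls P)⁻¹ := by group
    rw [e, hτ]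
    group
  have hab : ((cls P)⁻¹ * a * cls P) * ((cls P)⁻¹ * b * cls P) * ((cls P)⁻¹ * a * cls P)⁻¹ *
      ((cls P)⁻¹ * b * cls P)⁻¹ = t τ := by
    rw [← hτ, hK]
    group
  obtain ⟨p, v, hv, hcj⟩ := hnf.main (mem_cj' ha) (mem_cj' hb) hτ0 hab
  refine ⟨cls P * t p, v, hv, ?_, ?_⟩
  · have e : cls P * t p * t 1 * (cls P * t p)⁻¹ = cls P * (t p * t 1 * (t p)⁻¹) * (cls P)⁻¹ := by group
    rw [e, (t_comm p 1).eq, mul_inv_cancel_right]
    exact hp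
  · have e2 : cj (cls P * t p) Γ = F8 v := by
      rw [← hcj]
      ext x
      rw [mem_cj, mem_cj, mem_cj]
      have e : cls P * t p * x * (cls P * t p)⁻¹ = cls P * (t p * x * (t p)⁻¹) * (cls P)⁻¹ := by group
      rw [e]
    rw [← e2]
    exact (hsurj _ _).symm

end Pool.Agent.HSG
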