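import Pool.Agent.HSG.Nf

/-!
# HSG/Shg: translation of the normal form

PROOF PLAN.  Conjugation by `T p` commutes with translations (`T_comm`), does not change lower left entries (`shift_c`, `mem_shift`) nor the `0 0` entry of upper triangular matrices; for `gen` and `inf` see `nd_of` in
HSK/Conj (`cj`, `mem_cj`, `mem_cj'`, `commutator_cj`).
-/

set_option autoImplicit false

noncomputable section

namespace Pool.Agent.HSG

open Pool.Agent.HSK Matrix
open scoped MatrixGroups commutatorElement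

variable {Γ Δ : Subgroup PSL(2, ℂ)} {w : ℂ}

private theorem shg_conj (p β : ℂ) : t p * t β * (t p)⁻¹ = t β := by
  rw [(t_comm p β).eq]
  group

private theorem shg_t {S : Subgroup PSL(2, ℂ)} (p β : ℂ) : t β ∈ cj (t p) S ↔ t β ∈ S := by
  rw [mem_cj, shg_conj]

private theorem shg_T (p : ℂ) (B : SL(2, ℂ)) : T p * (T (-p) * B * T p) * T (-p) = B := by
  rw [T_neg]
  group

private theorem shg_mem {S : Subgroup PSL(2, ℂ)} (p : ℂ) {B : SL(2, ℂ)} (hB : cls B ∈ S) :
    cls (T (-p) * B * T p) ∈ cj (t p) S := by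
  rw [mem_shift, shg_T]
  exact hB

private theorem shg_c (p : ℂ) (B : SL(2, ℂ)) : (T (-p) * B * T p).1 1 0 = B.1 1 0 := by
  have h := (shift_c (-p) B).1
  rwa [neg_neg] at h

private theorem shg_gen {p : ℂ} (h : NGen Γ (t 1)) : NGen (cj (t p) Γ) (t 1) := by
  intro x hx
  have key : ∀ y ∈ Subgroup.closure {x | ∃ γ ∈ Γ, x = γ * t 1 * γ⁻¹},
      (t p)⁻¹ * y * t p ∈ Subgroup.closure {x | ∃ γ ∈ cj (t p) Γ, x = γ * t 1 * γ⁻¹} := by
    intro y hy
    refine Subgroup.closure_induction (p := fun y _ => (t p)⁻¹ * y * t p ∈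
      Subgroup.closure {x | ∃ γ ∈ cj (t p) Γ, x = γ * t 1 * γ⁻¹}) ?_ ?_ ?_ ?_ hy
    · rintro _ ⟨γ, hγ, rfl⟩
      refine Subgroup.subset_closure ⟨(t p)⁻¹ * γ * t p, mem_cj' hγ, ?_⟩
      have h1 := shg_conj p 1
      calc (t p)⁻¹ * (γ * t 1 * γ⁻¹) * t p
          = (t p)⁻¹ * (γ * (t p * t 1 * (t p)⁻¹) * γ⁻¹) * t p := by rw [h1]
        _ = (t p)⁻¹ * γ * t p * t 1 * ((t p)⁻¹ * γ * t p)⁻¹ := by group
    · have h1 : (t p)⁻¹ * 1 * t p = 1 := by group
      show (t p)⁻¹ * 1 * t p ∈ _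
      rw [h1]
      exact Subgroup.one_mem _
    · intro y z _ _ hy hz
      have h1 : (t p)⁻¹ * (y * z) * t p = ((t p)⁻¹ * y * t p) * ((t p)⁻¹ * z * t p) := by group
      rw [h1]
      exact Subgroup.mul_mem _ hy hz
    · intro y _ hy
      have h1 : (t p)⁻¹ * y⁻¹ * t p = ((t p)⁻¹ * y * t p)⁻¹ := by group
      rw [h1]
      exact Subgroup.inv_mem _ hy
  have h3 := key _ (h (mem_cj.1 hx))
  have h4 : (t p)⁻¹ * (t p * x * (t p)⁻¹) * t p = x := by group
  rwa [h4] at h3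

theorem NF.shift (h : NF Γ Δ w) (p : ℂ) : NF (cj (t p) Γ) (cj (t p) Δ) w where
  w2 := h.w2
  le := Subgroup.comap_mono h.le
  one := (shg_t p 1).2 h.one
  gen := shg_gen h.gen
  tf := by
    intro g hg n hn hgn
    have h1 : (t p * g * (t p)⁻¹) ^ n = 1 := by
      rw [conj_pow, hgn]
      group
    have h2 := h.tf _ (mem_cj.1 hg) n hn h1
    have h3 : g = (t p)⁻¹ * (t p * g * (t p)⁻¹) * t p := by group
    rw [h3, h2]
    group
  lat := fun β => (shg_t p β).trans (h.lat β)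
  up := by
    intro A hA hc
    have h1 := (shift_c p A).1
    rw [hc] at h1
    have h2 := h.up _ (mem_shift.1 hA) h1
    have h3 : (T p * A * T (-p)).1 0 0 = A.1 0 0 := by
      rw [mul_T_coe, T_mul_coe]
      simp [hc]
    rwa [h3] at h2
  cusp := by
    intro A hA
    obtain ⟨B, hB, hB0⟩ := h.cusp _ (mem_shift.1 hA)
    refine ⟨T (-p) * B * T p, shg_mem p hB, ?_⟩
    have h1 : T (-p) * B * T p * A = T (-p) * (B * (T p * A * T (-p))) * T p := by
      rw [T_neg]
      group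
    rw [h1, shg_c]
    exact hB0
  fin := by
    intro R
    refine (h.fin R).subset ?_
    rintro x ⟨hx, A, hA, hAx⟩
    refine ⟨hx, T p * A * T (-p), mem_shift.1 hA, ?_⟩
    rw [(shift_c p A).1]
    exact hAx
  ex := by
    obtain ⟨A, hA, hA0⟩ := h.ex
    refine ⟨T (-p) * A * T p, shg_mem p hA, ?_⟩
    rw [shg_c]
    exact hA0
  per := by
    obtain ⟨x, y, hy, hxy⟩ := h.per
    exact ⟨x, y, hy, fun β => (shg_t p β).trans (hxy β)⟩
  inf := by
    intro m hm hmem
    have h1 := commutator_cj hmem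
    rw [shg_conj] at h1
    exact h.inf m hm h1

end Pool.Agent.HSG
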