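import Pool.Agent.HSG.Shf
import Pool.Agent.HSG.Shg

/-!
# HSG/Ful: minimal entry less than `√3`: all full points are Eisenstein integers

PROOF PLAN.  `NF.ng`: `A₀` minimal, `r = normSq (A₀.1 1 0) < 3`, `p = pt A₀`, `κ = A₀.1 1 0`.  If `normSq (A.1 1 0) = r`, choose `β ∈ Oz w` with `normSq (pt A - p - β) ≤ 1/3` (`oz_near`); `A⁻¹ * (T β * A₀)` has the
lower left entry `A.1 1 0 * A₀.1 1 0 * (pt A - (p + β))` (`c_inv_mul`, `pt_T`), of squared modulus `≤ r ^ 2 / 3 < r`, so it is zero: `pt A = p + β`.  In the shifted groups (`NF.shift`, `mem_shift`, `shift_c`) `full` and `min` hold.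
`g`: `A₀' = T (-p) * A₀ * T p` has `0 0` entry zero; `pt A₀'⁻¹ ∈ Oz w` (`A₀'⁻¹` is full), so `A₀' * T (pt A₀'⁻¹)` has `1 1` entry zero, `0 1` entry `-κ⁻¹` (determinant).
`NG.conv`: a lattice point is full: `T β * g`.  `NG.gap`: `normSq (A.1 1 0) < 3`, `β ∈ Oz w` near `pt A⁻¹` (`pt_inv`), `A * (T β * g)` (lower left entry `κ * A.1 1 0 * (β - pt A⁻¹)`) has squared modulus `≤ r / 3 * normSq (A.1 1 0) < r`,
so it is zero, `pt A⁻¹ = β = pt (T β * g)`, `same_pt`.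
-/

set_option autoImplicit false

noncomputable section

namespace Pool.Agent.HSG

open Pool.Agent.HSK Matrix
open scoped MatrixGroups commutatorElement

/-- normal form in which the points with minimal entry (`normSq = normSq κ < 3`) are Eisenstein integers; `g` is `z ↦ -1 / (κ ^ 2 z)` -/
structure NG (Γ Δ : Subgroup PSL(2, ℂ)) (w κ : ℂ) (g : SL(2, ℂ)) : Prop where
  nf : NF Γ Δ w
  k0 : κ ≠ 0
  gm : cls g ∈ Δ
  gc : g.1 = !![0, -κ⁻¹; κ, 0]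
  lt : Complex.normSq κ < 3
  min : ∀ A : SL(2, ℂ), cls A ∈ Δ → A.1 1 0 ≠ 0 → Complex.normSq κ ≤ Complex.normSq (A.1 1 0)
  full : ∀ A : SL(2, ℂ), cls A ∈ Δ → Complex.normSq (A.1 1 0) = Complex.normSq κ → pt A ∈ Oz w

variable {Γ Δ : Subgroup PSL(2, ℂ)} {w κ : ℂ} {g : SL(2, ℂ)}

private theorem Ful_mul {S : Subgroup PSL(2, ℂ)} {A B : SL(2, ℂ)} (hA : cls A ∈ S) (hB : cls B ∈ S) : cls (A * B) ∈ S := by
  rw [cls_mul]
  exact S.mul_mem hA hB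

private theorem Ful_inv {S : Subgroup PSL(2, ℂ)} {A : SL(2, ℂ)} (hA : cls A ∈ S) : cls A⁻¹ ∈ S := by
  rw [cls_inv]
  exact S.inv_mem hA

private theorem Ful_cinv (A : SL(2, ℂ)) : (A⁻¹).1 1 0 = -A.1 1 0 := by
  rw [inv_coe]
  rfl

private theorem Ful_cT (β : ℂ) (A : SL(2, ℂ)) : (T β * A).1 1 0 = A.1 1 0 := by
  rw [T_mul_coe]
  rfl

/-- a full point differs from the first one by an Eisenstein integer -/
private theorem Ful_pt (h : NF Γ Δ w) {A₀ A : SL(2, ℂ)} (hA : cls A₀ ∈ Δ) (h0 : A₀.1 1 0 ≠ 0)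
    (hm : ∀ B : SL(2, ℂ), cls B ∈ Δ → B.1 1 0 ≠ 0 → Complex.normSq (A₀.1 1 0) ≤ Complex.normSq (B.1 1 0))
    (h3 : Complex.normSq (A₀.1 1 0) < 3) (hA' : cls A ∈ Δ)
    (hr : Complex.normSq (A.1 1 0) = Complex.normSq (A₀.1 1 0)) : pt A - pt A₀ ∈ Oz w := by
  have hpos : 0 < Complex.normSq (A₀.1 1 0) := Complex.normSq_pos.2 h0
  have h0' : A.1 1 0 ≠ 0 := by
    rw [← hr] at hpos
    exact Complex.normSq_pos.1 hpos
  obtain ⟨β, hβ, hn⟩ := oz_near h.w2 (pt A - pt A₀)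
  have h1 : (T β * A₀).1 1 0 ≠ 0 := by
    rw [Ful_cT]
    exact h0
  have h2 : (A⁻¹ * (T β * A₀)).1 1 0 = A.1 1 0 * A₀.1 1 0 * (pt A - pt A₀ - β) := by
    rw [c_inv_mul h0' h1, pt_T β h0, Ful_cT]
    ring
  have h4 : cls (A⁻¹ * (T β * A₀)) ∈ Δ := Ful_mul (Ful_inv hA') (Ful_mul (h.t_mem hβ) hA)
  have h5 : pt A - pt A₀ - β = 0 := by
    by_contra hne
    have h6 : (A⁻¹ * (T β * A₀)).1 1 0 ≠ 0 := by
      rw [h2]
      exact mul_ne_zero (mul_ne_zero h0' h0) hne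
    have h7 := hm _ h4 h6
    rw [h2, map_mul, map_mul, hr] at h7
    nlinarith [mul_pos hpos hpos, mul_le_mul_of_nonneg_left hn (mul_pos hpos hpos).le]
  rw [sub_eq_zero.1 h5]
  exact hβ

theorem NF.ng (h : NF Γ Δ w) {A₀ : SL(2, ℂ)} (hA : cls A₀ ∈ Δ) (h0 : A₀.1 1 0 ≠ 0)
    (hm : ∀ B : SL(2, ℂ), cls B ∈ Δ → B.1 1 0 ≠ 0 → Complex.normSq (A₀.1 1 0) ≤ Complex.normSq (B.1 1 0))
    (h3 : Complex.normSq (A₀.1 1 0) < 3) : ∃ (p κ : ℂ) (g : SL(2, ℂ)), NG (cj (t p) Γ) (cj (t p) Δ) w κ g := by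
  have hs := h.shift (pt A₀)
  have hfull : ∀ A : SL(2, ℂ), cls A ∈ cj (t (pt A₀)) Δ → Complex.normSq (A.1 1 0) = Complex.normSq (A₀.1 1 0) →
      pt A ∈ Oz w := by
    intro A hA1 hr
    have h1 := mem_shift.1 hA1
    obtain ⟨h2, h2'⟩ := shift_c (pt A₀) A
    have hpos : 0 < Complex.normSq (A.1 1 0) := by
      rw [hr]
      exact Complex.normSq_pos.2 h0
    have h4 := Ful_pt h hA h0 hm h3 h1 (by rw [h2]; exact hr)
    rw [h2' (Complex.normSq_pos.1 hpos), add_sub_cancel_right] at h4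
    exact h4
  have hmin : ∀ A : SL(2, ℂ), cls A ∈ cj (t (pt A₀)) Δ → A.1 1 0 ≠ 0 →
      Complex.normSq (A₀.1 1 0) ≤ Complex.normSq (A.1 1 0) := by
    intro A hA1 hA2
    have h2 := (shift_c (pt A₀) A).1
    have h4 := hm _ (mem_shift.1 hA1) (by rw [h2]; exact hA2)
    rwa [h2] at h4
  obtain ⟨A₁, hA₁⟩ : ∃ A₁ : SL(2, ℂ), A₁ = T (-pt A₀) * A₀ * T (-(-pt A₀)) := ⟨_, rfl⟩
  obtain ⟨hc, hp⟩ := shift_c (-pt A₀) A₀
  rw [← hA₁] at hc hp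
  have hp1 : pt A₁ = 0 := by
    rw [hp h0]
    ring
  have hmem : cls A₁ ∈ cj (t (pt A₀)) Δ := by
    have e : T (pt A₀) * A₁ * T (-pt A₀) = A₀ := by
      rw [hA₁, neg_neg, T_neg]
      group
    rw [mem_shift, e]
    exact hA
  have h00 : A₁.1 0 0 = 0 := by
    have h1 : A₁.1 0 0 / A₁.1 1 0 = 0 := hp1
    rw [hc] at h1
    exact (div_eq_zero_iff.1 h1).resolve_right h0
  have hq : pt A₁⁻¹ ∈ Oz w := by
    refine hfull _ (Ful_inv hmem) ?_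
    rw [Ful_cinv, Complex.normSq_neg, hc]
  have hq1 : pt A₁⁻¹ * A₀.1 1 0 = -A₁.1 1 1 := by
    rw [pt_inv, hc, div_mul_cancel₀ _ h0]
  have hdet : A₁.1 0 1 * A₀.1 1 0 = -1 := by
    have h1 := A₁.2
    rw [Matrix.det_fin_two, h00, hc] at h1
    linear_combination -h1
  have h01 : A₁.1 0 1 = -(A₀.1 1 0)⁻¹ := by
    have h1 : A₁.1 0 1 = -1 / A₀.1 1 0 := (eq_div_iff h0).2 hdet
    rw [h1, neg_div, one_div]
  refine ⟨pt A₀, A₀.1 1 0, A₁ * T (pt A₁⁻¹), ⟨hs, h0, Ful_mul hmem (hs.t_mem hq), ?_, h3, hmin, hfull⟩⟩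
  rw [mul_T_coe, h00, hc, hq1, h01]
  ext i j
  fin_cases i <;> fin_cases j <;> simp

theorem NG.one_le (h : NG Γ Δ w κ g) : 1 ≤ Complex.normSq κ := by
  have h1 : g.1 1 0 = κ := by
    rw [h.gc]
    rfl
  have h2 := h.nf.shimizu h.gm (by rw [h1]; exact h.k0)
  rwa [h1] at h2

private theorem Ful_g (h : NG Γ Δ w κ g) : g.1 1 0 = κ ∧ pt g = 0 := by
  constructor
  · rw [h.gc]
    rfl
  · unfold pt
    rw [h.gc]
    simp

theorem NG.conv (h : NG Γ Δ w κ g) {A : SL(2, ℂ)} (hA : cls A ∈ Δ) (h0 : A.1 1 0 ≠ 0) (hp : pt A ∈ Oz w) :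
    Complex.normSq (A.1 1 0) = Complex.normSq κ := by
  obtain ⟨h1, h2⟩ := Ful_g h
  have h3 : g.1 1 0 ≠ 0 := by
    rw [h1]
    exact h.k0
  have h4 : (T (pt A) * g).1 1 0 ≠ 0 := by
    rw [Ful_cT]
    exact h3
  have h5 := h.nf.same_pt hA (Ful_mul (h.nf.t_mem hp) h.gm) h0 h4 (by rw [pt_T _ h3, h2, zero_add])
  rwa [Ful_cT, h1] at h5

theorem NG.gap (h : NG Γ Δ w κ g) {A : SL(2, ℂ)} (hA : cls A ∈ Δ) (h0 : A.1 1 0 ≠ 0) :
    Complex.normSq (A.1 1 0) = Complex.normSq κ ∨ 3 ≤ Complex.normSq (A.1 1 0) := by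
  by_contra hcon
  rw [not_or, not_le] at hcon
  obtain ⟨hne, hlt⟩ := hcon
  obtain ⟨h1, h2⟩ := Ful_g h
  have h3 : g.1 1 0 ≠ 0 := by
    rw [h1]
    exact h.k0
  obtain ⟨β, hβ, hn⟩ := oz_near h.nf.w2 (pt A⁻¹)
  have h4 : (T β * g).1 1 0 ≠ 0 := by
    rw [Ful_cT]
    exact h3
  have h5 : (A * (T β * g)).1 1 0 = A.1 1 0 * κ * -(pt A⁻¹ - β) := by
    rw [c_mul h0 h4, pt_T β h3, Ful_cT, h1, h2]
    ring
  have hpos : 0 < Complex.normSq κ := Complex.normSq_pos.2 h.k0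
  have hpos' : 0 < Complex.normSq (A.1 1 0) := Complex.normSq_pos.2 h0
  have h6 : pt A⁻¹ - β = 0 := by
    by_contra hz
    have h7 : (A * (T β * g)).1 1 0 ≠ 0 := by
      rw [h5]
      exact mul_ne_zero (mul_ne_zero h0 h.k0) (neg_ne_zero.2 hz)
    have h8 := h.min _ (Ful_mul hA (Ful_mul (h.nf.t_mem hβ) h.gm)) h7
    rw [h5, map_mul, map_mul, Complex.normSq_neg] at h8
    nlinarith [mul_pos hpos' hpos, mul_le_mul_of_nonneg_left hn (mul_pos hpos' hpos).le]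
  have h9 : (A⁻¹).1 1 0 ≠ 0 := by
    rw [Ful_cinv]
    exact neg_ne_zero.2 h0
  have h10 := h.conv (Ful_inv hA) h9 (by rw [sub_eq_zero.1 h6]; exact hβ)
  rw [Ful_cinv, Complex.normSq_neg] at h10
  exact hne h10

end Pool.Agent.HSG
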