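import Pool.Agent.HSG.Ful

/-!
# HSG/Gen: `r < 3` and integral parameter: `r = 1`

`M0` and `M1` are the two cosets; the descent of HSG/Shf puts every element of `Δ` in one of them.
-/

set_option autoImplicit false

noncomputable section

namespace Pool.Agent.HSG

open Pool.Agent.HSK Matrix
open scoped MatrixGroups commutatorElement

variable {Γ Δ : Subgroup PSL(2, ℂ)} {w κ : ℂ} {g : SL(2, ℂ)}

/-- integral matrices, up to a twelfth root of one -/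
def M0 (w κ : ℂ) (A : SL(2, ℂ)) : Prop := ∃ e α β γ δ : ℂ, e ^ 12 = 1 ∧ α ∈ Oz w ∧ β ∈ Oz w ∧ γ ∈ Oz w ∧ δ ∈ Oz w ∧
  A.1 = !![e * α, e * β; e * (κ ^ 2 * γ), e * δ]

/-- the other coset -/
def M1 (w κ : ℂ) (A : SL(2, ℂ)) : Prop := ∃ e α β γ δ : ℂ, e ^ 12 = 1 ∧ α ∈ Oz w ∧ β ∈ Oz w ∧ γ ∈ Oz w ∧ δ ∈ Oz w ∧
  A.1 = !![e * (κ * α), e * (β / κ); e * (κ * γ), e * (κ * δ)]

private theorem Gen_mat (a b c d a' b' c' d' : ℂ) :
    !![a, b; c, d] * !![a', b'; c', d'] =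
      !![a * a' + b * c', a * b' + b * d'; c * a' + d * c', c * b' + d * d'] := by
  rw [Matrix.mul_fin_two]

private theorem Gen_eta {a b c d a' b' c' d' : ℂ} (h1 : a = a') (h2 : b = b') (h3 : c = c') (h4 : d = d') :
    !![a, b; c, d] = !![a', b'; c', d'] := by
  rw [h1, h2, h3, h4]

private theorem Gen_e {e f : ℂ} (he : e ^ 12 = 1) (hf : f ^ 12 = 1) : (e * f) ^ 12 = 1 := by
  rw [mul_pow, he, hf, one_mul]

private theorem Gen_00 (hw : w ^ 2 + w + 1 = 0) (hq : κ ^ 2 ∈ Oz w) {A B : SL(2, ℂ)} (hA : M0 w κ A)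
    (hB : M0 w κ B) : M0 w κ (A * B) := by
  obtain ⟨e, a, b, c, d, he, ha, hb, hc, hd, h1⟩ := hA
  obtain ⟨e', a', b', c', d', he', ha', hb', hc', hd', h2⟩ := hB
  refine ⟨e * e', a * a' + b * (κ ^ 2 * c'), a * b' + b * d', c * a' + d * c',
    κ ^ 2 * (c * b') + d * d', Gen_e he he', ?_, ?_, ?_, ?_, ?_⟩
  · exact oz_add (oz_mul hw ha ha') (oz_mul hw hb (oz_mul hw hq hc'))
  · exact oz_add (oz_mul hw ha hb') (oz_mul hw hb hd')
  · exact oz_add (oz_mul hw hc ha') (oz_mul hw hd hc')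
  · exact oz_add (oz_mul hw hq (oz_mul hw hc hb')) (oz_mul hw hd hd')
  · rw [Matrix.SpecialLinearGroup.coe_mul, h1, h2, Gen_mat]
    exact Gen_eta (by ring) (by ring) (by ring) (by ring)

private theorem Gen_01 (hw : w ^ 2 + w + 1 = 0) (hq : κ ^ 2 ∈ Oz w) (h0 : κ ≠ 0) {A B : SL(2, ℂ)}
    (hA : M0 w κ A) (hB : M1 w κ B) : M1 w κ (A * B) := by
  obtain ⟨e, a, b, c, d, he, ha, hb, hc, hd, h1⟩ := hA
  obtain ⟨e', a', b', c', d', he', ha', hb', hc', hd', h2⟩ := hB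
  refine ⟨e * e', a * a' + b * c', a * b' + κ ^ 2 * (b * d'), κ ^ 2 * (c * a') + d * c',
    c * b' + d * d', Gen_e he he', ?_, ?_, ?_, ?_, ?_⟩
  · exact oz_add (oz_mul hw ha ha') (oz_mul hw hb hc')
  · exact oz_add (oz_mul hw ha hb') (oz_mul hw hq (oz_mul hw hb hd'))
  · exact oz_add (oz_mul hw hq (oz_mul hw hc ha')) (oz_mul hw hd hc')
  · exact oz_add (oz_mul hw hc hb') (oz_mul hw hd hd')
  · rw [Matrix.SpecialLinearGroup.coe_mul, h1, h2, Gen_mat]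
    refine Gen_eta (by ring) ?_ (by ring) ?_
    · field_simp
    · field_simp

private theorem Gen_10 (hw : w ^ 2 + w + 1 = 0) (hq : κ ^ 2 ∈ Oz w) (h0 : κ ≠ 0) {A B : SL(2, ℂ)}
    (hA : M1 w κ A) (hB : M0 w κ B) : M1 w κ (A * B) := by
  obtain ⟨e, a, b, c, d, he, ha, hb, hc, hd, h1⟩ := hA
  obtain ⟨e', a', b', c', d', he', ha', hb', hc', hd', h2⟩ := hB
  refine ⟨e * e', a * a' + b * c', κ ^ 2 * (a * b') + b * d', c * a' + κ ^ 2 * (d * c'),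
    c * b' + d * d', Gen_e he he', ?_, ?_, ?_, ?_, ?_⟩
  · exact oz_add (oz_mul hw ha ha') (oz_mul hw hb hc')
  · exact oz_add (oz_mul hw hq (oz_mul hw ha hb')) (oz_mul hw hb hd')
  · exact oz_add (oz_mul hw hc ha') (oz_mul hw hq (oz_mul hw hd hc'))
  · exact oz_add (oz_mul hw hc hb') (oz_mul hw hd hd')
  · rw [Matrix.SpecialLinearGroup.coe_mul, h1, h2, Gen_mat]
    refine Gen_eta ?_ ?_ (by ring) (by ring)
    · field_simp
    · field_simp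

private theorem Gen_11 (hw : w ^ 2 + w + 1 = 0) (hq : κ ^ 2 ∈ Oz w) (h0 : κ ≠ 0) {A B : SL(2, ℂ)}
    (hA : M1 w κ A) (hB : M1 w κ B) : M0 w κ (A * B) := by
  obtain ⟨e, a, b, c, d, he, ha, hb, hc, hd, h1⟩ := hA
  obtain ⟨e', a', b', c', d', he', ha', hb', hc', hd', h2⟩ := hB
  refine ⟨e * e', κ ^ 2 * (a * a') + b * c', a * b' + b * d', c * a' + d * c',
    c * b' + κ ^ 2 * (d * d'), Gen_e he he', ?_, ?_, ?_, ?_, ?_⟩
  · exact oz_add (oz_mul hw hq (oz_mul hw ha ha')) (oz_mul hw hb hc')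
  · exact oz_add (oz_mul hw ha hb') (oz_mul hw hb hd')
  · exact oz_add (oz_mul hw hc ha') (oz_mul hw hd hc')
  · exact oz_add (oz_mul hw hc hb') (oz_mul hw hq (oz_mul hw hd hd'))
  · rw [Matrix.SpecialLinearGroup.coe_mul, h1, h2, Gen_mat]
    refine Gen_eta ?_ ?_ (by ring) ?_
    · field_simp
    · field_simp
    · field_simp

private theorem Gen_mul (hw : w ^ 2 + w + 1 = 0) (hq : κ ^ 2 ∈ Oz w) (h0 : κ ≠ 0) {A B : SL(2, ℂ)}
    (hA : M0 w κ A ∨ M1 w κ A) (hB : M0 w κ B ∨ M1 w κ B) : M0 w κ (A * B) ∨ M1 w κ (A * B) := by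
  rcases hA with hA | hA <;> rcases hB with hB | hB
  · exact Or.inl (Gen_00 hw hq hA hB)
  · exact Or.inr (Gen_01 hw hq h0 hA hB)
  · exact Or.inr (Gen_10 hw hq h0 hA hB)
  · exact Or.inl (Gen_11 hw hq h0 hA hB)

private theorem Gen_T {β : ℂ} (hβ : β ∈ Oz w) : M0 w κ (T β) := by
  refine ⟨1, 1, β, 0, 1, one_pow 12, oz_one, hβ, oz_zero, oz_one, ?_⟩
  rw [T_coe]
  exact Gen_eta (by ring) (by ring) (by ring) (by ring)

private theorem Gen_ginv (hg : g.1 = !![0, -κ⁻¹; κ, 0]) : M1 w κ g⁻¹ := by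
  refine ⟨1, 0, 1, -1, 0, one_pow 12, oz_zero, oz_one, oz_neg oz_one, oz_zero, ?_⟩
  rw [inv_coe, hg]
  refine Gen_eta ?_ ?_ ?_ ?_
  · simp
  · simp
  · simp
  · simp

private theorem Gen_entries_g (hg : g.1 = !![0, -κ⁻¹; κ, 0]) :
    g.1 0 0 = 0 ∧ g.1 0 1 = -κ⁻¹ ∧ g.1 1 0 = κ ∧ g.1 1 1 = 0 := by
  rw [hg]
  exact ⟨rfl, rfl, rfl, rfl⟩

private theorem Gen_mul_g (hg : g.1 = !![0, -κ⁻¹; κ, 0]) (A : SL(2, ℂ)) :
    (A * g).1 0 0 = A.1 0 1 * κ ∧ (A * g).1 1 0 = A.1 1 1 * κ := by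
  obtain ⟨g1, g2, g3, g4⟩ := Gen_entries_g hg
  rw [Matrix.SpecialLinearGroup.coe_mul]
  constructor
  · rw [Matrix.mul_apply, Fin.sum_univ_two, g1, g3]
    ring
  · rw [Matrix.mul_apply, Fin.sum_univ_two, g1, g3]
    ring

private theorem Gen_up (h : NG Γ Δ w κ g) {A : SL(2, ℂ)} (hA : cls A ∈ Δ) (h0 : A.1 1 0 = 0) :
    M0 w κ A := by
  have had := up_mul h0
  have ha0 : A.1 0 0 ≠ 0 := left_ne_zero_of_mul_eq_one had
  have hd0 : A.1 1 1 ≠ 0 := right_ne_zero_of_mul_eq_one had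
  have ha6 := h.nf.up A hA h0
  have hd12 : (A.1 1 1) ^ 12 = 1 := by
    have h1 : (A.1 0 0) ^ 12 * (A.1 1 1) ^ 12 = 1 := by rw [← mul_pow, had, one_pow]
    have h2 : (A.1 0 0) ^ 12 = 1 :=
      (by ring : (A.1 0 0) ^ 12 = ((A.1 0 0) ^ 2) ^ 6).trans ha6
    rw [h2, one_mul] at h1
    exact h1
  have hnd : Complex.normSq (A.1 1 1) = 1 := by
    have h1 : (Complex.normSq (A.1 1 1)) ^ 12 = 1 := by rw [← map_pow, hd12, map_one]
    exact (pow_eq_one_iff_of_nonneg (Complex.normSq_nonneg _) (by norm_num)).1 h1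
  obtain ⟨e1, e2⟩ := Gen_mul_g h.gc A
  have hf : pt (A * g) ∈ Oz w := by
    apply h.full
    · rw [cls_mul]
      exact Δ.mul_mem hA h.gm
    · rw [e2, Complex.normSq_mul, hnd, one_mul]
  have hpt : pt (A * g) = A.1 0 1 / A.1 1 1 := by
    rw [pt, e1, e2]
    exact mul_div_mul_right _ _ h.k0
  rw [hpt] at hf
  refine ⟨A.1 1 1, A.1 0 0 ^ 2, A.1 0 1 / A.1 1 1, 0, 1, hd12, oz_root h.nf.w2 ha6, hf, oz_zero,
    oz_one, ?_⟩
  rw [Matrix.eta_fin_two A.1]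
  refine Gen_eta ?_ ?_ ?_ ?_
  · simp only [Matrix.of_apply, Matrix.cons_val', Matrix.cons_val_zero, Matrix.cons_val_one,
      Matrix.cons_val_fin_one]
    linear_combination (-(A.1 0 0)) * had
  · simp only [Matrix.of_apply, Matrix.cons_val', Matrix.cons_val_zero, Matrix.cons_val_one,
      Matrix.cons_val_fin_one]
    field_simp
  · simp [h0]
  · simp

theorem NG.mem01 (h : NG Γ Δ w κ g) (hq : κ ^ 2 ∈ Oz w) {A : SL(2, ℂ)} (hA : cls A ∈ Δ) : M0 w κ A ∨ M1 w κ A := by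
  have hw := h.nf.w2
  obtain ⟨g1, g2, g3, g4⟩ := Gen_entries_g h.gc
  refine h.nf.descent (fun A => M0 w κ A ∨ M1 w κ A) (fun A hA h0 => Or.inl (Gen_up h hA h0)) ?_ A hA
  intro A hA h0
  obtain ⟨β, hβ, hn⟩ := oz_near hw (pt A⁻¹)
  refine ⟨T β * g, ?_, ?_, ?_⟩
  · rw [cls_mul]
    exact Δ.mul_mem (h.nf.t_mem hβ) h.gm
  · have hB10 : (T β * g).1 1 0 = κ := by
      rw [T_mul_coe]
      simpa using g3
    have hB00 : (T β * g).1 0 0 = β * κ := by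
      rw [T_mul_coe]
      simp [g1, g3]
    have hB0 : (T β * g).1 1 0 ≠ 0 := by
      rw [hB10]
      exact h.k0
    have hpB : pt (T β * g) = β := by
      rw [pt, hB10, hB00]
      exact mul_div_cancel_right₀ _ h.k0
    rw [c_mul h0 hB0, hB10, hpB, Complex.normSq_mul, Complex.normSq_mul]
    have hn' : Complex.normSq (β - pt A⁻¹) ≤ 1 / 3 := by
      rw [← Complex.normSq_neg, neg_sub]
      exact hn
    have hp : 0 < Complex.normSq (A.1 1 0) := Complex.normSq_pos.2 h0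
    have hk := h.lt
    have hk0 : 0 < Complex.normSq κ := Complex.normSq_pos.2 h.k0
    have h5 : Complex.normSq κ * Complex.normSq (β - pt A⁻¹) < 1 := by
      calc Complex.normSq κ * Complex.normSq (β - pt A⁻¹) ≤ Complex.normSq κ * (1 / 3) :=
            mul_le_mul_of_nonneg_left hn' hk0.le
        _ < 1 := by linarith
    rw [mul_assoc]
    calc Complex.normSq (A.1 1 0) * (Complex.normSq κ * Complex.normSq (β - pt A⁻¹))
        < Complex.normSq (A.1 1 0) * 1 := mul_lt_mul_of_pos_left h5 hp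
      _ = Complex.normSq (A.1 1 0) := mul_one _
  · intro hP
    have h1 : A = A * (T β * g) * (g⁻¹ * T (-β)) := by
      rw [T_neg]
      group
    rw [h1]
    exact Gen_mul hw hq h.k0 hP (Gen_mul hw hq h.k0 (Or.inr (Gen_ginv h.gc))
      (Or.inl (Gen_T (oz_neg hβ))))

private theorem Gen_conj (A : SL(2, ℂ)) : (A * T 1 * A⁻¹).1 =
    !![1 - A.1 0 0 * A.1 1 0, A.1 0 0 ^ 2; -(A.1 1 0) ^ 2, 1 + A.1 0 0 * A.1 1 0] := by
  have h1 := det_eq A
  rw [Matrix.SpecialLinearGroup.coe_mul, mul_T_coe, inv_coe, Gen_mat]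
  refine Gen_eta ?_ ?_ ?_ ?_
  · linear_combination h1
  · ring
  · ring
  · linear_combination h1

theorem NG.entries (h : NG Γ Δ w κ g) (hq : κ ^ 2 ∈ Oz w) {x : PSL(2, ℂ)} (hx : x ∈ Γ) :
    ∃ A : SL(2, ℂ), cls A = x ∧ (∀ i j, A.1 i j ∈ Oz w) ∧ ∃ γ ∈ Oz w, A.1 1 0 = κ ^ 2 * γ := by
  have hw := h.nf.w2
  have hall : ∀ {M : Matrix (Fin 2) (Fin 2) ℂ}, M 0 0 ∈ Oz w → M 0 1 ∈ Oz w → M 1 0 ∈ Oz w →
      M 1 1 ∈ Oz w → ∀ i j, M i j ∈ Oz w := by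
    intro M h1 h2 h3 h4 i j
    fin_cases i <;> fin_cases j
    · exact h1
    · exact h2
    · exact h3
    · exact h4
  refine ngen_induction (μ := t 1) h.nf.one h.nf.gen
    (fun x => ∃ A : SL(2, ℂ), cls A = x ∧ (∀ i j, A.1 i j ∈ Oz w) ∧ ∃ γ ∈ Oz w, A.1 1 0 = κ ^ 2 * γ)
    ?_ ?_ ?_ ?_ x hx
  · intro γ hγ
    obtain ⟨A, rfl⟩ := cls_surj γ
    obtain ⟨a2, ac, s, ha2, hac, hs, e1, e2, e3⟩ : ∃ a2 ac s : ℂ, a2 ∈ Oz w ∧ ac ∈ Oz w ∧ s ∈ Oz w ∧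
        A.1 0 0 ^ 2 = a2 ∧ A.1 0 0 * A.1 1 0 = ac ∧ A.1 1 0 ^ 2 = κ ^ 2 * s := by
      rcases h.mem01 hq (h.nf.le hγ) with h1 | h1
      · obtain ⟨e, α, β, c, d, he, hα, hβ, hc, hd, hAe⟩ := h1
        have he2 : e ^ 2 ∈ Oz w := oz_root hw (by rw [← pow_mul]; exact he)
        have h00 : A.1 0 0 = e * α := by rw [hAe]; rfl
        have h10 : A.1 1 0 = e * (κ ^ 2 * c) := by rw [hAe]; rfl
        refine ⟨e ^ 2 * (α * α), e ^ 2 * (κ ^ 2 * (α * c)), e ^ 2 * (κ ^ 2 * (c * c)),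
          oz_mul hw he2 (oz_mul hw hα hα), oz_mul hw he2 (oz_mul hw hq (oz_mul hw hα hc)),
          oz_mul hw he2 (oz_mul hw hq (oz_mul hw hc hc)), ?_, ?_, ?_⟩
        · rw [h00]; ring
        · rw [h00, h10]; ring
        · rw [h10]; ring
      · obtain ⟨e, α, β, c, d, he, hα, hβ, hc, hd, hAe⟩ := h1
        have he2 : e ^ 2 ∈ Oz w := oz_root hw (by rw [← pow_mul]; exact he)
        have h00 : A.1 0 0 = e * (κ * α) := by rw [hAe]; rfl
        have h10 : A.1 1 0 = e * (κ * c) := by rw [hAe]; rfl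
        refine ⟨e ^ 2 * (κ ^ 2 * (α * α)), e ^ 2 * (κ ^ 2 * (α * c)), e ^ 2 * (c * c),
          oz_mul hw he2 (oz_mul hw hq (oz_mul hw hα hα)), oz_mul hw he2 (oz_mul hw hq (oz_mul hw hα hc)),
          oz_mul hw he2 (oz_mul hw hc hc), ?_, ?_, ?_⟩
        · rw [h00]; ring
        · rw [h00, h10]; ring
        · rw [h10]; ring
    have hM := Gen_conj A
    rw [e1, e2, e3] at hM
    refine ⟨A * T 1 * A⁻¹, ?_, ?_, -s, oz_neg hs, ?_⟩
    · rw [cls_mul, cls_mul, cls_inv]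
      rfl
    · rw [hM]
      refine hall ?_ ?_ ?_ ?_
      · exact oz_sub oz_one hac
      · exact ha2
      · exact oz_neg (oz_mul hw hq hs)
      · exact oz_add oz_one hac
    · rw [hM]
      show -(κ ^ 2 * s) = κ ^ 2 * -s
      ring
  · refine ⟨1, cls_one, ?_, 0, oz_zero, ?_⟩
    · rw [Matrix.SpecialLinearGroup.coe_one, Matrix.one_fin_two]
      exact hall oz_one oz_zero oz_zero oz_one
    · rw [Matrix.SpecialLinearGroup.coe_one, Matrix.one_fin_two]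
      show (0 : ℂ) = κ ^ 2 * 0
      ring
  · rintro x _ y _ ⟨A, rfl, hA, c, hc, hAc⟩ ⟨B, rfl, hB, c', hc', hBc⟩
    refine ⟨A * B, cls_mul A B, ?_, c * B.1 0 0 + A.1 1 1 * c', ?_, ?_⟩
    · intro i j
      rw [Matrix.SpecialLinearGroup.coe_mul, Matrix.mul_apply, Fin.sum_univ_two]
      exact oz_add (oz_mul hw (hA _ _) (hB _ _)) (oz_mul hw (hA _ _) (hB _ _))
    · exact oz_add (oz_mul hw hc (hB _ _)) (oz_mul hw (hA _ _) hc')
    · rw [Matrix.SpecialLinearGroup.coe_mul, Matrix.mul_apply, Fin.sum_univ_two, hAc, hBc]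
      ring
  · rintro x _ ⟨A, rfl, hA, c, hc, hAc⟩
    refine ⟨A⁻¹, cls_inv A, ?_, -c, oz_neg hc, ?_⟩
    · rw [inv_coe]
      exact hall (hA _ _) (oz_neg (hA _ _)) (oz_neg (hA _ _)) (hA _ _)
    · rw [inv_coe]
      show -A.1 1 0 = κ ^ 2 * -c
      rw [hAc]
      ring

theorem NG.one (h : NG Γ Δ w κ g) (hq : κ ^ 2 ∈ Oz w) : Complex.normSq κ = 1 := by
  have hw := h.nf.w2
  obtain ⟨B, hB, hB0⟩ := h.nf.cusp g h.gm
  rw [(Gen_mul_g h.gc B).2] at hB0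
  have hB11 : B.1 1 1 = 0 := (mul_eq_zero.1 hB0).resolve_right h.k0
  obtain ⟨A, hAB, hA, c, hc, hAc⟩ := h.entries hq hB
  have hA11 : A.1 1 1 = 0 := by
    rcases cls_eq.1 hAB with h1 | h1
    · rw [h1, hB11]
    · rw [h1, Matrix.neg_apply, hB11, neg_zero]
  have hdet := det_eq A
  rw [hA11, hAc, mul_zero, zero_sub] at hdet
  have hb0 : A.1 0 1 ≠ 0 := by
    intro h1
    rw [h1, zero_mul, neg_zero] at hdet
    exact zero_ne_one hdet
  have hc0 : c ≠ 0 := by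
    intro h1
    rw [h1, mul_zero, mul_zero, neg_zero] at hdet
    exact zero_ne_one hdet
  have h1 := congrArg Complex.normSq hdet
  rw [Complex.normSq_neg, Complex.normSq_mul, Complex.normSq_mul, map_pow, map_one] at h1
  have h2 := oz_one_le hw (hA 0 1) hb0
  have h3 := oz_one_le hw hc hc0
  have h4 := h.one_le
  have h5 : Complex.normSq κ ^ 2 ≤ 1 := by
    have h6 : 1 ≤ Complex.normSq (A.1 0 1) * Complex.normSq c := by nlinarith
    have h7 : 0 ≤ Complex.normSq κ ^ 2 := sq_nonneg _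
    calc Complex.normSq κ ^ 2 = Complex.normSq κ ^ 2 * 1 := (mul_one _).symm
      _ ≤ Complex.normSq κ ^ 2 * (Complex.normSq (A.1 0 1) * Complex.normSq c) :=
        mul_le_mul_of_nonneg_left h6 h7
      _ = Complex.normSq (A.1 0 1) * (Complex.normSq κ ^ 2 * Complex.normSq c) := by ring
      _ = 1 := h1
  refine le_antisymm ?_ h4
  nlinarith

end Pool.Agent.HSG
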