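import Pool.Agent.HSG.Eis

/-!
# HSG/Nea: distances from the Eisenstein integers
-/

set_option autoImplicit false

noncomputable section

namespace Pool.Agent.HSG

open Complex

variable {w : ℂ}

private theorem nea_normSq (hw : w ^ 2 + w + 1 = 0) (a b : ℝ) :
    normSq ((a : ℂ) + b * w) = a ^ 2 - a * b + b ^ 2 := by
  obtain ⟨h1, h2⟩ := w_re hw
  rw [normSq_apply]
  simp only [add_re, add_im, mul_re, mul_im, ofReal_re, ofReal_im, h1]
  nlinarith [h2]

private theorem nea_three (hw : w ^ 2 + w + 1 = 0) : normSq (1 - w) = 3 := by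
  have h := nea_normSq hw 1 (-1)
  have e : ((1 : ℝ) : ℂ) + ((-1 : ℝ) : ℂ) * w = 1 - w := by
    push_cast
    ring
  rw [e] at h
  rw [h]
  norm_num

private theorem nea_tri1 {a b : ℝ} (hb : 0 ≤ b) (hba : b ≤ a) (ha : a < 1)
    (h1 : 1 / 3 < a ^ 2 - a * b + b ^ 2) (h2 : 1 / 3 < (a - 1) ^ 2 - (a - 1) * b + b ^ 2)
    (h3 : 1 / 3 < (a - 1) ^ 2 - (a - 1) * (b - 1) + (b - 1) ^ 2) : False := by
  have e1 := mul_pos (sub_pos.2 ha) (sub_pos.2 h1)
  have e2 := mul_nonneg (sub_nonneg.2 hba) (sub_pos.2 h2).le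
  have e3 := mul_nonneg hb (sub_pos.2 h3).le
  have e4 := sq_nonneg ((1 - a) - (a - b))
  have e5 := sq_nonneg ((1 - a) - b)
  have e6 := sq_nonneg ((a - b) - b)
  have e7 : (1 - a) * (a ^ 2 - a * b + b ^ 2 - 1 / 3) +
      (a - b) * ((a - 1) ^ 2 - (a - 1) * b + b ^ 2 - 1 / 3) +
      b * ((a - 1) ^ 2 - (a - 1) * (b - 1) + (b - 1) ^ 2 - 1 / 3) =
      -(1 / 6) * (((1 - a) - (a - b)) ^ 2 + ((1 - a) - b) ^ 2 + ((a - b) - b) ^ 2) := by
    ring
  linarith

/-- covering radius -/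
theorem oz_near (hw : w ^ 2 + w + 1 = 0) (z : ℂ) : ∃ β ∈ Oz w, normSq (z - β) ≤ 1 / 3 := by
  obtain ⟨h1, h2⟩ := w_re hw
  have him : w.im ≠ 0 := by
    intro h0
    rw [h0] at h2
    norm_num at h2
  obtain ⟨a, b, hz⟩ : ∃ a b : ℝ, z = (a : ℂ) + b * w := by
    refine ⟨z.re + z.im / w.im / 2, z.im / w.im, ?_⟩
    apply Complex.ext
    · simp only [add_re, mul_re, ofReal_re, ofReal_im, h1]
      ring
    · simp only [add_im, mul_im, ofReal_re, ofReal_im]
      field_simp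
      ring
  have hv : ∀ m k : ℤ, normSq (z - ((m : ℂ) + k * w)) =
      (a - m) ^ 2 - (a - m) * (b - k) + (b - k) ^ 2 := by
    intro m k
    rw [← nea_normSq hw, hz]
    congr 1
    push_cast
    ring
  by_contra hcon
  push Not at hcon
  have hh : ∀ m k : ℤ, 1 / 3 < (a - m) ^ 2 - (a - m) * (b - k) + (b - k) ^ 2 := by
    intro m k
    rw [← hv]
    exact hcon _ ⟨m, k, rfl⟩
  have ha0 := Int.fract_nonneg a
  have ha1 := Int.fract_lt_one a
  have hb0 := Int.fract_nonneg b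
  have hb1 := Int.fract_lt_one b
  have g1 := hh ⌊a⌋ ⌊b⌋
  have g2 := hh (⌊a⌋ + 1) ⌊b⌋
  have g3 := hh ⌊a⌋ (⌊b⌋ + 1)
  have g4 := hh (⌊a⌋ + 1) (⌊b⌋ + 1)
  push_cast at g2 g3 g4
  have ea : a - (⌊a⌋ + 1) = Int.fract a - 1 := by rw [Int.fract]; ring
  have eb : b - (⌊b⌋ + 1) = Int.fract b - 1 := by rw [Int.fract]; ring
  rw [Int.self_sub_floor, Int.self_sub_floor] at g1
  rw [ea, Int.self_sub_floor] at g2
  rw [eb, Int.self_sub_floor] at g3
  rw [ea, eb] at g4
  rcases le_total (Int.fract b) (Int.fract a) with h | h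
  · exact nea_tri1 hb0 h ha1 g1 g2 g4
  · refine nea_tri1 ha0 h hb1 ?_ ?_ ?_
    · linarith
    · linarith
    · linarith

theorem oz_near3 (hw : w ^ 2 + w + 1 = 0) (z : ℂ) : ∃ β ∈ Oz w, normSq (z - β / (1 - w)) ≤ 1 / 9 := by
  obtain ⟨β, hβ, h⟩ := oz_near hw ((1 - w) * z)
  have h3 := nea_three hw
  have h0 : (1 - w) ≠ 0 := by
    intro h0
    rw [h0, map_zero] at h3
    norm_num at h3
  refine ⟨β, hβ, ?_⟩
  have e : z - β / (1 - w) = ((1 - w) * z - β) / (1 - w) := by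
    field_simp
  rw [e, normSq_div, h3]
  linarith

theorem oz_dir (hw : w ^ 2 + w + 1 = 0) (z : ℂ) : ∃ u : ℂ, u ^ 6 = 1 ∧ 0 ≤ (u * z).re ∧ 3 * normSq z ≤ 4 * (u * z).re ^ 2 := by
  obtain ⟨h1, h2⟩ := w_re hw
  have h3 := w_pow hw
  have hw2 : w ^ 2 = -1 - w := by linear_combination hw
  have hn : normSq z = z.re ^ 2 + z.im ^ 2 := by
    rw [normSq_apply]
    ring
  have ht : (w.im * z.im) ^ 2 = 3 / 4 * z.im ^ 2 := by
    rw [mul_pow, h2]
  have r1 : (w * z).re = -(1 / 2) * z.re - w.im * z.im := by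
    rw [mul_re, h1]
  have r2 : (w ^ 2 * z).re = -(1 / 2) * z.re + w.im * z.im := by
    rw [hw2, mul_re]
    simp only [sub_re, neg_re, one_re, sub_im, neg_im, one_im, h1]
    ring
  have r3 : (-w * z).re = 1 / 2 * z.re + w.im * z.im := by
    rw [neg_mul, neg_re, r1]
    ring
  have r4 : (-w ^ 2 * z).re = 1 / 2 * z.re - w.im * z.im := by
    rw [neg_mul, neg_re, r2]
    ring
  have p1 : w ^ 6 = 1 := by
    have : w ^ 6 = (w ^ 3) ^ 2 := by ring
    rw [this, h3, one_pow]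
  have p2 : (w ^ 2) ^ 6 = 1 := by
    have : (w ^ 2) ^ 6 = (w ^ 3) ^ 4 := by ring
    rw [this, h3, one_pow]
  have p3 : (-w) ^ 6 = 1 := by
    have : (-w) ^ 6 = (w ^ 3) ^ 2 := by ring
    rw [this, h3, one_pow]
  have p4 : (-w ^ 2) ^ 6 = 1 := by
    have : (-w ^ 2) ^ 6 = (w ^ 3) ^ 4 := by ring
    rw [this, h3, one_pow]
  rw [hn]
  generalize w.im * z.im = t at ht r1 r2 r3 r4
  by_cases hc : 4 * t ^ 2 ≤ z.re ^ 2
  · rcases le_total 0 z.re with hx | hx
    · refine ⟨1, one_pow 6, ?_, ?_⟩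
      · rw [one_mul]
        exact hx
      · rw [one_mul]
        linarith
    · refine ⟨-1, by norm_num, ?_, ?_⟩
      · rw [neg_one_mul, neg_re]
        linarith
      · rw [neg_one_mul, neg_re, neg_sq]
        linarith
  · rw [not_le] at hc
    rcases le_total 0 z.re with hx | hx
    · rcases le_total 0 t with htt | htt
      · refine ⟨-w, p3, ?_, ?_⟩
        · rw [r3]
          positivity
        · rw [r3]
          have h5 : z.re < 2 * t := by nlinarith
          nlinarith [mul_nonneg hx (sub_pos.2 h5).le]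
      · refine ⟨-w ^ 2, p4, ?_, ?_⟩
        · rw [r4]
          linarith
        · rw [r4]
          have h5 : z.re < 2 * -t := by nlinarith
          nlinarith [mul_nonneg hx (sub_pos.2 h5).le]
    · rcases le_total 0 t with htt | htt
      · refine ⟨w ^ 2, p2, ?_, ?_⟩
        · rw [r2]
          linarith
        · rw [r2]
          have h5 : -z.re < 2 * t := by nlinarith
          nlinarith [mul_nonneg (neg_nonneg.2 hx) (sub_pos.2 h5).le]
      · refine ⟨w, p1, ?_, ?_⟩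
        · rw [r1]
          linarith
        · rw [r1]
          have h5 : -z.re < 2 * -t := by nlinarith
          nlinarith [mul_nonneg (neg_nonneg.2 hx) (sub_pos.2 h5).le]

/-- the parabolic commutators: `|y| ≥ 4` gives `normSq ≥ 12` -/
theorem oz_twelve (hw : w ^ 2 + w + 1 = 0) {x y : ℤ} (hy : 4 ≤ |y|) : 12 ≤ normSq ((x : ℂ) + y * w) ∧
    (normSq ((x : ℂ) + y * w) ≤ 12 → ((x : ℂ) + y * w) ^ 2 = -12 ∧ ((x : ℂ) + y * w = 2 * (1 + 2 * w) ∨ (x : ℂ) + y * w = -(2 * (1 + 2 * w)))) := by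
  have hy2 : 16 ≤ y ^ 2 := by
    rw [← sq_abs]
    nlinarith
  rw [oz_norm hw]
  constructor
  · have h : (12 : ℤ) ≤ x ^ 2 - x * y + y ^ 2 := by
      nlinarith [sq_nonneg (2 * x - y)]
    exact_mod_cast h
  · intro h
    have h1 : x ^ 2 - x * y + y ^ 2 ≤ (12 : ℤ) := by
      exact_mod_cast h
    have h2 : (2 * x - y) ^ 2 ≤ 0 := by
      nlinarith
    have h3 : y = 2 * x := by
      have : (2 * x - y) ^ 2 = 0 := le_antisymm h2 (sq_nonneg _)
      have h4 : 2 * x - y = 0 := by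
        exact pow_eq_zero_iff (two_ne_zero) |>.1 this
      linarith
    subst h3
    have h5 : x ^ 2 = 4 := by
      nlinarith
    have h6 : x = 2 ∨ x = -2 := by
      have : (x - 2) * (x + 2) = 0 := by linear_combination h5
      rcases mul_eq_zero.1 this with h | h
      · left
        linarith
      · right
        linarith
    rcases h6 with h | h
    · subst h
      push_cast
      refine ⟨by linear_combination 16 * hw, Or.inl (by ring)⟩
    · subst h
      push_cast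
      refine ⟨by linear_combination 16 * hw, Or.inr (by ring)⟩

end Pool.Agent.HSG
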