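import Pool.Agent.HSG.Nea
import Pool.Agent.HSK.Conj3

/-!
# HSG/Nf: the normal form and lower left entries

PROOF PLAN.  All by matrix entries (`Matrix.SpecialLinearGroup`, `Matrix.mul_fin_two`-style computation, `det_eq`).  `NF.shift`: conjugation by `T p` commutes with translations, does not change lower left entries and the
`0 0` entry of upper triangular matrices; `cls (T p * A * T (-p)) = t p * cls A * (t p)⁻¹`; for `gen` and `inf` see `nd_of` in HSK/Conj (`cj`, `mem_cj`, `commutator_cj`).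
-/

set_option autoImplicit false

noncomputable section

namespace Pool.Agent.HSG

open Pool.Agent.HSK Matrix
open scoped MatrixGroups commutatorElement

/-- normal form: the meridian is `T 1`, the translations of `Δ` are the Eisenstein integers -/
structure NF (Γ Δ : Subgroup PSL(2, ℂ)) (w : ℂ) : Prop where
  w2 : w ^ 2 + w + 1 = 0
  le : Γ ≤ Δ
  one : t 1 ∈ Γ
  gen : NGen Γ (t 1)
  tf : ∀ g ∈ Γ, ∀ n : ℕ, 0 < n → g ^ n = 1 → g = 1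
  lat : ∀ β, t β ∈ Δ ↔ β ∈ Oz w
  up : ∀ A : SL(2, ℂ), cls A ∈ Δ → A.1 1 0 = 0 → (A.1 0 0 ^ 2) ^ 6 = 1
  cusp : ∀ A : SL(2, ℂ), cls A ∈ Δ → ∃ B : SL(2, ℂ), cls B ∈ Γ ∧ (B * A).1 1 0 = 0
  fin : ∀ R : ℝ, {x : ℝ | x ≤ R ∧ ∃ A : SL(2, ℂ), cls A ∈ Δ ∧ Complex.normSq (A.1 1 0) = x}.Finite
  ex : ∃ A : SL(2, ℂ), cls A ∈ Δ ∧ A.1 1 0 ≠ 0
  per : ∃ x y : ℤ, 4 ≤ |y| ∧ ∀ β, t β ∈ Γ ↔ ∃ a b : ℤ, β = a + b * (x + y * w)
  inf : ∀ m : ℕ, 0 < m → t (m : ℂ) ∉ ⁅Γ, Γ⁆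

/-- the value at infinity -/
def pt (A : SL(2, ℂ)) : ℂ := A.1 0 0 / A.1 1 0

variable {Γ Δ : Subgroup PSL(2, ℂ)} {w : ℂ} {A B U : SL(2, ℂ)}

theorem T_mul_coe (β : ℂ) (A : SL(2, ℂ)) : (T β * A).1 = !![A.1 0 0 + β * A.1 1 0, A.1 0 1 + β * A.1 1 1; A.1 1 0, A.1 1 1] := by
  rw [Matrix.SpecialLinearGroup.coe_mul, T_coe]
  ext i j
  fin_cases i <;> fin_cases j <;> simp [Matrix.mul_apply, Fin.sum_univ_two]

theorem mul_T_coe (β : ℂ) (A : SL(2, ℂ)) : (A * T β).1 = !![A.1 0 0, A.1 0 1 + β * A.1 0 0; A.1 1 0, A.1 1 1 + β * A.1 1 0] := by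
  rw [Matrix.SpecialLinearGroup.coe_mul, T_coe]
  ext i j
  fin_cases i <;> fin_cases j <;> simp [Matrix.mul_apply, Fin.sum_univ_two] <;> ring

theorem inv_coe (A : SL(2, ℂ)) : (A⁻¹).1 = !![A.1 1 1, -A.1 0 1; -A.1 1 0, A.1 0 0] := by
  rw [Matrix.SpecialLinearGroup.coe_inv, Matrix.adjugate_fin_two]

theorem nf_e10 (A B : SL(2, ℂ)) : (A * B).1 1 0 = A.1 1 0 * B.1 0 0 + A.1 1 1 * B.1 1 0 := by
  rw [Matrix.SpecialLinearGroup.coe_mul, Matrix.mul_apply, Fin.sum_univ_two]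

theorem nf_e00 (A B : SL(2, ℂ)) : (A * B).1 0 0 = A.1 0 0 * B.1 0 0 + A.1 0 1 * B.1 1 0 := by
  rw [Matrix.SpecialLinearGroup.coe_mul, Matrix.mul_apply, Fin.sum_univ_two]

theorem nf_e11 (A B : SL(2, ℂ)) : (A * B).1 1 1 = A.1 1 0 * B.1 0 1 + A.1 1 1 * B.1 1 1 := by
  rw [Matrix.SpecialLinearGroup.coe_mul, Matrix.mul_apply, Fin.sum_univ_two]

theorem nf_i10 (A : SL(2, ℂ)) : (A⁻¹).1 1 0 = -A.1 1 0 := by
  rw [inv_coe]
  simp

theorem nf_i00 (A : SL(2, ℂ)) : (A⁻¹).1 0 0 = A.1 1 1 := by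
  rw [inv_coe]
  simp

theorem nf_i11 (A : SL(2, ℂ)) : (A⁻¹).1 1 1 = A.1 0 0 := by
  rw [inv_coe]
  simp

theorem nf_t00 (β : ℂ) : (T β).1 0 0 = 1 := by
  rw [T_coe]
  simp

theorem nf_t01 (β : ℂ) : (T β).1 0 1 = β := by
  rw [T_coe]
  simp

theorem nf_t10 (β : ℂ) : (T β).1 1 0 = 0 := by
  rw [T_coe]
  simp

theorem nf_t11 (β : ℂ) : (T β).1 1 1 = 1 := by
  rw [T_coe]
  simp

theorem pt_inv (A : SL(2, ℂ)) : pt A⁻¹ = -A.1 1 1 / A.1 1 0 := by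
  unfold pt
  rw [nf_i00, nf_i10, div_neg, neg_div]

theorem pt_T (β : ℂ) (h : A.1 1 0 ≠ 0) : pt (T β * A) = pt A + β := by
  unfold pt
  rw [nf_e00, nf_e10, nf_t00, nf_t01, nf_t10, nf_t11]
  have e : (0 : ℂ) * A.1 0 0 + 1 * A.1 1 0 = A.1 1 0 := by ring
  rw [e]
  field_simp

theorem pt_up (hU : U.1 1 0 = 0) : pt (A * U) = pt A := by
  have h1 := up_mul hU
  have h2 : U.1 0 0 ≠ 0 := left_ne_zero_of_mul_eq_one h1
  unfold pt
  rw [nf_e00, nf_e10, hU, mul_zero, mul_zero, add_zero, add_zero, mul_div_mul_right _ _ h2]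

theorem c_inv_mul (hA : A.1 1 0 ≠ 0) (hB : B.1 1 0 ≠ 0) : (A⁻¹ * B).1 1 0 = A.1 1 0 * B.1 1 0 * (pt A - pt B) := by
  rw [nf_e10, nf_i10, nf_i11]
  unfold pt
  field_simp
  ring

theorem c_mul (hA : A.1 1 0 ≠ 0) (hB : B.1 1 0 ≠ 0) : (A * B).1 1 0 = A.1 1 0 * B.1 1 0 * (pt B - pt A⁻¹) := by
  rw [nf_e10, pt_inv]
  unfold pt
  field_simp
  ring

theorem trace_pt (hA : A.1 1 0 ≠ 0) : A.1.trace = A.1 1 0 * (pt A - pt A⁻¹) := by
  rw [pt_inv, Matrix.trace_fin_two]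
  unfold pt
  field_simp
  ring

/-- the value of a product at infinity -/
theorem pt_mul (hA : A.1 1 0 ≠ 0) (hB : B.1 1 0 ≠ 0) (hAB : (A * B).1 1 0 ≠ 0) :
    pt (A * B) = pt A - 1 / (A.1 1 0 ^ 2 * (pt B - pt A⁻¹)) := by
  have h1 := c_mul hA hB
  have hd := det_eq A
  have h2 : pt B - pt A⁻¹ ≠ 0 := by
    intro h0
    rw [h0, mul_zero] at h1
    exact hAB h1
  have h3 : pt (A * B) = (A * B).1 0 0 / (A * B).1 1 0 := rfl
  rw [h3, h1]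
  rw [pt_inv] at h2 ⊢
  have hB' : B.1 0 0 = pt B * B.1 1 0 := by
    unfold pt
    field_simp
  rw [nf_e00, hB']
  have hA' : pt A = A.1 0 0 / A.1 1 0 := rfl
  rw [hA']
  have h4 : pt B * A.1 1 0 + A.1 1 1 ≠ 0 := by
    intro h0
    apply h2
    field_simp
    linear_combination h0
  have h5 : pt B - -A.1 1 1 / A.1 1 0 = (pt B * A.1 1 0 + A.1 1 1) / A.1 1 0 := by
    field_simp
    ring
  rw [h5]
  field_simp
  linear_combination (-1 : ℂ) * hd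

theorem NF.up_norm (h : NF Γ Δ w) (hU : cls U ∈ Δ) (hc : U.1 1 0 = 0) : Complex.normSq (U.1 0 0) = 1 := by
  have h1 := h.up U hU hc
  have h2 : Complex.normSq (U.1 0 0) ^ 12 = 1 := by
    rw [← map_pow, show U.1 0 0 ^ 12 = (U.1 0 0 ^ 2) ^ 6 by ring, h1, map_one]
  exact (pow_eq_one_iff_of_nonneg (Complex.normSq_nonneg _) (by norm_num)).1 h2

theorem NF.c_mul_up (h : NF Γ Δ w) (hU : cls U ∈ Δ) (hc : U.1 1 0 = 0) (A : SL(2, ℂ)) :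
    Complex.normSq ((A * U).1 1 0) = Complex.normSq (A.1 1 0) ∧ Complex.normSq ((U * A).1 1 0) = Complex.normSq (A.1 1 0) := by
  have h1 := h.up_norm hU hc
  have h2 : Complex.normSq (U.1 1 1) = 1 := by
    have h3 := congrArg Complex.normSq (up_mul hc)
    rw [map_mul, h1, one_mul, map_one] at h3
    exact h3
  constructor
  · rw [nf_e10, hc, mul_zero, add_zero, map_mul, h1, mul_one]
  · rw [nf_e10, hc, zero_mul, zero_add, map_mul, h2, one_mul]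

/-- the lower left entry is determined, up to modulus, by the value at infinity -/
theorem NF.same_pt (h : NF Γ Δ w) (hA : cls A ∈ Δ) (hB : cls B ∈ Δ) (hA0 : A.1 1 0 ≠ 0) (hB0 : B.1 1 0 ≠ 0) (hp : pt A = pt B) :
    Complex.normSq (A.1 1 0) = Complex.normSq (B.1 1 0) := by
  have h1 : (A⁻¹ * B).1 1 0 = 0 := by rw [c_inv_mul hA0 hB0, hp, sub_self, mul_zero]
  have h2 : cls (A⁻¹ * B) ∈ Δ := by
    rw [cls_mul, cls_inv]
    exact Δ.mul_mem (Δ.inv_mem hA) hB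
  have h3 := (h.c_mul_up h2 h1 A).1
  rw [mul_inv_cancel_left] at h3
  exact h3.symm

theorem NF.t_mem (h : NF Γ Δ w) {β : ℂ} (hβ : β ∈ Oz w) : cls (T β) ∈ Δ := (h.lat β).2 hβ

theorem mem_shift {S : Subgroup PSL(2, ℂ)} {p : ℂ} {A : SL(2, ℂ)} : cls A ∈ cj (t p) S ↔ cls (T p * A * T (-p)) ∈ S := by
  rw [mem_cj, T_neg, cls_mul, cls_mul, cls_inv]
  rfl

theorem shift_c (p : ℂ) (A : SL(2, ℂ)) : (T p * A * T (-p)).1 1 0 = A.1 1 0 ∧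
    (A.1 1 0 ≠ 0 → pt (T p * A * T (-p)) = pt A + p) := by
  constructor
  · rw [nf_e10, nf_e10, nf_t00, nf_t10, nf_t11, nf_t10]
    ring
  · intro h
    rw [pt_up (nf_t10 _), pt_T _ h]

end Pool.Agent.HSG
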