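import Pool.Agent.HSK.Conj3

/-!
# HSG/Ptc: pairs of matrices with parabolic commutator (once punctured tori)

`PT Γ σ A B`: the commutator of the lifts `A`, `B` is `-T (2 σ)`.  Entries `c = lower left`.
PROOF PLAN.  Write `K = -T (2 σ)`, `A B = K B A`, `K⁻¹ A = B A B⁻¹`, `K B = A B A⁻¹`.
`tr_a`: trace of `K⁻¹ A = B A B⁻¹`: `-(tr A - 2 σ c_A) = tr A`.  `tr_b`: trace of `K B = A B A⁻¹`: `-(tr B + 2 σ c_B) = tr B`.  `tr_ab`: `A B = K B A`: `c_AB = -c_BA`, `tr AB = -(tr BA + 2 σ c_BA)`.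
`cyc`, `flip` have the same commutator `K`, `swap` has `K⁻¹`.  All identities were checked by computer.
-/

set_option autoImplicit false

noncomputable section

namespace Pool.Agent.HSG

open Pool.Agent.HSK Matrix
open scoped MatrixGroups

/-- a pair with parabolic commutator -/
structure PT (Γ : Subgroup PSL(2, ℂ)) (σ : ℂ) (A B : SL(2, ℂ)) : Prop where
  a : cls A ∈ Γ
  b : cls B ∈ Γ
  k : (A * B * A⁻¹ * B⁻¹).1 = -(T (2 * σ)).1

variable {Γ : Subgroup PSL(2, ℂ)} {σ : ℂ} {A B : SL(2, ℂ)}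

private theorem ptc_key (h : PT Γ σ A B) : A * B * A⁻¹ * B⁻¹ = -T (2 * σ) := by
  apply Subtype.ext
  rw [h.k]
  rfl

private theorem ptc_negT (β : ℂ) (X : SL(2, ℂ)) :
    (-T β * X).1 1 0 = -X.1 1 0 ∧ (-T β * X).1.trace = -(X.1.trace + β * X.1 1 0) := by
  have h : (-T β * X).1 = -(!![1, β; 0, 1] * X.1) := by
    show (-(T β)).1 * X.1 = _
    rw [show (-(T β)).1 = -(T β).1 from rfl, T_coe, neg_mul]
  rw [h]
  constructor
  · simp only [Matrix.neg_apply, Matrix.mul_apply, Fin.sum_univ_two,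
      Matrix.of_apply, Matrix.cons_val', Matrix.cons_val_zero, Matrix.cons_val_one,
      Matrix.cons_val_fin_one]
    ring
  · simp only [Matrix.trace_fin_two, Matrix.neg_apply, Matrix.mul_apply, Fin.sum_univ_two,
      Matrix.of_apply, Matrix.cons_val', Matrix.cons_val_zero, Matrix.cons_val_one,
      Matrix.cons_val_fin_one]
    ring

private theorem ptc_inv (A : SL(2, ℂ)) : (A⁻¹).1 1 0 = -A.1 1 0 := by
  rw [Matrix.SpecialLinearGroup.coe_inv, Matrix.adjugate_fin_two]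
  simp

private theorem ptc_tr (A B : SL(2, ℂ)) : (A * B * A⁻¹).1.trace = B.1.trace := by
  have h : (A * B * A⁻¹).1 = A.1 * B.1 * (A⁻¹).1 := rfl
  have h2 : (A⁻¹).1 * A.1 = 1 := by
    have := congrArg Subtype.val (inv_mul_cancel A)
    exact this
  rw [h, Matrix.trace_mul_comm, ← Matrix.mul_assoc, h2, Matrix.one_mul]

private theorem ptc_a (h : PT Γ σ A B) : B * A * B⁻¹ = -T (-(2 * σ)) * A := by
  have hk := ptc_key h
  have h1 : (A * B * A⁻¹ * B⁻¹)⁻¹ = -T (-(2 * σ)) := by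
    rw [hk, T_neg]
    apply inv_eq_of_mul_eq_one_right
    rw [neg_mul_neg, mul_inv_cancel]
  rw [← h1]
  group

private theorem ptc_b (h : PT Γ σ A B) : A * B * A⁻¹ = -T (2 * σ) * B := by
  rw [← ptc_key h]
  group

private theorem ptc_ab (h : PT Γ σ A B) : A * B = -T (2 * σ) * (B * A) := by
  rw [← ptc_key h]
  group

/-- `(a b, a⁻¹)` -/
theorem PT.cyc (h : PT Γ σ A B) : PT Γ σ (A * B) A⁻¹ := by
  refine ⟨?_, ?_, ?_⟩
  · rw [cls_mul]
    exact Γ.mul_mem h.a h.b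
  · rw [cls_inv]
    exact Γ.inv_mem h.a
  · rw [← h.k]
    apply congrArg Subtype.val
    group

theorem PT.cyc_c (h : PT Γ σ A B) : (A⁻¹).1 1 0 = -A.1 1 0 ∧ (A * B * A⁻¹).1 1 0 = -B.1 1 0 := by
  refine ⟨ptc_inv A, ?_⟩
  rw [ptc_b h]
  exact (ptc_negT _ _).1

/-- `(b, a)` -/
theorem PT.swap (h : PT Γ σ A B) : PT Γ (-σ) B A := by
  refine ⟨h.b, h.a, ?_⟩
  have h1 : B * A * B⁻¹ * A⁻¹ = -T (2 * -σ) := by
    rw [ptc_a h, mul_assoc, mul_inv_cancel, mul_one, mul_neg]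
  rw [h1]
  rfl

theorem PT.swap_c (h : PT Γ σ A B) : (B * A).1 1 0 = -(A * B).1 1 0 := by
  rw [ptc_ab h, (ptc_negT _ _).1, neg_neg]

/-- `(a b⁻¹, b)` -/
theorem PT.flip (h : PT Γ σ A B) : PT Γ σ (A * B⁻¹) B := by
  refine ⟨?_, h.b, ?_⟩
  · rw [cls_mul, cls_inv]
    exact Γ.mul_mem h.a (Γ.inv_mem h.b)
  · rw [← h.k]
    apply congrArg Subtype.val
    group

theorem PT.tr_a (h : PT Γ σ A B) : A.1.trace = σ * A.1 1 0 := by
  have h1 := (ptc_negT (-(2 * σ)) A).2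
  rw [← ptc_a h, ptc_tr] at h1
  linear_combination (1 / 2 : ℂ) * h1

theorem PT.tr_b (h : PT Γ σ A B) : B.1.trace = -σ * B.1 1 0 := by
  have h1 := (ptc_negT (2 * σ) B).2
  rw [← ptc_b h, ptc_tr] at h1
  linear_combination (1 / 2 : ℂ) * h1

theorem PT.tr_ab (h : PT Γ σ A B) : (A * B).1.trace = σ * (A * B).1 1 0 := by
  have h1 := (ptc_negT (2 * σ) (B * A)).2
  rw [← ptc_ab h] at h1
  have h2 := h.swap_c
  have h3 : (B * A).1.trace = (A * B).1.trace := by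
    have e1 : (B * A).1 = B.1 * A.1 := rfl
    have e2 : (A * B).1 = A.1 * B.1 := rfl
    rw [e1, e2, Matrix.trace_mul_comm]
  rw [h3, h2] at h1
  linear_combination (1 / 2 : ℂ) * h1

end Pool.Agent.HSG
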