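import Pool.Agent.HSG.Shf
import Pool.Agent.HSG.Shg
import Pool.Agent.HSG.Srt
import Pool.Agent.HSG.Inq

/-!
# HSG/Thr: minimal entry `√3`: the full points

By `inq2` the three entries `X`, `Y`, `Z` satisfy `X ^ 2 = Y ^ 2 = Z ^ 2 = -3`, `X Y Z = -3 σ`, `σ = ± (1 + 2 w)` (`thr_alg`).
With `p = pt A⁻¹` the points of `B` and `A * B` are `p - σ / 3`, `p + σ + σ / 3` (`thr_div`), so after the shift by `p` and
up to translations by `Oz w` the full points contain `(1 - w)⁻¹ Oz w` (`thr_lat`). Conversely a full point is at squared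
distance at most `1/9` from such a point, and is equal to it because the lower left entry of the quotient is too small.
-/

set_option autoImplicit false

noncomputable section

namespace Pool.Agent.HSG

open Pool.Agent.HSK Matrix
open scoped MatrixGroups commutatorElement

/-- normal form with minimal entry `√3`; the full points are `(1 - w)⁻¹ Oz w` -/
structure N3 (Γ Δ : Subgroup PSL(2, ℂ)) (w : ℂ) : Prop where
  nf : NF Γ Δ w
  min : ∀ A : SL(2, ℂ), cls A ∈ Δ → A.1 1 0 ≠ 0 → 3 ≤ Complex.normSq (A.1 1 0)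
  full : ∀ A : SL(2, ℂ), cls A ∈ Δ → Complex.normSq (A.1 1 0) = 3 → (1 - w) * pt A ∈ Oz w
  ex : ∀ β ∈ Oz w, ∃ A : SL(2, ℂ), cls A ∈ Δ ∧ Complex.normSq (A.1 1 0) = 3 ∧ (1 - w) * pt A = β

variable {Γ Δ : Subgroup PSL(2, ℂ)} {w : ℂ}

private theorem thr_alg {σ X Y Z : ℂ} (hX : X ≠ 0) (hσ : σ ^ 2 = -3) (h1 : X ^ 2 + Y ^ 2 + Z ^ 2 = -σ * X * Y * Z)
    (hy : Y ^ 2 = X ^ 2) (hz : Z ^ 2 = X ^ 2) : X ^ 2 = -3 ∧ X * Y * Z = -3 * σ := by
  have e1 : 3 * X ^ 2 = -σ * X * Y * Z := by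
    rw [← h1, hy, hz]
    ring
  have e2 : X ^ 4 * (3 * (X ^ 2 + 3)) = 0 := by
    have e3 : (3 * X ^ 2) ^ 2 = (σ ^ 2) * X ^ 2 * Y ^ 2 * Z ^ 2 := by
      rw [e1]
      ring
    rw [hσ, hy, hz] at e3
    linear_combination e3
  have e4 : X ^ 2 = -3 := by
    have h := (mul_eq_zero.1 e2).resolve_left (pow_ne_zero 4 hX)
    linear_combination (1 / 3) * h
  refine ⟨e4, ?_⟩
  have e5 : σ * (X * Y * Z) = 9 := by
    have h : 3 * X ^ 2 = -9 := by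
      rw [e4]
      norm_num
    linear_combination e1 - h
  linear_combination (-1 / 3) * σ * e5 + (X * Y * Z / 3) * hσ

private theorem thr_div {σ P W D : ℂ} (hσ : σ ^ 2 = -3) (h : W = P * D) (hW : W ^ 2 = -3) (hP : P * W = -3 * σ) :
    D = -σ / 3 := by
  have h1 : σ * D = 1 := by
    have h2 : W ^ 2 = (P * W) * D := by
      calc W ^ 2 = W * W := sq W
        _ = W * (P * D) := by rw [← h]
        _ = (P * W) * D := by ring
    rw [hW, hP] at h2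
    linear_combination (1 / 3) * h2
  linear_combination (-1 / 3) * σ * h1 + (D / 3) * hσ

private theorem thr_ne {w : ℂ} (hw : w ^ 2 + w + 1 = 0) : 1 - w ≠ 0 := by
  intro h0
  have h1 : w = 1 := by linear_combination -h0
  rw [h1] at hw
  norm_num at hw

private theorem thr_lat {w : ℂ} (hw : w ^ 2 + w + 1 = 0) {σ : ℂ} (hσ : σ = 1 + 2 * w ∨ σ = -(1 + 2 * w)) {β : ℂ}
    (hβ : β ∈ Oz w) :
    ∃ γ ∈ Oz w, β / (1 - w) = γ ∨ β / (1 - w) = -σ / 3 + γ ∨ β / (1 - w) = σ + σ / 3 + γ := by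
  have h0 := thr_ne hw
  obtain ⟨x, y, rfl⟩ := hβ
  obtain ⟨k, hk⟩ : ∃ k : ℤ, x = 3 * k - y ∨ x = 3 * k + 1 - y ∨ x = 3 * k + 2 - y := ⟨(x + y) / 3, by omega⟩
  rcases hk with hk | hk | hk
  · refine ⟨_, ⟨2 * k - y, k, rfl⟩, Or.inl ?_⟩
    rw [div_eq_iff h0, hk]
    push_cast
    linear_combination (k : ℂ) * hw
  · rcases hσ with rfl | rfl
    · refine ⟨_, ⟨2 * k - y + 1, k + 1, rfl⟩, Or.inr (Or.inl ?_)⟩
      rw [div_eq_iff h0, hk]
      push_cast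
      linear_combination ((k : ℂ) + 1 / 3) * hw
    · refine ⟨_, ⟨2 * k - y + 2, k + 3, rfl⟩, Or.inr (Or.inr ?_)⟩
      rw [div_eq_iff h0, hk]
      push_cast
      linear_combination ((k : ℂ) + 1 / 3) * hw
  · rcases hσ with rfl | rfl
    · refine ⟨_, ⟨2 * k - y, k - 2, rfl⟩, Or.inr (Or.inr ?_)⟩
      rw [div_eq_iff h0, hk]
      push_cast
      linear_combination ((k : ℂ) + 2 / 3) * hw
    · refine ⟨_, ⟨2 * k - y + 1, k, rfl⟩, Or.inr (Or.inl ?_)⟩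
      rw [div_eq_iff h0, hk]
      push_cast
      linear_combination ((k : ℂ) + 2 / 3) * hw

private theorem thr_c0 {A : SL(2, ℂ)} (hn : Complex.normSq (A.1 1 0) = 3) : A.1 1 0 ≠ 0 := by
  intro h0
  rw [h0, map_zero] at hn
  norm_num at hn

private theorem thr_ex (h : NF Γ Δ w) {E : SL(2, ℂ)} (hE : cls E ∈ Δ) (hn : Complex.normSq (E.1 1 0) = 3) {γ : ℂ}
    (hγ : γ ∈ Oz w) : ∃ F : SL(2, ℂ), cls F ∈ Δ ∧ Complex.normSq (F.1 1 0) = 3 ∧ pt F = pt E + γ := by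
  refine ⟨T γ * E, ?_, ?_, pt_T γ (thr_c0 hn)⟩
  · rw [cls_mul]
    exact Δ.mul_mem (h.t_mem hγ) hE
  · have h1 : (T γ * E).1 1 0 = E.1 1 0 := by
      rw [T_mul_coe]
      rfl
    rw [h1]
    exact hn

private theorem thr_shift {p : ℂ} {F : SL(2, ℂ)} (hF : cls F ∈ Δ) (hn : Complex.normSq (F.1 1 0) = 3) :
    ∃ A' : SL(2, ℂ), cls A' ∈ cj (t p) Δ ∧ Complex.normSq (A'.1 1 0) = 3 ∧ pt A' = pt F - p := by
  have e : T p * (T (-p) * F * T p) * T (-p) = F := by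
    rw [T_neg]
    group
  obtain ⟨h1, h2⟩ := shift_c p (T (-p) * F * T p)
  rw [e] at h1 h2
  have hn' : Complex.normSq ((T (-p) * F * T p).1 1 0) = 3 := by
    rw [← h1]
    exact hn
  refine ⟨T (-p) * F * T p, mem_shift.2 ?_, hn', ?_⟩
  · rw [e]
    exact hF
  · rw [h2 (thr_c0 hn')]
    ring

theorem NF.n3 (h : NF Γ Δ w) (hm : ∀ A : SL(2, ℂ), cls A ∈ Δ → A.1 1 0 ≠ 0 → 3 ≤ Complex.normSq (A.1 1 0)) {A B : SL(2, ℂ)} {σ : ℂ}
    (hσ : ∃ x y : ℤ, 4 ≤ |y| ∧ 2 * σ = x + y * w) (hp : PT Γ σ A B)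
    (a1 : Complex.normSq (A.1 1 0) ≤ Complex.normSq (B.1 1 0)) (a2 : Complex.normSq (B.1 1 0) ≤ Complex.normSq ((A * B).1 1 0))
    (a3 : Complex.normSq ((A * B).1 1 0) ≤ Complex.normSq ((A * B⁻¹).1 1 0)) : ∃ p : ℂ, N3 (cj (t p) Γ) (cj (t p) Δ) w := by
  obtain ⟨x, y, hy, hxy⟩ := hσ
  have hw := h.w2
  have h1w := thr_ne hw
  obtain ⟨h12, h12'⟩ := oz_twelve hw (x := x) hy
  rw [← hxy] at h12 h12'
  have n2 : Complex.normSq (2 * σ) = 4 * Complex.normSq σ := by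
    rw [Complex.normSq_mul]
    norm_num
  have hσ3 : 3 ≤ Complex.normSq σ := by
    rw [n2] at h12
    linarith
  have hσ0 : σ ≠ 0 := by
    intro h0
    rw [h0, map_zero] at hσ3
    norm_num at hσ3
  have hX := hp.ne_a h.tf
  have hY := hp.ne_b h.tf
  have hAΔ := h.le hp.a
  have hBΔ := h.le hp.b
  have hX3 := hm A hAΔ hX
  have hZ : (A * B).1 1 0 ≠ 0 := by
    intro h0
    rw [h0, map_zero] at a2
    linarith
  have id1 := hp.id1 hσ0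
  have id3 := hp.id3 hσ0
  obtain ⟨s3, x3, y3, z3, hyx, hzx⟩ := inq2 hX hY hZ id1 id3 a1 a2 a3 hσ3 hX3
  obtain ⟨hσ2', hσ'⟩ := h12' (by rw [n2, s3]; norm_num)
  have hσ2 : σ ^ 2 = -3 := by linear_combination (1 / 4) * hσ2'
  have hσe : σ = 1 + 2 * w ∨ σ = -(1 + 2 * w) := by
    rcases hσ' with h1 | h1
    · left
      linear_combination (1 / 2) * h1
    · right
      linear_combination (1 / 2) * h1
  obtain ⟨hX2, hXYZ⟩ := thr_alg hX hσ2 id1 hyx hzx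
  have hY2 : B.1 1 0 ^ 2 = -3 := hyx.trans hX2
  have hZ2 : (A * B).1 1 0 ^ 2 = -3 := hzx.trans hX2
  have hpA : pt A = pt A⁻¹ + σ := by
    have h1 : A.1 1 0 * (pt A - pt A⁻¹) = A.1 1 0 * σ := by
      rw [← trace_pt hX, hp.tr_a, mul_comm]
    linear_combination mul_left_cancel₀ hX h1
  have hpB : pt B = pt A⁻¹ - σ / 3 := by
    have h1 := thr_div hσ2 (c_mul hX hY) hZ2 hXYZ
    linear_combination h1
  have hpAB : pt (A * B) = pt A⁻¹ + σ + σ / 3 := by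
    have h1 := c_inv_mul hX hZ
    rw [inv_mul_cancel_left] at h1
    have h2 := thr_div hσ2 h1 hY2 (by rw [← hXYZ]; ring)
    rw [hpA] at h2
    linear_combination -h2
  have hAi : cls A⁻¹ ∈ Δ := by
    rw [cls_inv]
    exact Δ.inv_mem hAΔ
  have hAin : Complex.normSq ((A⁻¹).1 1 0) = 3 := by
    rw [hp.cyc_c.1, Complex.normSq_neg]
    exact x3
  have hAB : cls (A * B) ∈ Δ := by
    rw [cls_mul]
    exact Δ.mul_mem hAΔ hBΔ
  have hexΔ : ∀ β ∈ Oz w, ∃ F : SL(2, ℂ), cls F ∈ Δ ∧ Complex.normSq (F.1 1 0) = 3 ∧ pt F = pt A⁻¹ + β / (1 - w) := by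
    intro β hβ
    obtain ⟨γ, hγ, h1 | h1 | h1⟩ := thr_lat hw hσe hβ
    · obtain ⟨F, f1, f2, f3⟩ := thr_ex h hAi hAin hγ
      exact ⟨F, f1, f2, by rw [f3, h1]⟩
    · obtain ⟨F, f1, f2, f3⟩ := thr_ex h hBΔ y3 hγ
      exact ⟨F, f1, f2, by rw [f3, h1, hpB]; ring⟩
    · obtain ⟨F, f1, f2, f3⟩ := thr_ex h hAB z3 hγ
      exact ⟨F, f1, f2, by rw [f3, h1, hpAB]; ring⟩
  have hex : ∀ β ∈ Oz w, ∃ A' : SL(2, ℂ), cls A' ∈ cj (t (pt A⁻¹)) Δ ∧ Complex.normSq (A'.1 1 0) = 3 ∧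
      (1 - w) * pt A' = β := by
    intro β hβ
    obtain ⟨F, f1, f2, f3⟩ := hexΔ β hβ
    obtain ⟨A', g1, g2, g3⟩ := thr_shift (p := pt A⁻¹) f1 f2
    refine ⟨A', g1, g2, ?_⟩
    rw [g3, f3, add_sub_cancel_left, mul_div_cancel₀ β h1w]
  have hmin : ∀ A' : SL(2, ℂ), cls A' ∈ cj (t (pt A⁻¹)) Δ → A'.1 1 0 ≠ 0 → 3 ≤ Complex.normSq (A'.1 1 0) := by
    intro A' hA' h0
    have h1 := (shift_c (pt A⁻¹) A').1
    have h2 := hm _ (mem_shift.1 hA') (by rw [h1]; exact h0)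
    rwa [h1] at h2
  refine ⟨pt A⁻¹, h.shift _, hmin, ?_, hex⟩
  intro A' hA' hn
  obtain ⟨β, hβ, hd⟩ := oz_near3 hw (pt A')
  obtain ⟨E', hE', hE'n, hE'p⟩ := hex β hβ
  have hA'0 := thr_c0 hn
  have hE'0 := thr_c0 hE'n
  have hpe : pt E' = β / (1 - w) := by
    rw [eq_div_iff h1w, mul_comm]
    exact hE'p
  have hc := c_inv_mul hA'0 hE'0
  have hmem : cls (A'⁻¹ * E') ∈ cj (t (pt A⁻¹)) Δ := by
    rw [cls_mul, cls_inv]
    exact Subgroup.mul_mem _ (Subgroup.inv_mem _ hA') hE'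
  by_cases h0 : (A'⁻¹ * E').1 1 0 = 0
  · rw [hc] at h0
    have h1 : pt A' - pt E' = 0 := (mul_eq_zero.1 h0).resolve_left (mul_ne_zero hA'0 hE'0)
    rw [sub_eq_zero.1 h1, hE'p]
    exact hβ
  · exfalso
    have h3 := hmin _ hmem h0
    rw [hc, Complex.normSq_mul, Complex.normSq_mul, hn, hE'n, hpe] at h3
    linarith

end Pool.Agent.HSG
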